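import Mathlib

/-!
Matchings as involutions, exchange moves, flowers generated by exchange moves.
-/

set_option linter.unusedSectionVars false

namespace Pool.Agent.V11124.Flower

open Finset

variable {V : Type*} [Fintype V] [DecidableEq V] {G : SimpleGraph V}

/-- A matching encoded as an involution. -/
def IsMat (G : SimpleGraph V) (f : V → V) : Prop :=
  (∀ v, f (f v) = v) ∧ ∀ v, f v ≠ v → G.Adj v (f v)

/-- The exposed vertices. -/
def expo (f : V → V) : Finset V := univ.filter (fun v => f v = v)

/-- Maximum matchings: fewest exposed vertices. -/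
def IsMax (G : SimpleGraph V) (f : V → V) : Prop :=
  IsMat G f ∧ ∀ g, IsMat G g → (expo f).card ≤ (expo g).card

omit [Fintype V] [DecidableEq V] in
lemma IsMat.inj {f : V → V} (h : IsMat G f) : Function.Injective f := fun a b hab => by
  rw [← h.1 a, ← h.1 b, hab]

/-- Exchange: match the exposed vertex `r` with `u`, exposing the old partner of `u`. -/
def swp (f : V → V) (r u : V) : V → V :=
  fun v => if v = r then u else if v = u then r else if v = f u then f u else f v

/-- Adding an edge between two exposed vertices. -/
def aug (f : V → V) (r u : V) : V → V :=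
  fun v => if v = r then u else if v = u then r else f v

lemma aug_isMat {f : V → V} {r u : V} (hf : IsMat G f) (hr : f r = r) (hu : f u = u)
    (hadj : G.Adj r u) : IsMat G (aug f r u) := by
  have hne := hadj.ne
  have hfv : ∀ v, v ≠ r → f v ≠ r := fun v hv h => hv (hf.inj (h.trans hr.symm))
  have hfu : ∀ v, v ≠ u → f v ≠ u := fun v hv h => hv (hf.inj (h.trans hu.symm))
  constructor
  · intro v
    unfold aug
    by_cases h1 : v = r
    · subst h1; simp [hne.symm]
    · by_cases h2 : v = u
      · subst h2; simp [h1]
      · simp [h1, h2, hfv v h1, hfu v h2, hf.1 v]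
  · intro v
    unfold aug
    by_cases h1 : v = r
    · subst h1; simp [hadj]
    · by_cases h2 : v = u
      · subst h2; simp [h1, hadj.symm]
      · simp only [h1, h2, if_false]; exact hf.2 v

lemma no_aug {f : V → V} {r u : V} (hf : IsMax G f) (hr : f r = r) (hu : f u = u)
    (hadj : G.Adj r u) : False := by
  have h1 := hf.2 _ (aug_isMat hf.1 hr hu hadj)
  have h2 : expo (aug f r u) ⊂ expo f := by
    refine Finset.ssubset_iff_subset_ne.2 ⟨?_, ?_⟩
    · intro v hv
      simp only [expo, mem_filter, mem_univ, true_and] at hv ⊢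
      unfold aug at hv
      by_cases h1 : v = r
      · subst h1; exact hr
      · by_cases h2 : v = u
        · subst h2; exact hu
        · simpa [h1, h2] using hv
    · intro h
      have : r ∈ expo (aug f r u) := by rw [h]; simp [expo, hr]
      simp only [expo, mem_filter, mem_univ, true_and] at this
      unfold aug at this
      simp at this
      exact hadj.ne this.symm
  have := Finset.card_lt_card h2
  omega

lemma swp_root {f : V → V} {r u : V} : swp f r u r = u := by simp [swp]

lemma swp_u {f : V → V} {r u : V} (h : u ≠ r) : swp f r u u = r := by simp [swp, h]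

lemma swp_w {f : V → V} {r u : V} (hf : IsMat G f) (hr : f r = r) (hadj : G.Adj r u)
    (hfu : f u ≠ u) : swp f r u (f u) = f u := by
  have h1 : f u ≠ r := fun h => hadj.ne (hf.inj (h.trans hr.symm)).symm
  simp [swp, h1, hfu]

lemma swp_other {f : V → V} {r u v : V} (h1 : v ≠ r) (h2 : v ≠ u) (h3 : v ≠ f u) :
    swp f r u v = f v := by simp [swp, h1, h2, h3]

lemma swp_isMat {f : V → V} {r u : V} (hf : IsMat G f) (hr : f r = r) (hadj : G.Adj r u)
    (hfu : f u ≠ u) : IsMat G (swp f r u) := by
  have hne := hadj.ne
  have h1 : f u ≠ r := fun h => hne (hf.inj (h.trans hr.symm)).symm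
  constructor
  · intro v
    by_cases hv1 : v = r
    · subst hv1; rw [swp_root, swp_u hne.symm]
    · by_cases hv2 : v = u
      · subst hv2; rw [swp_u hne.symm, swp_root]
      · by_cases hv3 : v = f u
        · subst hv3; rw [swp_w hf hr hadj hfu, swp_w hf hr hadj hfu]
        · rw [swp_other hv1 hv2 hv3, swp_other, hf.1 v]
          · exact fun h => hv1 (hf.inj (h.trans hr.symm))
          · intro h; apply hv3; rw [← h, hf.1]
          · intro h; exact hv2 (hf.inj h)
  · intro v hv
    by_cases hv1 : v = r
    · subst hv1; rw [swp_root]; exact hadj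
    · by_cases hv2 : v = u
      · subst hv2; rw [swp_u hne.symm]; exact hadj.symm
      · by_cases hv3 : v = f u
        · subst hv3; exact absurd (swp_w hf hr hadj hfu) hv
        · rw [swp_other hv1 hv2 hv3] at hv ⊢
          exact hf.2 v hv

lemma swp_expo {f : V → V} {r u : V} (hf : IsMat G f) (hr : f r = r) (hadj : G.Adj r u)
    (hfu : f u ≠ u) : (expo (swp f r u)).card = (expo f).card := by
  have hne := hadj.ne
  have h1 : f u ≠ r := fun h => hne (hf.inj (h.trans hr.symm)).symm
  have e : expo (swp f r u) = insert (f u) ((expo f).erase r) := by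
    ext v
    simp only [expo, mem_filter, mem_univ, true_and, mem_insert, mem_erase]
    by_cases hv1 : v = r
    · subst hv1; rw [swp_root]
      constructor
      · intro h; exact absurd h hne.symm
      · rintro (h | h)
        · exact absurd h.symm h1
        · exact absurd rfl h.1
    · by_cases hv2 : v = u
      · subst hv2; rw [swp_u hne.symm]
        constructor
        · intro h; exact absurd h hne
        · rintro (h | h)
          · exact absurd h.symm hfu
          · exact absurd h.2 hfu
      · by_cases hv3 : v = f u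
        · subst hv3; rw [swp_w hf hr hadj hfu]; simp
        · rw [swp_other hv1 hv2 hv3]
          simp [hv1, hv3]
  rw [e, card_insert_of_notMem, card_erase_add_one]
  · simp [expo, hr]
  · simp only [expo, mem_erase, mem_filter, mem_univ, true_and, hf.1 u, not_and]
    exact fun _ h => hfu h.symm

lemma swp_isMax {f : V → V} {r u : V} (hf : IsMax G f) (hr : f r = r) (hadj : G.Adj r u)
    (hfu : f u ≠ u) : IsMax G (swp f r u) :=
  ⟨swp_isMat hf.1 hr hadj hfu, fun g hg => by
    rw [swp_expo hf.1 hr hadj hfu]; exact hf.2 g hg⟩

/-- swapping back -/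
lemma swp_swp {f : V → V} {r u : V} (hf : IsMat G f) (hr : f r = r) (hadj : G.Adj r u)
    (hfu : f u ≠ u) : swp (swp f r u) (f u) u = f := by
  have hne := hadj.ne
  have h1 : f u ≠ r := fun h => hne (hf.inj (h.trans hr.symm)).symm
  funext v
  unfold swp
  by_cases hv1 : v = r
  · subst hv1
    simp [h1.symm, hne, hne.symm, hr]
  · by_cases hv2 : v = u
    · subst hv2; simp [hfu.symm]
    · by_cases hv3 : v = f u
      · subst hv3; simp [hf.1]
      · simp [hv1, hv2, hv3, hne.symm]

/-- Flowers with blossom `C`, generated from the blossoms with exposed base by exchange moves. -/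
inductive Fl (G : SimpleGraph V) (C : G.Subgraph) : (V → V) → V → Set V → Prop
  | base (f : V → V) (b : V) (hf : IsMax G f) (hb : b ∈ C.verts) (hfb : f b = b)
      (hC : ∀ v ∈ C.verts, v ≠ b → C.Adj v (f v)) : Fl G C f b C.verts
  | ext (f : V → V) (r : V) (S : Set V) (u : V) (h : Fl G C f r S) (hu : G.Adj r u)
      (huS : u ∉ S) (hfu : f u ≠ u) : Fl G C (swp f r u) (f u) (insert u (insert (f u) S))

namespace Fl

variable {C : G.Subgraph} {f : V → V} {r : V} {S : Set V}

lemma facts (h : Fl G C f r S) : IsMax G f ∧ f r = r ∧ r ∈ S ∧ C.verts ⊆ S ∧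
    (∀ v ∈ S, f v ∈ S) ∧ (∀ v ∈ S, v ≠ r → f v ≠ v) := by
  induction h with
  | base f b hf hb hfb hC =>
    refine ⟨hf, hfb, hb, subset_rfl, ?_, ?_⟩
    · intro v hv
      by_cases h : v = b
      · rw [h, hfb]; exact hb
      · exact (hC v hv h).snd_mem
    · intro v hv h
      exact (hC v hv h).ne.symm
  | ext f r S u h hu huS hfu ih =>
    obtain ⟨h1, h2, h3, h4, h5, h6⟩ := ih
    have hne := hu.ne
    have hfur : f u ≠ r := fun h => hne (h1.1.inj (h.trans h2.symm)).symm
    refine ⟨swp_isMax h1 h2 hu hfu, swp_w h1.1 h2 hu hfu, ?_, ?_, ?_, ?_⟩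
    · simp
    · exact h4.trans ((Set.subset_insert _ _).trans (Set.subset_insert _ _))
    · intro v hv
      by_cases hv1 : v = r
      · rw [hv1, swp_root]; simp
      · by_cases hv2 : v = u
        · rw [hv2, swp_u hne.symm]; right; right; exact h3
        · by_cases hv3 : v = f u
          · rw [hv3, swp_w h1.1 h2 hu hfu]; simp
          · rw [swp_other hv1 hv2 hv3]
            right; right
            rcases hv with hv | hv | hv
            · exact absurd hv hv2
            · exact absurd hv hv3
            · exact h5 v hv
    · intro v hv hvw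
      by_cases hv1 : v = r
      · rw [hv1, swp_root]; exact hne.symm
      · by_cases hv2 : v = u
        · rw [hv2, swp_u hne.symm]; exact hne
        · rw [swp_other hv1 hv2 hvw]
          rcases hv with hv | hv | hv
          · exact absurd hv hv2
          · exact absurd hv hvw
          · exact h6 v hv hv1

lemma isMax (h : Fl G C f r S) : IsMax G f := h.facts.1
lemma root (h : Fl G C f r S) : f r = r := h.facts.2.1
lemma root_mem (h : Fl G C f r S) : r ∈ S := h.facts.2.2.1
lemma verts_sub (h : Fl G C f r S) : C.verts ⊆ S := h.facts.2.2.2.1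
lemma closed (h : Fl G C f r S) : ∀ v ∈ S, f v ∈ S := h.facts.2.2.2.2.1
lemma covered (h : Fl G C f r S) : ∀ v ∈ S, v ≠ r → f v ≠ v := h.facts.2.2.2.2.2

lemma closed' (h : Fl G C f r S) {v : V} (hv : v ∉ S) : f v ∉ S := fun h' => by
  have := h.closed _ h'
  rw [h.isMax.1.1] at this
  exact hv this

/-- Changing the matching outside the flower. -/
lemma congr (h : Fl G C f r S) : ∀ g : V → V, IsMax G g → (∀ v ∈ S, g v = f v) →
    Fl G C g r S := by
  induction h with
  | base f b hf hb hfb hC =>
    intro g hg hgf
    refine Fl.base g b hg hb (by rw [hgf b hb, hfb]) ?_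
    intro v hv hvb
    rw [hgf v hv]; exact hC v hv hvb
  | ext f r S u h hu huS hfu ih =>
    intro g hg hgf
    have hne := hu.ne
    have h2 := h.root
    have h1 := h.isMax
    have hfur : f u ≠ r := fun h => hne (h1.1.inj (h.trans h2.symm)).symm
    have hrS : r ∈ insert u (insert (f u) S) := by right; right; exact h.root_mem
    have huS' : u ∈ insert u (insert (f u) S) := by simp
    have hwS' : f u ∈ insert u (insert (f u) S) := by simp
    have g1 : g r = u := by rw [hgf r hrS, swp_root]
    have g2 : g u = r := by rw [hgf u huS', swp_u hne.symm]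
    have g3 : g (f u) = f u := by rw [hgf _ hwS', swp_w h1.1 h2 hu hfu]
    have hadj : G.Adj (f u) u := (h1.1.2 u hfu).symm
    have hgu : g u ≠ u := by rw [g2]; exact hne
    have hg' := swp_isMax hg g3 hadj hgu
    have hfuS : f u ∉ S := h.closed' huS
    have key := ih (swp g (f u) u) hg' (by
      intro v hv
      have hvu : v ≠ u := fun h => huS (h ▸ hv)
      have hvw : v ≠ f u := fun h => hfuS (h ▸ hv)
      by_cases hvr : v = r
      · rw [hvr]
        have : swp g (f u) u (g u) = g u := swp_w hg.1 g3 hadj hgu
        rw [g2] at this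
        rw [this, h2]
      · rw [swp_other hvw hvu (by rw [g2]; exact hvr), hgf v (by right; right; exact hv),
          swp_other hvr hvu hvw])
    have hu' : swp g (f u) u u = f u := swp_u hadj.ne.symm
    have key2 := Fl.ext _ r S u key hu huS (by rw [hu']; exact hfu)
    rw [hu'] at key2
    have e : swp (swp g (f u) u) r u = g := by
      have := swp_swp hg.1 g3 hadj hgu
      rwa [g2] at this
    rwa [e] at key2

end Fl

/-- Moving an exposed vertex along an alternating path. -/
lemma shift (l : ℕ) : ∀ (h : V → V) (s : ℕ → V), IsMax G h → h (s 0) = s 0 →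
    (∀ j, j < l → G.Adj (s (2 * j)) (s (2 * j + 1))) →
    (∀ j, j < l → h (s (2 * j + 1)) = s (2 * j + 2)) →
    (∀ a b, a ≤ 2 * l → b ≤ 2 * l → s a = s b → a = b) →
    ∃ h', IsMax G h' ∧ h' (s (2 * l)) = s (2 * l) ∧
      ∀ v, (∀ a, a ≤ 2 * l → s a ≠ v) → h' v = h v := by
  induction l with
  | zero => intro h s hm h0 _ _ _; exact ⟨h, hm, h0, fun v _ => rfl⟩
  | succ l ih =>
    intro h s hm h0 hadj hmat hinj
    have a0 : G.Adj (s 0) (s 1) := hadj 0 (by omega)
    have m0 : h (s 1) = s 2 := hmat 0 (by omega)
    have hne : h (s 1) ≠ s 1 := by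
      rw [m0]; intro e; have := hinj 2 1 (by omega) (by omega) e; omega
    have hm' := swp_isMax hm h0 a0 hne
    obtain ⟨h', hm2, h3, h4⟩ := ih (swp h (s 0) (s 1)) (fun a => s (a + 2)) hm' (by
        show swp h (s 0) (s 1) (s 2) = s 2
        rw [← m0]; exact swp_w hm.1 h0 a0 hne)
      (by
        intro j hj
        exact hadj (j + 1) (by omega))
      (by
        intro j hj
        show swp h (s 0) (s 1) (s (2 * j + 1 + 2)) = s (2 * j + 2 + 2)
        rw [swp_other]
        · exact hmat (j + 1) (by omega)
        · intro e; have := hinj _ _ (by omega) (by omega) e; omega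
        · intro e; have := hinj _ _ (by omega) (by omega) e; omega
        · rw [m0]; intro e; have := hinj _ _ (by omega) (by omega) e; omega)
      (by
        intro a b ha hb hab
        have := hinj (a + 2) (b + 2) (by omega) (by omega) hab
        omega)
    refine ⟨h', hm2, ?_, ?_⟩
    · have : 2 * (l + 1) = 2 * l + 2 := by ring
      rw [this]; exact h3
    · intro v hv
      rw [h4 v (fun a ha => hv (a + 2) (by omega))]
      apply swp_other
      · exact (hv 0 (by omega)).symm
      · exact (hv 1 (by omega)).symm
      · rw [m0]; exact (hv 2 (by omega)).symm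

/-- Extending a flower along an alternating path leaving it at the root. -/
lemma Fl.extend {C : G.Subgraph} (l : ℕ) : ∀ (h : V → V) (s : ℕ → V) (S : Set V),
    Fl G C h (s 0) S →
    (∀ j, j < l → G.Adj (s (2 * j)) (s (2 * j + 1))) →
    (∀ j, j < l → h (s (2 * j + 1)) = s (2 * j + 2)) →
    (∀ a b, a ≤ 2 * l → b ≤ 2 * l → s a = s b → a = b) →
    (∀ a, 0 < a → a ≤ 2 * l → s a ∉ S) →
    ∃ h' S', Fl G C h' (s (2 * l)) S' := by
  induction l with
  | zero => intro h s S hF _ _ _ _; exact ⟨h, S, hF⟩
  | succ l ih =>
    intro h s S hF hadj hmat hinj hS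
    have a0 : G.Adj (s 0) (s 1) := hadj 0 (by omega)
    have m0 : h (s 1) = s 2 := hmat 0 (by omega)
    have hne : h (s 1) ≠ s 1 := by
      rw [m0]; intro e; have := hinj 2 1 (by omega) (by omega) e; omega
    have hF' := Fl.ext h (s 0) S (s 1) hF a0 (hS 1 (by omega) (by omega)) hne
    rw [m0] at hF'
    obtain ⟨h', S', h5⟩ := ih (swp h (s 0) (s 1)) (fun a => s (a + 2)) _ hF'
      (by
        intro j hj
        exact hadj (j + 1) (by omega))
      (by
        intro j hj
        show swp h (s 0) (s 1) (s (2 * j + 1 + 2)) = s (2 * j + 2 + 2)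
        rw [swp_other]
        · exact hmat (j + 1) (by omega)
        · intro e; have := hinj _ _ (by omega) (by omega) e; omega
        · intro e; have := hinj _ _ (by omega) (by omega) e; omega
        · rw [m0]; intro e; have := hinj _ _ (by omega) (by omega) e; omega)
      (by
        intro a b ha hb hab
        have := hinj (a + 2) (b + 2) (by omega) (by omega) hab
        omega)
      (by
        intro a ha ha2 hmem
        rcases hmem with e | e | e
        · have := hinj _ _ (by omega) (by omega) e; omega
        · have := hinj _ _ (by omega) (by omega) e; omega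
        · exact hS (a + 2) (by omega) (by omega) e)
    refine ⟨h', S', ?_⟩
    have : 2 * (l + 1) = 2 * l + 2 := by ring
    rw [this]; exact h5

end Pool.Agent.V11124.Flower
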