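import Mathlib
import Pool.Agent.V11124.FlCore

/-!
Alternating sequences of two involutions, odd cycles, reach sets.
-/

set_option linter.unusedSectionVars false

namespace Pool.Agent.V11124.Flower

open Finset SimpleGraph

variable {V : Type*} [Fintype V] [DecidableEq V] {G : SimpleGraph V}

/-- The alternating sequence. -/
def alt (f g : V → V) (y : V) : ℕ → V
  | 0 => y
  | n + 1 => if Even n then f (alt f g y n) else g (alt f g y n)

lemma alt_zero (f g : V → V) (y : V) : alt f g y 0 = y := rfl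

lemma alt_succ_even {f g : V → V} {y : V} {n : ℕ} (h : Even n) :
    alt f g y (n + 1) = f (alt f g y n) := by simp [alt, h]

lemma alt_succ_odd {f g : V → V} {y : V} {n : ℕ} (h : Odd n) :
    alt f g y (n + 1) = g (alt f g y n) := by
  have : ¬ Even n := Nat.not_even_iff_odd.2 h
  simp [alt, this]

lemma alt_back_even {f g : V → V} {y : V} {n : ℕ} (hf : ∀ v, f (f v) = v) (h : Even n) :
    f (alt f g y (n + 1)) = alt f g y n := by rw [alt_succ_even h, hf]

lemma alt_back_odd {f g : V → V} {y : V} {n : ℕ} (hg : ∀ v, g (g v) = v) (h : Odd n) :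
    g (alt f g y (n + 1)) = alt f g y n := by rw [alt_succ_odd h, hg]

section inj

variable {f g : V → V} {y : V} (hf : ∀ v, f (f v) = v) (hg : ∀ v, g (g v) = v)

include hf hg

lemma alt_opp {n : ℕ} (hb : ∀ t < n, alt f g y (t + 1) ≠ alt f g y t) (d : ℕ) :
    ∀ a, a + (2 * d + 1) ≤ n → alt f g y a ≠ alt f g y (a + (2 * d + 1)) := by
  induction d with
  | zero => intro a ha h; exact hb a (by omega) h.symm
  | succ d ih =>
    intro a ha h
    apply ih (a + 1) (by omega)
    have e : a + (2 * (d + 1) + 1) = (a + 1 + (2 * d + 1)) + 1 := by omega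
    rw [e] at h
    rcases Nat.even_or_odd a with hev | hod
    · have h2 : Even (a + 1 + (2 * d + 1)) := by
        obtain ⟨k, hk⟩ := hev; exact ⟨k + d + 1, by omega⟩
      rw [alt_succ_even hev, h, alt_back_even hf h2]
    · have h2 : Odd (a + 1 + (2 * d + 1)) := by
        obtain ⟨k, hk⟩ := hod; exact ⟨k + d + 1, by omega⟩
      rw [alt_succ_odd hod, h, alt_back_odd hg h2]

lemma alt_same {n : ℕ} (hx : ∀ t, Odd t → t ≤ n → alt f g y t ≠ g y) (d : ℕ) :
    ∀ a, a + (2 * d + 2) ≤ n → alt f g y a ≠ alt f g y (a + (2 * d + 2)) := by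
  intro a
  induction a with
  | zero =>
    intro ha h
    have hod : Odd (2 * d + 1) := ⟨d, rfl⟩
    apply hx (2 * d + 1) hod (by omega)
    have e : 0 + (2 * d + 2) = 2 * d + 1 + 1 := by omega
    rw [e, alt_zero] at h
    have h9 := congrArg g h
    rw [alt_back_odd hg hod] at h9
    exact h9.symm
  | succ a ih =>
    intro ha h
    apply ih (by omega)
    have e : a + 1 + (2 * d + 2) = (a + (2 * d + 2)) + 1 := by omega
    rw [e] at h
    rcases Nat.even_or_odd a with hev | hod
    · have h2 : Even (a + (2 * d + 2)) := by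
        obtain ⟨k, hk⟩ := hev; exact ⟨k + d + 1, by omega⟩
      rw [← alt_back_even (f := f) (g := g) (y := y) hf hev, h, alt_back_even hf h2]
    · have h2 : Odd (a + (2 * d + 2)) := by
        obtain ⟨k, hk⟩ := hod; exact ⟨k + d + 1, by omega⟩
      rw [← alt_back_odd (f := f) (g := g) (y := y) hg hod, h, alt_back_odd hg h2]

lemma alt_inj {n : ℕ} (hb : ∀ t < n, alt f g y (t + 1) ≠ alt f g y t)
    (hx : ∀ t, Odd t → t ≤ n → alt f g y t ≠ g y) :
    ∀ a b, a ≤ n → b ≤ n → alt f g y a = alt f g y b → a = b := by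
  have key : ∀ a b, a < b → b ≤ n → alt f g y a ≠ alt f g y b := by
    intro a b hab hbn
    rcases Nat.even_or_odd (b - a) with h | h
    · obtain ⟨k, hk⟩ := h
      have e : b = a + (2 * (k - 1) + 2) := by omega
      rw [e]
      exact alt_same hf hg hx (k - 1) a (by omega)
    · obtain ⟨k, hk⟩ := h
      have e : b = a + (2 * k + 1) := by omega
      rw [e]
      exact alt_opp hf hg hb k a (by omega)
  intro a b ha hb' h
  rcases lt_trichotomy a b with hlt | hlt | hlt
  · exact absurd h (key a b hlt hb')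
  · exact hlt
  · exact absurd h.symm (key b a hlt ha)

lemma alt_inj_exposed {n : ℕ} (hb : ∀ t < n, alt f g y (t + 1) ≠ alt f g y t) (hy : g y = y) :
    ∀ a b, a ≤ n → b ≤ n → alt f g y a = alt f g y b → a = b := by
  apply alt_inj hf hg hb
  intro t ht htn h
  rw [hy] at h
  obtain ⟨k, hk⟩ := ht
  have := alt_opp hf hg hb k 0 (by omega)
  apply this
  have e : 0 + (2 * k + 1) = t := by omega
  rw [e, h, alt_zero]

end inj

/-- A sequence with adjacent consecutive members gives a walk. -/
lemma exists_walk (z : ℕ → V) (n : ℕ) (h : ∀ t < n, G.Adj (z (t + 1)) (z t)) :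
    ∃ p : G.Walk (z n) (z 0), p.length = n ∧ (∀ v, v ∈ p.support ↔ ∃ t ≤ n, z t = v) ∧
      ((∀ a b, a ≤ n → b ≤ n → z a = z b → a = b) → p.IsPath) := by
  induction n with
  | zero =>
    refine ⟨Walk.nil, rfl, ?_, fun _ => by simp⟩
    intro v
    simp [eq_comm]
  | succ n ih =>
    obtain ⟨p, h1, h2, h3⟩ := ih (fun t ht => h t (by omega))
    refine ⟨Walk.cons (h n (by omega)) p, by simp [h1], ?_, ?_⟩
    · intro v
      rw [Walk.support_cons, List.mem_cons, h2]
      constructor
      · rintro (e | ⟨t, ht, e⟩)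
        · exact ⟨n + 1, le_refl _, e.symm⟩
        · exact ⟨t, by omega, e⟩
      · rintro ⟨t, ht, e⟩
        by_cases htn : t = n + 1
        · left; rw [← e, htn]
        · right; exact ⟨t, by omega, e⟩
    · intro hinj
      rw [Walk.cons_isPath_iff]
      refine ⟨h3 (fun a b ha hb => hinj a b (by omega) (by omega)), ?_⟩
      rw [h2]
      rintro ⟨t, ht, e⟩
      have := hinj t (n + 1) (by omega) (by omega) e
      omega

/-- Closing a path of length at least two by an edge. -/
lemma close_cycle {a b : V} (P : G.Walk a b) (hP : P.IsPath) (hl : 2 ≤ P.length)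
    (hab : G.Adj b a) : (Walk.cons hab P).IsCycle := by
  rw [Walk.cons_isCycle_iff]
  refine ⟨hP, ?_⟩
  intro he
  cases P with
  | nil => simp at hl
  | cons h q =>
    rw [Walk.cons_isPath_iff] at hP
    rw [Walk.edges_cons, List.mem_cons] at he
    rcases he with he | he
    · rw [Sym2.eq_swap] at he
      have hbc := Sym2.congr_right.1 he
      subst hbc
      have h9 : q.length = 0 := Walk.length_eq_zero_iff.2 (Walk.isPath_iff_nil.1 hP.1)
      rw [Walk.length_cons, h9] at hl
      omega
    · exact hP.2 (Walk.snd_mem_support_of_mem_edges q he)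

/-- Joining two paths with disjoint supports by an edge. -/
lemma join_path {a b c d : V} (P : G.Walk a b) (Q : G.Walk c d) (hP : P.IsPath) (hQ : Q.IsPath)
    (h : G.Adj b c) (hd : ∀ v ∈ P.support, v ∉ Q.support) :
    (P.append (Walk.cons h Q)).IsPath := by
  rw [Walk.isPath_def, Walk.support_append, Walk.support_cons, List.tail_cons]
  rw [List.nodup_append]
  refine ⟨(Walk.isPath_def _).1 hP, (Walk.isPath_def _).1 hQ, ?_⟩
  intro x hx y hy hxy
  exact hd x hx (hxy ▸ hy)

/-- Odd cycles, as subgraphs. -/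
def IsOddCyc (G : SimpleGraph V) (C : G.Subgraph) : Prop :=
  ∃ (u : V) (c : G.Walk u u), c.IsCycle ∧ Odd c.length ∧ c.toSubgraph = C

/-- The reach set. -/
def Rch (G : SimpleGraph V) (C : G.Subgraph) : Set V :=
  {v | ∃ f r S, Fl G C f r S ∧ v ∈ S}

/-- `R`-disjointness. -/
def RD (G : SimpleGraph V) : Prop :=
  (∃ C, IsOddCyc G C) ∧ (∀ C, IsOddCyc G C → (Rch G C).Nonempty) ∧
    ∀ C C', IsOddCyc G C → IsOddCyc G C' → C ≠ C' → Disjoint (Rch G C) (Rch G C')

lemma RD.verts_sub (h : RD G) {C : G.Subgraph} (hC : IsOddCyc G C) : C.verts ⊆ Rch G C := by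
  intro v hv
  obtain ⟨w, f, r, S, hF, -⟩ := h.2.1 C hC
  exact ⟨f, r, S, hF, hF.verts_sub hv⟩

lemma RD.no_odd (h : RD G) {C : G.Subgraph} (hC : IsOddCyc G C) {x : V} (hx : x ∈ Rch G C)
    (hxC : x ∉ C.verts) {u : V} (c : G.Walk u u) (hc : c.IsCycle) (hodd : Odd c.length) :
    x ∉ c.support := by
  intro hxc
  have hC' : IsOddCyc G c.toSubgraph := ⟨u, c, hc, hodd, rfl⟩
  have hxv : x ∈ c.toSubgraph.verts := (Walk.mem_verts_toSubgraph c).2 hxc
  have hxR := h.verts_sub hC' hxv
  by_cases e : C = c.toSubgraph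
  · exact hxC (e ▸ hxv)
  · exact Set.disjoint_left.1 (h.2.2 _ _ hC hC' e) hx hxR

/-- Cyclic parametrisation of an odd cycle. -/
lemma IsOddCyc.param {C : G.Subgraph} (hC : IsOddCyc G C) :
    ∃ (L : ℕ) (_ : NeZero L) (φ : ZMod L → V), Odd L ∧ 3 ≤ L ∧ Function.Injective φ ∧
      Set.range φ = C.verts ∧ ∀ i w, C.Adj (φ i) w ↔ w = φ (i + 1) ∨ w = φ (i - 1) := by
  obtain ⟨u, p, hp, hodd, rfl⟩ := hC
  have hL : 3 ≤ p.length := hp.three_le_length
  have : NeZero p.length := ⟨by omega⟩
  set φ : ZMod p.length → V := fun i => p.getVert i.val with hφ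
  have hinj : Function.Injective φ := by
    intro i j hij
    have hi := ZMod.val_lt i
    have hj := ZMod.val_lt j
    have := hp.getVert_injOn' (by rw [Set.mem_ofPred_eq]; omega)
      (by rw [Set.mem_ofPred_eq]; omega) hij
    exact ZMod.val_injective _ this
  have hval : ∀ i : ZMod p.length, (i + 1).val = if i.val + 1 = p.length then 0 else i.val + 1 := by
    intro i
    have hlt := ZMod.val_lt i
    have : Fact (1 < p.length) := ⟨by omega⟩
    rw [ZMod.val_add, ZMod.val_one]
    split_ifs with h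
    · rw [h, Nat.mod_self]
    · rw [Nat.mod_eq_of_lt (by omega)]
  have hadj : ∀ i, p.toSubgraph.Adj (φ i) (φ (i + 1)) := by
    intro i
    have hlt := ZMod.val_lt i
    have h1 := p.toSubgraph_adj_getVert hlt
    have h2 : p.getVert (i.val + 1) = φ (i + 1) := by
      simp only [hφ, hval]
      split_ifs with h
      · rw [h]; simp
      · rfl
    rw [← h2]; exact h1
  have hadj' : ∀ i, p.toSubgraph.Adj (φ i) (φ (i - 1)) := by
    intro i
    have := hadj (i - 1)
    rw [sub_add_cancel] at this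
    exact this.symm
  refine ⟨p.length, inferInstance, φ, hodd, hL, hinj, ?_, ?_⟩
  · ext w
    rw [Walk.mem_verts_toSubgraph]
    constructor
    · rintro ⟨i, rfl⟩
      exact p.getVert_mem_support _
    · intro hw
      obtain ⟨j, hj, hjl⟩ := Walk.mem_support_iff_exists_getVert.1 hw
      by_cases hjL : j = p.length
      · refine ⟨0, ?_⟩
        rw [← hj, hjL]; simp [hφ]
      · refine ⟨(j : ZMod p.length), ?_⟩
        simp only [hφ]
        rw [ZMod.val_natCast, Nat.mod_eq_of_lt (by omega), hj]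
  · intro i w
    constructor
    · intro hw
      by_contra hne
      push Not at hne
      have hsub : (({φ (i + 1), φ (i - 1), w} : Finset V) : Set V) ⊆
          p.toSubgraph.neighborSet (φ i) := by
        intro y hy
        simp only [coe_insert, coe_singleton, Set.mem_insert_iff, Set.mem_singleton_iff] at hy
        rcases hy with rfl | rfl | rfl
        · exact hadj i
        · exact hadj' i
        · exact hw
      have hcard := Set.ncard_le_ncard hsub (Set.toFinite _)
      rw [hp.ncard_neighborSet_toSubgraph_eq_two (p.getVert_mem_support _),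
        Set.ncard_coe_finset] at hcard
      have h12 : φ (i + 1) ≠ φ (i - 1) := by
        intro h
        have := hinj h
        have h2 : ((2 : ℕ) : ZMod p.length) = 0 := by
          push_cast
          linear_combination this
        rw [ZMod.natCast_eq_zero_iff] at h2
        have := Nat.le_of_dvd (by norm_num) h2
        omega
      rw [Finset.card_insert_of_notMem, Finset.card_insert_of_notMem, Finset.card_singleton]
        at hcard
      · omega
      · simp only [Finset.mem_singleton]; exact fun h => hne.2 h.symm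
      · simp only [Finset.mem_insert, Finset.mem_singleton]
        push Not
        exact ⟨h12, fun h => hne.1 h.symm⟩
    · rintro (rfl | rfl)
      · exact hadj i
      · exact hadj' i

/-- Blossom data with exposed base. -/
def BD (G : SimpleGraph V) (C : G.Subgraph) (f : V → V) (b : V) : Prop :=
  IsMax G f ∧ b ∈ C.verts ∧ f b = b ∧ ∀ v ∈ C.verts, v ≠ b → C.Adj v (f v)

lemma BD.step {C : G.Subgraph} {f : V → V} {b : V} (h : BD G C f b) {u : V} (hu : C.Adj b u) :
    BD G C (swp f b u) (f u) ∧ ∀ v, v ∉ C.verts → swp f b u v = f v := by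
  obtain ⟨h1, h2, h3, h4⟩ := h
  have hne := hu.ne
  have huf : C.Adj u (f u) := h4 u hu.snd_mem hne.symm
  have hfu : f u ≠ u := huf.ne.symm
  refine ⟨⟨swp_isMax h1 h3 hu.adj_sub hfu, huf.snd_mem, swp_w h1.1 h3 hu.adj_sub hfu, ?_⟩, ?_⟩
  · intro v hv hvw
    by_cases hv1 : v = b
    · rw [hv1, swp_root]; exact hu
    · by_cases hv2 : v = u
      · rw [hv2, swp_u hne.symm]; exact hu.symm
      · rw [swp_other hv1 hv2 hvw]; exact h4 v hv hv1
  · intro v hv
    apply swp_other
    · intro e; exact hv (e ▸ h2)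
    · intro e; exact hv (e ▸ hu.snd_mem)
    · intro e; exact hv (e ▸ huf.snd_mem)

lemma BD.rotate {C : G.Subgraph} (hC : IsOddCyc G C) {f : V → V} {b : V} (h : BD G C f b)
    {x : V} (hx : x ∈ C.verts) :
    ∃ f', BD G C f' x ∧ ∀ v, v ∉ C.verts → f' v = f v := by
  obtain ⟨L, _, φ, hodd, hL, hinj, hr, hadj⟩ := hC.param
  have hb := h.2.1
  rw [← hr] at hb hx
  obtain ⟨i, rfl⟩ := hb
  obtain ⟨j, rfl⟩ := hx
  have key : ∀ k : ℕ, ∃ f', BD G C f' (φ (i + (2 * k : ℕ))) ∧ ∀ v, v ∉ C.verts → f' v = f v := by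
    intro k
    induction k with
    | zero => exact ⟨f, by simpa using h, fun v _ => rfl⟩
    | succ k ih =>
      obtain ⟨f', h1, h2⟩ := ih
      set a := i + ((2 * k : ℕ) : ZMod L) with ha
      have hu : C.Adj (φ a) (φ (a + 1)) := (hadj a _).2 (Or.inl rfl)
      obtain ⟨h3, h4⟩ := h1.step hu
      have h5 : C.Adj (φ (a + 1)) (f' (φ (a + 1))) :=
        h1.2.2.2 _ hu.snd_mem hu.ne.symm
      have h6 : f' (φ (a + 1)) = φ (a + 1 + 1) := by
        rcases (hadj _ _).1 h5 with e | e
        · exact e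
        · exfalso
          rw [add_sub_cancel_right] at e
          have := h1.1.1.1 (φ (a + 1))
          rw [e, h1.2.2.1] at this
          exact hu.ne this
      rw [h6] at h3
      refine ⟨_, ?_, fun v hv => (h4 v hv).trans (h2 v hv)⟩
      have e : i + ((2 * (k + 1) : ℕ) : ZMod L) = a + 1 + 1 := by
        rw [ha]; push_cast; ring
      rw [e]; exact h3
  obtain ⟨m, hm⟩ := hodd
  obtain ⟨f', h1, h2⟩ := key ((m + 1) * (j - i).val)
  refine ⟨f', ?_, h2⟩
  have e : i + ((2 * ((m + 1) * (j - i).val) : ℕ) : ZMod L) = j := by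
    have h3 : ((L : ℕ) : ZMod L) = 0 := ZMod.natCast_self L
    have h4 : ((2 * m + 1 : ℕ) : ZMod L) = 0 := by rw [← hm]; exact h3
    push_cast at h4 ⊢
    rw [ZMod.natCast_val, ZMod.cast_id]
    linear_combination (j - i) * h4
  rwa [e] at h1

/-- Every vertex of a flower is of even type, or of odd type. -/
lemma Fl.types {C : G.Subgraph} (hC : IsOddCyc G C) {f : V → V} {r : V} {S : Set V}
    (h : Fl G C f r S) : ∀ x ∈ S,
      (∃ f1 S1, Fl G C f1 x S1 ∧ S1 ⊆ S ∧ ∀ v, v ∉ S → f1 v = f v) ∨
      ((∃ Q : G.Walk r x, Q.IsPath ∧ Odd Q.length ∧ ∀ v ∈ Q.support, v ∈ S) ∧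
        ∃ f0 r0 S0, Fl G C f0 r0 S0 ∧ G.Adj r0 x ∧ x ∉ S0 ∧ f0 x ≠ x) := by
  induction h with
  | base f b hf hb hfb hCv =>
    intro x hx
    left
    obtain ⟨f', h1, h2⟩ := BD.rotate hC ⟨hf, hb, hfb, hCv⟩ hx
    exact ⟨f', C.verts, Fl.base f' x h1.1 h1.2.1 h1.2.2.1 h1.2.2.2, subset_rfl, h2⟩
  | ext f r S u h hu huS hfu ih =>
    intro x hx
    have hF := Fl.ext f r S u h hu huS hfu
    have hfuS : f u ∉ S := h.closed' huS
    have hsub : S ⊆ insert u (insert (f u) S) :=
      (Set.subset_insert _ _).trans (Set.subset_insert _ _)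
    have hadj : G.Adj u (f u) := h.isMax.1.2 u hfu
    rcases hx with hx | hx | hx
    · right
      subst hx
      refine ⟨⟨Walk.cons hadj.symm Walk.nil, ?_, ?_, ?_⟩, f, r, S, h, hu, huS, hfu⟩
      · rw [Walk.cons_isPath_iff]; simp [hfu]
      · simp
      · intro v hv; simp at hv ⊢; tauto
    · left
      have hx' : x = f u := hx
      rw [hx']
      exact ⟨_, _, hF, subset_rfl, fun _ _ => rfl⟩
    · rcases ih x hx with ⟨f1, S1, h1, h2, h3⟩ | ⟨⟨Q, hQ1, hQ2, hQ3⟩, hO⟩
      · left
        refine ⟨f1, S1, h1, h2.trans hsub, ?_⟩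
        intro v hv
        rw [h3 v (fun h' => hv (hsub h')), swp_other]
        · intro e; exact hv (by rw [e]; exact hsub h.root_mem)
        · intro e; exact hv (by rw [e]; simp)
        · intro e; exact hv (by rw [e]; simp)
      · right
        refine ⟨⟨Walk.cons hadj.symm (Walk.cons hu.symm Q), ?_, ?_, ?_⟩, hO⟩
        · rw [Walk.cons_isPath_iff, Walk.cons_isPath_iff]
          refine ⟨⟨hQ1, fun h' => huS (hQ3 _ h')⟩, ?_⟩
          rw [Walk.support_cons, List.mem_cons]
          rintro (e | e)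
          · exact hfu e
          · exact hfuS (hQ3 _ e)
        · rw [Walk.length_cons, Walk.length_cons]
          obtain ⟨k, hk⟩ := hQ2
          exact ⟨k + 1, by omega⟩
        · intro v hv
          rw [Walk.support_cons, List.mem_cons, Walk.support_cons, List.mem_cons] at hv
          rcases hv with e | e | e
          · rw [e]; simp
          · rw [e]; simp
          · exact hsub (hQ3 v e)

end Pool.Agent.V11124.Flower
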