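import Mathlib
import Pool.Agent.V11124.FlAlt

/-!
Maximum matchings do not leave reach sets.
-/

set_option linter.unusedSectionVars false

namespace Pool.Agent.V11124.Flower

open Finset SimpleGraph

variable {V : Type*} [Fintype V] [DecidableEq V] {G : SimpleGraph V}

lemma alt_adj {f g : V → V} (hf : IsMat G f) (hg : IsMat G g) {y : V} {t : ℕ}
    (h : alt f g y (t + 1) ≠ alt f g y t) : G.Adj (alt f g y t) (alt f g y (t + 1)) := by
  rcases Nat.even_or_odd t with hev | hod
  · rw [alt_succ_even hev] at h ⊢
    exact hf.2 _ h
  · rw [alt_succ_odd hod] at h ⊢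
    exact hg.2 _ h

lemma not_exposed (hRD : RD G) {C : G.Subgraph} (hC : IsOddCyc G C) {f0 : V → V} {r0 x : V}
    {S0 : Set V} (h : Fl G C f0 r0 S0) (hadj : G.Adj r0 x) (hxS : x ∉ S0) (hfx : f0 x ≠ x)
    {g : V → V} (hg : IsMax G g) : g x ≠ x := by
  intro hgx
  have hF := Fl.ext f0 r0 S0 x h hadj hxS hfx
  have hne := hadj.ne
  obtain ⟨f, hfdef⟩ : ∃ f, f = swp f0 r0 x := ⟨_, rfl⟩
  rw [← hfdef] at hF
  have hfm := hF.isMax
  have hfw : f (f0 x) = f0 x := hF.root
  have hfxr : f x = r0 := by rw [hfdef, swp_u hne.symm]
  have hxC : x ∉ C.verts := fun h' => hxS (h.verts_sub h')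
  have hxR : x ∈ Rch G C := ⟨_, _, _, hF, by simp⟩
  have hwx : G.Adj x (f0 x) := h.isMax.1.2 x hfx
  set z := alt f g x with hz
  have hz0 : z 0 = x := rfl
  -- first bounce
  have hex : ∃ n, z (n + 1) = z n := by
    by_contra hno
    push Not at hno
    have hinj : Function.Injective z := by
      intro a b hab
      exact alt_inj_exposed (n := max a b) hfm.1.1 hg.1.1 (fun t _ => hno t) hgx a b
        (le_max_left _ _) (le_max_right _ _) hab
    exact not_injective_infinite_finite z hinj
  obtain ⟨n, hn, hmin⟩ : ∃ n, z (n + 1) = z n ∧ ∀ t < n, z (t + 1) ≠ z t :=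
    ⟨Nat.find hex, Nat.find_spec hex, fun t ht => Nat.find_min hex ht⟩
  have hinj : ∀ a b, a ≤ n → b ≤ n → z a = z b → a = b :=
    alt_inj_exposed hfm.1.1 hg.1.1 hmin hgx
  have hza : ∀ t < n, G.Adj (z t) (z (t + 1)) := fun t ht => alt_adj hfm.1 hg.1 (hmin t ht)
  rcases Nat.even_or_odd n with hev | hod
  · have hfn : f (z n) = z n := by
      rw [← alt_succ_even (f := f) (g := g) hev]; exact hn
    obtain ⟨i, hi⟩ := hev
    have hn0 : n ≠ 0 := by
      intro h0
      rw [h0, hz0, hfxr] at hfn
      exact hne hfn
    by_cases hzw : z n = f0 x
    · -- odd cycle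
      obtain ⟨p, hp1, hp2, hp3⟩ := exists_walk z n (fun t ht => (hza t ht).symm)
      have hadj2 : G.Adj (z 0) (z n) := by rw [hz0, hzw]; exact hwx
      have hcyc := close_cycle p (hp3 hinj) (by omega) hadj2
      refine hRD.no_odd hC hxR hxC _ hcyc ?_ ?_
      · rw [Walk.length_cons, hp1]; exact ⟨i, by omega⟩
      · rw [Walk.support_cons, List.mem_cons]; left; rfl
    · obtain ⟨h', h1, h2, h3⟩ := shift i f (fun j => z (n - j)) hfm (by simpa using hfn)
        (by
          intro j hj
          have := (hza (n - (2 * j + 1)) (by omega)).symm
          have e : n - (2 * j + 1) + 1 = n - 2 * j := by omega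
          rwa [e] at this)
        (by
          intro j hj
          show f (z (n - (2 * j + 1))) = z (n - (2 * j + 2))
          have e : n - (2 * j + 1) = n - (2 * j + 2) + 1 := by omega
          rw [e]
          exact alt_back_even hfm.1.1 ⟨i - j - 1, by omega⟩)
        (by
          intro a b ha hb hab
          have := hinj (n - a) (n - b) (by omega) (by omega) hab
          omega)
      have e : n - 2 * i = 0 := by omega
      have h2' : h' x = x := by
        have := h2
        simp only [e, hz0] at this
        exact this
      have h3' : h' (f0 x) = f0 x := by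
        rw [h3 _ ?_, hfw]
        intro a ha hcon
        have hcon' : z (n - a) = f0 x := hcon
        by_cases ha0 : a = 0
        · rw [ha0, Nat.sub_zero] at hcon'; exact hzw hcon'
        · have hlt : n - a < n := by omega
          rcases Nat.even_or_odd (n - a) with hev | hod
          · have := hmin (n - a) hlt
            rw [hz, alt_succ_even hev, ← hz, hcon', hfw] at this
            exact this rfl
          · obtain ⟨k, hk⟩ := hod
            have e2 : n - a = 2 * k + 1 := hk
            rw [e2] at hcon'
            have h5 : f (z (2 * k + 1)) = z (2 * k) :=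
              alt_back_even hfm.1.1 ⟨k, by omega⟩
            rw [hcon', hfw] at h5
            have := hinj (2 * k) (2 * k + 1) (by omega) (by omega) (by rw [← h5, hcon'])
            omega
      exact no_aug h1 h2' h3' hwx
  · have hgn : g (z n) = z n := by
      rw [← alt_succ_odd (f := f) (g := g) hod]; exact hn
    obtain ⟨i, hi⟩ := hod
    obtain ⟨h', h1, h2, h3⟩ := shift i g (fun j => z (n - j)) hg (by simpa using hgn)
      (by
        intro j hj
        have := (hza (n - (2 * j + 1)) (by omega)).symm
        have e : n - (2 * j + 1) + 1 = n - 2 * j := by omega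
        rwa [e] at this)
      (by
        intro j hj
        show g (z (n - (2 * j + 1))) = z (n - (2 * j + 2))
        have e : n - (2 * j + 1) = n - (2 * j + 2) + 1 := by omega
        rw [e]
        exact alt_back_odd hg.1.1 ⟨i - j - 1, by omega⟩)
      (by
        intro a b ha hb hab
        have := hinj (n - a) (n - b) (by omega) (by omega) hab
        omega)
    have e : n - 2 * i = 1 := by omega
    simp only [e] at h2
    have h3' : h' x = x := by
      rw [h3 x ?_, hgx]
      intro a ha hcon
      have := hinj (n - a) 0 (by omega) (by omega) hcon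
      omega
    exact no_aug h1 h3' h2 (hz0 ▸ hza 0 (by omega))

/-- Maximum matchings do not leave reach sets. -/
theorem K2 (hRD : RD G) {C : G.Subgraph} (hC : IsOddCyc G C) {g : V → V} (hg : IsMax G g)
    {x : V} (hx : x ∈ Rch G C) : g x ∈ Rch G C := by
  classical
  by_cases hgx : g x = x
  · rwa [hgx]
  obtain ⟨f', r', S', hF', hxS'⟩ := hx
  have hxy : G.Adj x (g x) := hg.1.2 x hgx
  rcases hF'.types hC x hxS' with ⟨f1, S1, h1, -, -⟩ | ⟨-, f0, r0, S0, h, hadj, hxS, hfx⟩
  · by_cases hy : g x ∈ S1
    · exact ⟨_, _, _, h1, hy⟩
    · by_cases hfy : f1 (g x) = g x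
      · exact absurd (no_aug h1.isMax h1.root hfy hxy) not_false
      · exact ⟨_, _, _, Fl.ext _ _ _ _ h1 hxy hy hfy, by simp⟩
  · have hF := Fl.ext f0 r0 S0 x h hadj hxS hfx
    have hne := hadj.ne
    obtain ⟨f, hfdef⟩ : ∃ f, f = swp f0 r0 x := ⟨_, rfl⟩
    obtain ⟨S, hSdef⟩ : ∃ S, S = insert x (insert (f0 x) S0) := ⟨_, rfl⟩
    rw [← hfdef, ← hSdef] at hF
    obtain ⟨y, hydef⟩ : ∃ y, y = g x := ⟨_, rfl⟩
    rw [← hydef] at hgx hxy ⊢
    have hgy : g y = x := by rw [hydef, hg.1.1]
    by_cases hyS : y ∈ S
    · exact ⟨_, _, _, hF, hyS⟩
    have hfm := hF.isMax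
    have hfw : f (f0 x) = f0 x := hF.root
    have hxS1 : x ∈ S := by rw [hSdef]; simp
    have hwS1 : f0 x ∈ S := by rw [hSdef]; simp
    have hS0S : S0 ⊆ S := by
      rw [hSdef]; exact (Set.subset_insert _ _).trans (Set.subset_insert _ _)
    have hr0S : r0 ∈ S := hS0S h.root_mem
    have hxC : x ∉ C.verts := fun h' => hxS (h.verts_sub h')
    have hxR : x ∈ Rch G C := ⟨_, _, _, hF, hxS1⟩
    have hwS0 : f0 x ∉ S0 := h.closed' hxS
    have hff0 : ∀ v, v ∉ S → f v = f0 v := by
      intro v hv
      rw [hfdef]
      apply swp_other
      · intro e; exact hv (e ▸ hr0S)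
      · intro e; exact hv (e ▸ hxS1)
      · intro e; exact hv (e ▸ hwS1)
    set z := alt f g y with hz
    have hz0 : z 0 = y := rfl
    have hex : ∃ n, z (n + 1) = z n ∨ z n ∈ S := by
      by_contra hno
      push Not at hno
      have hinj : Function.Injective z := by
        intro a b hab
        refine alt_inj (n := max a b) hfm.1.1 hg.1.1 (fun t _ => (hno t).1) ?_ a b
          (le_max_left _ _) (le_max_right _ _) hab
        intro t _ _ e
        rw [hgy] at e
        exact (hno t).2 (by rw [hz, e]; exact hxS1)
      exact not_injective_infinite_finite z hinj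
    obtain ⟨n, hn, hmin⟩ : ∃ n, (z (n + 1) = z n ∨ z n ∈ S) ∧
        ∀ t < n, z (t + 1) ≠ z t ∧ z t ∉ S :=
      ⟨Nat.find hex, Nat.find_spec hex, fun t ht => by
        have := Nat.find_min hex ht
        push Not at this
        exact this⟩
    have hoddS : Odd n → z n ∉ S := by
      intro hod
      obtain ⟨k, hk⟩ := hod
      have e : n = 2 * k + 1 := hk
      rw [e, hz, alt_succ_even ⟨k, by omega⟩]
      exact hF.closed' (hmin (2 * k) (by omega)).2
    have hzx : ∀ t, Odd t → t ≤ n → z t ≠ g y := by
      intro t ht htn e
      rw [hgy] at e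
      by_cases htn' : t = n
      · exact hoddS (htn' ▸ ht) (by rw [← htn', e]; exact hxS1)
      · exact (hmin t (by omega)).2 (by rw [e]; exact hxS1)
    have hinj : ∀ a b, a ≤ n → b ≤ n → z a = z b → a = b :=
      alt_inj hfm.1.1 hg.1.1 (fun t ht => (hmin t ht).1) hzx
    have hza : ∀ t < n, G.Adj (z t) (z (t + 1)) :=
      fun t ht => alt_adj hfm.1 hg.1 (hmin t ht).1
    by_cases hnS : z n ∈ S
    · -- first hit
      have hev : Even n := by
        rcases Nat.even_or_odd n with h' | h'
        · exact h'
        · exact absurd hnS (hoddS h')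
      obtain ⟨i, hi⟩ := hev
      have hn0 : n ≠ 0 := by
        intro h0; rw [h0] at hnS; exact hyS hnS
      -- extending from an even type hit
      have hext : ∀ f1 S1, Fl G C f1 (z n) S1 → S1 ⊆ S → (∀ v, v ∉ S → f1 v = f v) →
          y ∈ Rch G C := by
        intro f1 S1 hF1 hS1 hf1
        obtain ⟨h', S', hF''⟩ := Fl.extend i f1 (fun j => z (n - j)) S1 (by simpa using hF1)
          (by
            intro j hj
            have := (hza (n - (2 * j + 1)) (by omega)).symm
            have e : n - (2 * j + 1) + 1 = n - 2 * j := by omega
            rwa [e] at this)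
          (by
            intro j hj
            show f1 (z (n - (2 * j + 1))) = z (n - (2 * j + 2))
            rw [hf1 _ (hmin _ (by omega)).2]
            have e : n - (2 * j + 1) = n - (2 * j + 2) + 1 := by omega
            rw [e]
            exact alt_back_even hfm.1.1 ⟨i - j - 1, by omega⟩)
          (by
            intro a b ha hb hab
            have := hinj (n - a) (n - b) (by omega) (by omega) hab
            omega)
          (by
            intro a ha ha2 hmem
            exact (hmin (n - a) (by omega)).2 (hS1 hmem))
        have e : n - 2 * i = 0 := by omega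
        simp only [e, hz0] at hF''
        exact ⟨_, _, _, hF'', hF''.root_mem⟩
      have hcases : z n = x ∨ z n = f0 x ∨ z n ∈ S0 := by
        rw [hSdef] at hnS; exact hnS
      rcases hcases with hc | hc | hc
      · exfalso
        have h1 : g (z (n - 1 + 1)) = z (n - 1) := alt_back_odd hg.1.1 ⟨i - 1, by omega⟩
        rw [Nat.sub_add_cancel (by omega), hc, ← hydef, ← hz0] at h1
        have := hinj 0 (n - 1) (by omega) (by omega) h1
        omega
      · exact hext f S (hc ▸ hF) subset_rfl (fun _ _ => rfl)
      · rcases h.types hC (z n) hc with ⟨f1, S1, h1, h2, h3⟩ | ⟨⟨Q, hQ1, hQ2, hQ3⟩, -⟩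
        · exact hext f1 S1 h1 (h2.trans hS0S)
            (fun v hv => by rw [h3 v (fun h' => hv (hS0S h')), hff0 v hv])
        · exfalso
          obtain ⟨m, rfl⟩ : ∃ m, n = m + 1 := ⟨n - 1, by omega⟩
          obtain ⟨W, hW1, hW2, hW3⟩ := exists_walk z m (fun t ht => (hza t (by omega)).symm)
          have hWp : W.IsPath := hW3 (fun a b ha hb => hinj a b (by omega) (by omega))
          have hP := join_path Q W hQ1 hWp (hza m (by omega)).symm (by
            intro v hv hv2
            obtain ⟨t, ht, e⟩ := (hW2 v).1 hv2
            exact (hmin t (by omega)).2 (by rw [e]; exact hS0S (hQ3 v hv)))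
          have hP2 : (Walk.cons hadj.symm (Q.append (Walk.cons (hza m (by omega)).symm W))).IsPath
              := by
            rw [Walk.cons_isPath_iff]
            refine ⟨hP, ?_⟩
            rw [Walk.mem_support_append_iff, Walk.support_cons, List.mem_cons]
            rintro (e | e | e)
            · exact hxS (hQ3 _ e)
            · exact hxS (by rw [e]; exact hc)
            · obtain ⟨t, ht, e2⟩ := (hW2 x).1 e
              exact (hmin t (by omega)).2 (by rw [e2]; exact hxS1)
          have hcyc := close_cycle _ hP2 (by
            rw [Walk.length_cons, Walk.length_append, Walk.length_cons]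
            omega) (show G.Adj (z 0) x from hxy.symm)
          refine hRD.no_odd hC hxR hxC _ hcyc ?_ ?_
          · rw [Walk.length_cons, Walk.length_cons, Walk.length_append, Walk.length_cons, hW1]
            obtain ⟨k, hk⟩ := hQ2
            exact ⟨k + i + 1, by omega⟩
          · rw [Walk.support_cons, List.mem_cons, Walk.support_cons, List.mem_cons]
            right; left; rfl
    · have hbn : z (n + 1) = z n := by
        rcases hn with h' | h'
        · exact h'
        · exact absurd h' hnS
      rcases Nat.even_or_odd n with hev | hod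
      · have hfn : f (z n) = z n := by
          rw [← alt_succ_even (f := f) (g := g) hev]; exact hbn
        obtain ⟨i, hi⟩ := hev
        have hzS : ∀ t ≤ n, z t ∉ S := by
          intro t ht
          by_cases e : t = n
          · rw [e]; exact hnS
          · exact (hmin t (by omega)).2
        obtain ⟨h', h1, h2, h3⟩ := shift i f0 (fun j => z (n - j)) h.isMax
          (by
            show f0 (z (n - 0)) = z (n - 0)
            rw [Nat.sub_zero, ← hff0 _ hnS]; exact hfn)
          (by
            intro j hj
            have := (hza (n - (2 * j + 1)) (by omega)).symm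
            have e : n - (2 * j + 1) + 1 = n - 2 * j := by omega
            rwa [e] at this)
          (by
            intro j hj
            show f0 (z (n - (2 * j + 1))) = z (n - (2 * j + 2))
            rw [← hff0 _ (hzS _ (by omega))]
            have e : n - (2 * j + 1) = n - (2 * j + 2) + 1 := by omega
            rw [e]
            exact alt_back_even hfm.1.1 ⟨i - j - 1, by omega⟩)
          (by
            intro a b ha hb hab
            have := hinj (n - a) (n - b) (by omega) (by omega) hab
            omega)
        have e : n - 2 * i = 0 := by omega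
        simp only [e, hz0] at h2
        have h3' : ∀ v ∈ S, h' v = f0 v := by
          intro v hv
          apply h3
          intro a ha hcon
          exact hzS (n - a) (by omega) (by rw [hcon]; exact hv)
        have hx' : h' x = f0 x := h3' x hxS1
        have hmax3 := swp_isMax h1 h2 hxy.symm (by rw [hx']; exact hfx)
        have hF3 := h.congr _ hmax3 (by
          intro v hv
          rw [swp_other, h3' v (hS0S hv)]
          · intro e; exact hyS (e ▸ hS0S hv)
          · intro e; exact hxS (e ▸ hv)
          · rw [hx']; intro e; exact hwS0 (e ▸ hv))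
        have hsx : swp h' y x x = y := swp_u hxy.ne
        have hF4 := Fl.ext _ _ _ _ hF3 hadj hxS (by rw [hsx]; exact hxy.ne.symm)
        rw [hsx] at hF4
        exact ⟨_, _, _, hF4, by simp⟩
      · exfalso
        have hgn : g (z n) = z n := by
          rw [← alt_succ_odd (f := f) (g := g) hod]; exact hbn
        obtain ⟨i, hi⟩ := hod
        let s : ℕ → V := fun j => if j ≤ n then z (n - j) else x
        have hs1 : ∀ j, j ≤ n → s j = z (n - j) := fun j hj => by simp [s, hj]
        have hs2 : s (n + 1) = x := by simp [s]
        have hzS : ∀ t ≤ n, z t ∉ S := by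
          intro t ht
          by_cases e : t = n
          · rw [e]; exact hnS
          · exact (hmin t (by omega)).2
        obtain ⟨h', h1, h2, -⟩ := shift (i + 1) g s hg
          (by rw [hs1 0 (by omega), Nat.sub_zero]; exact hgn)
          (by
            intro j hj
            rw [hs1 _ (by omega), hs1 _ (by omega)]
            by_cases hlast : 2 * j + 1 = n
            · have e1 : n - 2 * j = 0 + 1 := by omega
              have e2 : n - (2 * j + 1) = 0 := by omega
              rw [e1, e2]
              exact (hza 0 (by omega)).symm
            · have := (hza (n - (2 * j + 1)) (by omega)).symm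
              have e : n - (2 * j + 1) + 1 = n - 2 * j := by omega
              rwa [e] at this)
          (by
            intro j hj
            by_cases hlast : 2 * j + 1 = n
            · have e : 2 * j + 2 = n + 1 := by omega
              rw [e, hs2, hs1 _ (by omega), hlast, Nat.sub_self, hz0, hgy]
            · rw [hs1 _ (by omega), hs1 _ (by omega)]
              have e : n - (2 * j + 1) = n - (2 * j + 2) + 1 := by omega
              rw [e]
              exact alt_back_odd hg.1.1 ⟨i - j - 1, by omega⟩)
          (by
            intro a b ha hb hab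
            by_cases ha' : a ≤ n
            · by_cases hb' : b ≤ n
              · rw [hs1 a ha', hs1 b hb'] at hab
                have := hinj (n - a) (n - b) (by omega) (by omega) hab
                omega
              · have e : b = n + 1 := by omega
                rw [e, hs2, hs1 a ha'] at hab
                exact absurd (by rw [hab]; exact hxS1) (hzS (n - a) (by omega))
            · by_cases hb' : b ≤ n
              · have e : a = n + 1 := by omega
                rw [e, hs2, hs1 b hb'] at hab
                exact absurd (by rw [← hab]; exact hxS1) (hzS (n - b) (by omega))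
              · omega)
        have e : 2 * (i + 1) = n + 1 := by omega
        rw [e, hs2] at h2
        exact not_exposed hRD hC h hadj hxS hfx h1 h2

end Pool.Agent.V11124.Flower
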