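import Mathlib
import Pool.Agent.V11124.FlK2

/-!
The deficiency bound, the matching of a permutation, and the determinant.
-/

set_option linter.unusedSectionVars false

namespace Pool.Agent.V11124.Flower

open Finset SimpleGraph

variable {V : Type*} [Fintype V] [DecidableEq V] {G : SimpleGraph V}

lemma exists_exposed (hRD : RD G) {C : G.Subgraph} (hC : IsOddCyc G C) {g : V → V}
    (hg : IsMax G g) : ∃ v ∈ Rch G C, g v = v := by
  classical
  by_contra hno
  push Not at hno
  obtain ⟨w, f, r, S, hF, -⟩ := hRD.2.1 C hC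
  have hfR : ∀ v, v ∈ Rch G C → f v ∈ Rch G C := fun v hv => K2 hRD hC hF.isMax hv
  have hgR : ∀ v, v ∈ Rch G C → g v ∈ Rch G C := fun v hv => K2 hRD hC hg hv
  have hfR' : ∀ v, v ∉ Rch G C → f v ∉ Rch G C := fun v hv h => hv (by
    have := hfR _ h; rwa [hF.isMax.1.1] at this)
  let N : V → V := fun v => if v ∈ Rch G C then g v else f v
  have hN1 : ∀ v, v ∈ Rch G C → N v = g v := fun v hv => by simp [N, hv]
  have hN2 : ∀ v, v ∉ Rch G C → N v = f v := fun v hv => by simp [N, hv]
  have hNm : IsMat G N := by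
    constructor
    · intro v
      by_cases hv : v ∈ Rch G C
      · rw [hN1 v hv, hN1 _ (hgR v hv), hg.1.1]
      · rw [hN2 v hv, hN2 _ (hfR' v hv), hF.isMax.1.1]
    · intro v hv'
      by_cases hv : v ∈ Rch G C
      · rw [hN1 v hv]; exact hg.1.2 v (hno v hv)
      · rw [hN2 v hv] at hv' ⊢; exact hF.isMax.1.2 v hv'
  have h1 := hF.isMax.2 N hNm
  have hrR : r ∈ Rch G C := ⟨_, _, _, hF, hF.root_mem⟩
  have h2 : expo N ⊂ expo f := by
    refine Finset.ssubset_iff_subset_ne.2 ⟨?_, ?_⟩
    · intro v hv
      simp only [expo, mem_filter, mem_univ, true_and] at hv ⊢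
      by_cases hvR : v ∈ Rch G C
      · rw [hN1 v hvR] at hv; exact absurd hv (hno v hvR)
      · rwa [hN2 v hvR] at hv
    · intro h
      have h3 : r ∈ expo N := by rw [h]; simp [expo, hF.root]
      simp only [expo, mem_filter, mem_univ, true_and] at h3
      rw [hN1 r hrR] at h3
      exact hno r hrR h3
  have := Finset.card_lt_card h2
  omega

/-- The odd cycles. -/
abbrev OC (G : SimpleGraph V) := {C : G.Subgraph // IsOddCyc G C}

noncomputable instance : Fintype (OC G) := by
  classical
  exact Fintype.ofFinite _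

lemma RD.unique (hRD : RD G) {C C' : OC G} {v : V} (h : v ∈ Rch G C.1) (h' : v ∈ Rch G C'.1) :
    C = C' := by
  by_contra hne
  exact Set.disjoint_left.1 (hRD.2.2 _ _ C.2 C'.2 (fun e => hne (Subtype.ext e))) h h'

lemma card_OC_le (hRD : RD G) {g : V → V} (hg : IsMax G g) :
    Fintype.card (OC G) ≤ (expo g).card := by
  classical
  choose e he1 he2 using fun C : OC G => exists_exposed hRD C.2 hg
  rw [← Finset.card_univ]
  refine Finset.card_le_card_of_injOn e ?_ ?_
  · intro C _
    simp [expo, he2 C]
  · intro C _ C' _ h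
    exact hRD.unique (he1 C) (h ▸ he1 C')

lemma RD.exists_max (hRD : RD G) : ∃ g, IsMax G g := by
  obtain ⟨C, hC⟩ := hRD.1
  obtain ⟨w, f, r, S, hF, -⟩ := hRD.2.1 C hC
  exact ⟨f, hF.isMax⟩

section perm

variable (σ : Equiv.Perm V) (hσ : ∀ v, G.Adj v (σ v))

include hσ

lemma orbit_cycle (v : V) (hodd : Odd (Function.minimalPeriod σ v)) :
    ∃ C : OC G, ∀ u, u ∈ C.1.verts ↔ ∃ t : ℕ, σ^[t] v = u := by
  set L := Function.minimalPeriod σ v with hL
  have hL0 : 0 < L := hodd.pos
  have hL1 : L ≠ 1 := by
    intro h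
    have := Function.iterate_minimalPeriod (f := σ) (x := v)
    rw [← hL, h] at this
    have h2 : σ v = v := this
    exact (hσ v).ne h2.symm
  have hL3 : 3 ≤ L := by obtain ⟨k, hk⟩ := hodd; omega
  have hadj : ∀ t, G.Adj (σ^[t] v) (σ^[t + 1] v) := by
    intro t
    rw [Function.iterate_succ_apply']; exact hσ _
  obtain ⟨p, hp1, hp2, hp3⟩ := exists_walk (fun t => σ^[t] v) (L - 1) (fun t _ => (hadj t).symm)
  have hinj := Function.iterate_injOn_Iio_minimalPeriod (f := σ) (x := v)
  have hpp : p.IsPath := hp3 (fun a b ha hb hab =>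
    hinj (by rw [Set.mem_Iio, ← hL]; omega) (by rw [Set.mem_Iio, ← hL]; omega) hab)
  have hclose : G.Adj (σ^[0] v) (σ^[L - 1] v) := by
    have h1 := (hadj (L - 1)).symm
    have h2 : σ^[L - 1 + 1] v = v := by
      rw [Nat.sub_add_cancel (by omega), hL]; exact Function.iterate_minimalPeriod
    rw [h2] at h1
    exact h1
  have hcyc := close_cycle p hpp (by omega) hclose
  refine ⟨⟨(Walk.cons hclose p).toSubgraph, _, _, hcyc, ?_, rfl⟩, ?_⟩
  · rw [Walk.length_cons, hp1, Nat.sub_add_cancel (by omega)]; exact hodd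
  · intro u
    show u ∈ (Walk.cons hclose p).toSubgraph.verts ↔ _
    rw [Walk.mem_verts_toSubgraph, Walk.support_cons, List.mem_cons, hp2]
    constructor
    · rintro (e | ⟨t, -, e⟩)
      · exact ⟨0, e.symm⟩
      · exact ⟨t, e⟩
    · rintro ⟨t, e⟩
      right
      refine ⟨t % L, ?_, ?_⟩
      · have := Nat.mod_lt t hL0; omega
      · rw [← e]; exact Function.iterate_mod_minimalPeriod_eq

lemma exists_matching (hRD : RD G) (v0 : V) : ∃ f, IsMax G f ∧ f v0 = σ v0 := by
  classical
  -- representatives of the orbits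
  obtain ⟨rep, hrep1, hrep2, hrep0⟩ : ∃ rep : V → V, (∀ v, ∃ t : ℕ, σ^[t] (rep v) = v) ∧
      (∀ u v, σ.SameCycle u v → rep u = rep v) ∧ rep v0 = v0 := by
    let q : V → V := fun v => (Quotient.mk (Equiv.Perm.SameCycle.setoid σ) v).out
    have hq1 : ∀ v, σ.SameCycle (q v) v := fun v => Quotient.mk_out (s := Equiv.Perm.SameCycle.setoid σ) v
    have hq2 : ∀ u v, σ.SameCycle u v → q u = q v := by
      intro u v huv
      have : Quotient.mk (Equiv.Perm.SameCycle.setoid σ) u
        = Quotient.mk (Equiv.Perm.SameCycle.setoid σ) v := Quotient.sound huv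
      simp only [q, this]
    have hnat : ∀ u v, σ.SameCycle u v → ∃ t : ℕ, σ^[t] u = v := by
      intro u v huv
      obtain ⟨t, -, ht⟩ := huv.exists_pow_eq'
      exact ⟨t, by rw [← ht, Equiv.Perm.iterate_eq_pow]⟩
    refine ⟨fun v => if σ.SameCycle v0 v then v0 else q v, ?_, ?_, ?_⟩
    · intro v
      apply hnat
      by_cases h : σ.SameCycle v0 v
      · simp only [h, if_true]
      · simp only [h, if_false]; exact hq1 v
    · intro u v huv
      by_cases h : σ.SameCycle v0 u
      · have h' : σ.SameCycle v0 v := h.trans huv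
        simp only [h, h', if_true]
      · have h' : ¬ σ.SameCycle v0 v := fun h' => h (h'.trans huv.symm)
        simp only [h, h', if_false]; exact hq2 u v huv
    · exact if_pos (Equiv.Perm.SameCycle.refl σ v0)
  let L : V → ℕ := fun v => Function.minimalPeriod σ (rep v)
  have hper : ∀ v, 0 < L v := by
    intro v
    have : rep v ∈ Function.periodicPts σ := by
      apply Function.Injective.mem_periodicPts σ.injective
    exact Function.minimalPeriod_pos_of_mem_periodicPts this
  let pos : V → ℕ := fun v => (Nat.find (hrep1 v)) % L v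
  have hpos1 : ∀ v, σ^[pos v] (rep v) = v := by
    intro v
    have h1 : σ^[pos v] (rep v) = σ^[Nat.find (hrep1 v)] (rep v) :=
      Function.iterate_mod_minimalPeriod_eq
    rw [h1]; exact Nat.find_spec (hrep1 v)
  have hpos2 : ∀ v, pos v < L v := fun v => Nat.mod_lt _ (hper v)
  have huniq : ∀ v t, t < L v → σ^[t] (rep v) = v → t = pos v := by
    intro v t ht h
    exact Function.iterate_injOn_Iio_minimalPeriod (f := σ) (x := rep v) ht (hpos2 v)
      (h.trans (hpos1 v).symm)
  have hrepσ : ∀ v, rep (σ v) = rep v := fun v => (hrep2 v (σ v) ⟨1, by simp⟩).symm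
  have hLσ : ∀ v, L (σ v) = L v := fun v => by simp only [L, hrepσ]
  have hposσ : ∀ v, pos v + 1 < L v → pos (σ v) = pos v + 1 := by
    intro v h
    symm
    apply huniq
    · rw [hLσ]; exact h
    · rw [hrepσ, Function.iterate_succ_apply', hpos1]
  have hposσ' : ∀ v, pos v + 1 = L v → pos (σ v) = 0 := by
    intro v h
    symm
    apply huniq
    · exact hper _
    · have h1 : σ^[pos v + 1] (rep v) = σ v := by rw [Function.iterate_succ_apply', hpos1]
      rw [h] at h1
      have h2 : σ^[L v] (rep v) = rep v := Function.iterate_minimalPeriod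
      rw [h2] at h1
      rw [hrepσ, h1]; rfl
  let f : V → V := fun v => if Even (pos v) then (if pos v + 1 < L v then σ v else v)
    else σ.symm v
  have hf1 : ∀ v, Even (pos v) → pos v + 1 < L v → f v = σ v := fun v h1 h2 => by
    simp [f, h1, h2]
  have hf2 : ∀ v, Even (pos v) → ¬ pos v + 1 < L v → f v = v := fun v h1 h2 => by
    simp [f, h1, h2]
  have hf3 : ∀ v, ¬ Even (pos v) → f v = σ.symm v := fun v h1 => by simp [f, h1]
  have hback : ∀ v, ¬ Even (pos v) → Even (pos (σ.symm v)) ∧ pos (σ.symm v) + 1 < L (σ.symm v) := by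
    intro v hv
    obtain ⟨u, rfl⟩ := σ.surjective v
    rw [Equiv.symm_apply_apply]
    have hlt : pos u + 1 < L u := by
      by_contra hcon
      have := hpos2 u
      have h1 := hposσ' u (by omega)
      rw [h1] at hv
      exact hv ⟨0, rfl⟩
    rw [hposσ u hlt, Nat.even_add_one, not_not] at hv
    exact ⟨hv, hlt⟩
  have hfm : IsMat G f := by
    constructor
    · intro v
      by_cases h1 : Even (pos v)
      · by_cases h2 : pos v + 1 < L v
        · rw [hf1 v h1 h2, hf3, Equiv.symm_apply_apply]
          rw [hposσ v h2, Nat.even_add_one, not_not]; exact h1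
        · rw [hf2 v h1 h2, hf2 v h1 h2]
      · obtain ⟨h2, h3⟩ := hback v h1
        rw [hf3 v h1, hf1 _ h2 h3, Equiv.apply_symm_apply]
    · intro v hv
      by_cases h1 : Even (pos v)
      · by_cases h2 : pos v + 1 < L v
        · rw [hf1 v h1 h2]; exact hσ v
        · exact absurd (hf2 v h1 h2) hv
      · rw [hf3 v h1]
        have := (hσ (σ.symm v)).symm
        rwa [Equiv.apply_symm_apply] at this
  have hexpo : ∀ v, f v = v → Even (pos v) ∧ pos v + 1 = L v := by
    intro v hv
    by_cases h1 : Even (pos v)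
    · refine ⟨h1, ?_⟩
      by_cases h2 : pos v + 1 < L v
      · rw [hf1 v h1 h2] at hv
        exact absurd hv.symm (hσ v).ne
      · have := hpos2 v; omega
    · rw [hf3 v h1] at hv
      have := (hσ (σ.symm v)).ne
      rw [Equiv.apply_symm_apply] at this
      exact absurd hv this
  have hcard : (expo f).card ≤ Fintype.card (OC G) := by
    have hc : ∀ v : V, ∃ C : OC G, f v = v → ∀ u, u ∈ C.1.verts ↔ ∃ t : ℕ, σ^[t] (rep v) = u := by
      intro v
      by_cases hv : f v = v
      · obtain ⟨h1, h2⟩ := hexpo v hv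
        obtain ⟨C, hC⟩ := orbit_cycle σ hσ (rep v) (by
          have : Odd (L v) := by rw [← h2]; exact h1.add_one
          exact this)
        exact ⟨C, fun _ => hC⟩
      · obtain ⟨C, hC⟩ := hRD.1
        exact ⟨⟨C, hC⟩, fun h => absurd h hv⟩
    choose c hc using hc
    rw [← Finset.card_univ]
    refine Finset.card_le_card_of_injOn c (fun _ _ => Finset.mem_coe.2 (Finset.mem_univ _)) ?_
    intro v hv w hw hvw
    simp only [expo, coe_filter, mem_univ, true_and, Set.mem_ofPred_eq] at hv hw
    have hwv : w ∈ (c v).1.verts := by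
      rw [hvw]; exact (hc w hw w).2 ⟨pos w, hpos1 w⟩
    obtain ⟨t, ht⟩ := (hc v hv w).1 hwv
    have hsame : σ.SameCycle v w := by
      have h1 : σ.SameCycle (rep v) v := ⟨pos v, by
        rw [zpow_natCast, ← Equiv.Perm.iterate_eq_pow]; exact hpos1 v⟩
      have h2 : σ.SameCycle (rep v) w := ⟨t, by
        rw [zpow_natCast, ← Equiv.Perm.iterate_eq_pow]; exact ht⟩
      exact h1.symm.trans h2
    have hr := hrep2 v w hsame
    have e1 := (hexpo v hv).2
    have e2 := (hexpo w hw).2
    have eL : L v = L w := by simp only [L, hr]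
    have ep : pos v = pos w := by omega
    rw [← hpos1 v, ← hpos1 w, ep, hr]
  obtain ⟨g, hg⟩ := hRD.exists_max
  have hmax : IsMax G f := ⟨hfm, fun h hh => hcard.trans ((card_OC_le hRD hg).trans (hg.2 h hh))⟩
  refine ⟨f, hmax, ?_⟩
  have hp0 : pos v0 = 0 := by
    symm
    apply huniq _ _ (hper _)
    rw [hrep0]; rfl
  apply hf1
  · rw [hp0]; exact ⟨0, rfl⟩
  · rw [hp0]
    have h1 : L v0 ≠ 1 := by
      intro h
      have h2 : σ^[L v0] (rep v0) = rep v0 := Function.iterate_minimalPeriod
      rw [h, hrep0] at h2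
      exact (hσ v0).ne h2.symm
    have := hper v0
    omega

lemma noncross (hRD : RD G) {C : G.Subgraph} (hC : IsOddCyc G C) {v : V} (hv : v ∈ Rch G C) :
    σ v ∈ Rch G C := by
  obtain ⟨f, hf, hfv⟩ := exists_matching σ hσ hRD v
  rw [← hfv]
  exact K2 hRD hC hf hv

end perm

/-- The label of a vertex. -/
noncomputable def lab (G : SimpleGraph V) (v : V) : Option (OC G) := by
  classical
  exact if h : ∃ C : OC G, v ∈ Rch G C.1 then some h.choose else none

lemma lab_some (hRD : RD G) (v : V) (C : OC G) : lab G v = some C ↔ v ∈ Rch G C.1 := by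
  unfold lab
  constructor
  · intro h
    split_ifs at h with h1
    · have := Option.some.inj h
      rw [← this]; exact h1.choose_spec
  · intro h
    have h1 : ∃ C : OC G, v ∈ Rch G C.1 := ⟨C, h⟩
    rw [dif_pos h1]
    congr 1
    exact hRD.unique h1.choose_spec h

lemma lab_none (v : V) : lab G v = none ↔ ∀ C, IsOddCyc G C → v ∉ Rch G C := by
  unfold lab
  split_ifs with h
  · constructor
    · intro h'; simp at h'
    · intro h'
      obtain ⟨C, hC⟩ := h
      exact absurd hC (h' C.1 C.2)
  · constructor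
    · intro _ C hC hv
      exact h ⟨⟨C, hC⟩, hv⟩
    · intro _; rfl

lemma lab_perm (hRD : RD G) (σ : Equiv.Perm V) (hσ : ∀ v, G.Adj v (σ v)) (v : V) :
    lab G (σ v) = lab G v := by
  have hσ' : ∀ v, G.Adj v (σ.symm v) := by
    intro v
    have := (hσ (σ.symm v)).symm
    rwa [Equiv.apply_symm_apply] at this
  have key : ∀ C : OC G, lab G (σ v) = some C ↔ lab G v = some C := by
    intro C
    rw [lab_some hRD, lab_some hRD]
    constructor
    · intro h
      have := noncross σ.symm hσ' hRD C.2 h
      rwa [Equiv.symm_apply_apply] at this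
    · exact fun h => noncross σ hσ hRD C.2 h
  cases h : lab G v with
  | some C => exact (key C).2 h
  | none =>
    cases h' : lab G (σ v) with
    | none => rfl
    | some C =>
      have := (key C).1 h'
      rw [h] at this
      exact absurd this (by simp)

/-- Block factorisation of a determinant whose nonzero terms respect a labelling. -/
lemma det_blocks {α : Type*} [Fintype α] [DecidableEq α] (A : Matrix V V ℝ) (b : V → α)
    (h : ∀ σ : Equiv.Perm V, (∀ i, A (σ i) i ≠ 0) → ∀ i, b (σ i) = b i) :
    A.det = ∏ a : α, (A.toSquareBlock b a).det := by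
  classical
  let e := Fintype.equivFin α
  let A' : Matrix V V ℝ := Matrix.of fun i j => if b i = b j then A i j else 0
  have h1 : A.det = A'.det := by
    rw [Matrix.det_apply', Matrix.det_apply']
    refine Finset.sum_congr rfl (fun σ _ => ?_)
    congr 1
    by_cases hσ : ∀ i, A (σ i) i ≠ 0
    · refine Finset.prod_congr rfl (fun i _ => ?_)
      show A (σ i) i = if b (σ i) = b i then A (σ i) i else 0
      rw [if_pos (h σ hσ i)]
    · push Not at hσ
      obtain ⟨i, hi⟩ := hσ
      have z1 : ∏ i, A (σ i) i = 0 := Finset.prod_eq_zero (Finset.mem_univ i) hi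
      have z2 : ∏ i, A' (σ i) i = 0 := Finset.prod_eq_zero (Finset.mem_univ i) (by
        show (if b (σ i) = b i then A (σ i) i else 0) = 0
        rw [hi, ite_self])
      rw [z1, z2]
  have h2 : A'.BlockTriangular (fun v => e (b v)) := by
    intro i j hij
    show (if b i = b j then A i j else 0) = 0
    rw [if_neg]
    intro hb
    have hij' : e (b j) < e (b i) := hij
    rw [hb] at hij'
    exact lt_irrefl _ hij'
  rw [h1, h2.det_fintype, ← Equiv.prod_comp e]
  refine Finset.prod_congr rfl (fun a _ => ?_)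
  let e2 : {v // e (b v) = e a} ≃ {v // b v = a} :=
    Equiv.subtypeEquivRight (fun v => e.injective.eq_iff)
  rw [← Matrix.det_submatrix_equiv_self e2 (A.toSquareBlock b a)]
  congr 1
  ext ⟨i, hi⟩ ⟨j, hj⟩
  have hi' := e.injective hi
  have hj' := e.injective hj
  show (if b i = b j then A i j else 0) = A i j
  rw [if_pos (hi'.trans hj'.symm)]

open Classical in
/-- The determinant factorises over the flower decomposition (involution form). -/
theorem det_core (hRD : RD G) [DecidableRel G.Adj] :
    (G.adjMatrix ℝ).det = ((G.adjMatrix ℝ).toSquareBlock (lab G) none).det *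
      ∏ C : OC G, ((G.adjMatrix ℝ).toSquareBlock (lab G) (some C)).det := by
  rw [det_blocks (G.adjMatrix ℝ) (lab G) ?_, Fintype.prod_option]
  intro σ hσ i
  apply lab_perm hRD σ
  intro v
  have := hσ v
  rw [adjMatrix_apply] at this
  by_contra hcon
  apply this
  rw [if_neg (fun h => hcon h.symm)]

end Pool.Agent.V11124.Flower
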