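import Mathlib
import Pool.Agent.V11124.FlDet

/-!
The literal definitions (matchings as edge sets, flowers, reach sets, `R`-disjoint graphs) and
their comparison with the involution form.
-/

set_option linter.unusedSectionVars false

namespace Pool.Agent.V11124.Flower

open Finset SimpleGraph

variable {V : Type*} [Fintype V] [DecidableEq V]

/-- A matching of `G`: a set of edges of `G`, no two of which share a vertex. -/
def IsMatchingSet (G : SimpleGraph V) (M : Set (Sym2 V)) : Prop :=
  M ⊆ G.edgeSet ∧ ∀ e ∈ M, ∀ e' ∈ M, ∀ v, v ∈ e → v ∈ e' → e = e'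

/-- A maximum matching of `G`. -/
def IsMaximumMatching (G : SimpleGraph V) (M : Set (Sym2 V)) : Prop :=
  IsMatchingSet G M ∧ ∀ M', IsMatchingSet G M' → M'.ncard ≤ M.ncard

/-- `C` together with the path `P` from `r` to `b` is an `M`-flower with blossom `C`, base `b` and
stem `P`, where `r` is the vertex of the stem left uncovered by `M`. -/
structure IsFlower (G : SimpleGraph V) (M : Set (Sym2 V)) (C : G.Subgraph) {r b : V}
    (P : G.Walk r b) : Prop where
  blossom : ∃ t, C.verts.ncard = 2 * t + 1 ∧ (M ∩ C.edgeSet).ncard = t
  base_mem : b ∈ C.verts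
  base : ∀ e ∈ M ∩ C.edgeSet, b ∉ e
  uncovered : ∀ e ∈ M, r ∉ e
  path : P.IsPath
  even : Even P.length
  alternating : ∀ i, i + 1 < P.length →
    (s(P.getVert i, P.getVert (i + 1)) ∈ M ↔ s(P.getVert (i + 1), P.getVert (i + 2)) ∉ M)
  meets : ∀ v ∈ P.support, v ∈ C.verts → v = b

/-- The reach set `R(C)`: the union of the vertex sets of all flowers with blossom `C` over all
maximum matchings. -/
def reach (G : SimpleGraph V) (C : G.Subgraph) : Set V :=
  {v | ∃ (M : Set (Sym2 V)) (r b : V) (P : G.Walk r b),
    IsMaximumMatching G M ∧ IsFlower G M C P ∧ (v ∈ C.verts ∨ v ∈ P.support)}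

/-- `R`-disjoint graphs. -/
def RDisjoint (G : SimpleGraph V) : Prop :=
  (∃ C, IsOddCyc G C) ∧ (∀ C, IsOddCyc G C → (reach G C).Nonempty) ∧
    ∀ C C', IsOddCyc G C → IsOddCyc G C' → C ≠ C' → Disjoint (reach G C) (reach G C')

/-- The rest `B(G)` of the flower decomposition. -/
def rest (G : SimpleGraph V) : Set V := {v | ∀ C, IsOddCyc G C → v ∉ reach G C}

variable {G : SimpleGraph V}

/-- The set `M` and the involution `f` describe the same matching. -/
def Rep (M : Set (Sym2 V)) (f : V → V) : Prop := ∀ v w, s(v, w) ∈ M ↔ f v = w ∧ v ≠ w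

lemma exists_rep {M : Set (Sym2 V)} (hM : IsMatchingSet G M) : ∃ f, IsMat G f ∧ Rep M f := by
  classical
  have huniq : ∀ v w w', s(v, w) ∈ M → s(v, w') ∈ M → w = w' := by
    intro v w w' h h'
    have := hM.2 _ h _ h' v (by simp) (by simp)
    exact Sym2.congr_right.1 this
  have hne : ∀ v w, s(v, w) ∈ M → v ≠ w := by
    intro v w h
    have := hM.1 h
    rw [mem_edgeSet] at this
    exact this.ne
  let f : V → V := fun v => if h : ∃ w, s(v, w) ∈ M then h.choose else v
  have hf1 : ∀ v w, s(v, w) ∈ M → f v = w := by
    intro v w h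
    have hex : ∃ w, s(v, w) ∈ M := ⟨w, h⟩
    show (if h : ∃ w, s(v, w) ∈ M then h.choose else v) = w
    rw [dif_pos hex]
    exact huniq v _ _ hex.choose_spec h
  have hf2 : ∀ v, f v ≠ v → s(v, f v) ∈ M := by
    intro v h
    by_cases hex : ∃ w, s(v, w) ∈ M
    · obtain ⟨w, hw⟩ := hex
      rw [hf1 v w hw]; exact hw
    · exfalso
      apply h
      show (if h : ∃ w, s(v, w) ∈ M then h.choose else v) = v
      rw [dif_neg hex]
  refine ⟨f, ⟨?_, ?_⟩, ?_⟩
  · intro v
    by_cases h : f v = v
    · rw [h, h]
    · apply hf1
      rw [Sym2.eq_swap]; exact hf2 v h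
  · intro v h
    have := hM.1 (hf2 v h)
    rwa [mem_edgeSet] at this
  · intro v w
    constructor
    · intro h
      exact ⟨hf1 v w h, hne v w h⟩
    · rintro ⟨h1, h2⟩
      rw [← h1]
      exact hf2 v (by rw [h1]; exact h2.symm)

lemma exists_set {f : V → V} (hf : IsMat G f) : ∃ M, IsMatchingSet G M ∧ Rep M f := by
  refine ⟨{e | ∃ v, f v ≠ v ∧ e = s(v, f v)}, ⟨?_, ?_⟩, ?_⟩
  · rintro e ⟨v, h1, rfl⟩
    rw [mem_edgeSet]; exact hf.2 v h1
  · rintro e ⟨a, h1, rfl⟩ e' ⟨b, h2, rfl⟩ v hv hv'
    have key : ∀ a, v ∈ s(a, f a) → s(a, f a) = s(v, f v) := by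
      intro a ha
      rw [Sym2.mem_iff] at ha
      rcases ha with rfl | rfl
      · rfl
      · rw [hf.1, Sym2.eq_swap]
    rw [key a hv, key b hv']
  · intro v w
    constructor
    · rintro ⟨u, h1, h2⟩
      rw [Sym2.eq_iff] at h2
      rcases h2 with ⟨rfl, rfl⟩ | ⟨rfl, rfl⟩
      · exact ⟨rfl, h1.symm⟩
      · exact ⟨hf.1 _, h1⟩
    · rintro ⟨rfl, h2⟩
      exact ⟨v, h2.symm, rfl⟩

lemma count {M : Set (Sym2 V)} {f : V → V} (hf : IsMat G f) (hR : Rep M f) {E : Set (Sym2 V)}
    (hE : E ⊆ M) [DecidablePred (fun v => s(v, f v) ∈ E)] :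
    (univ.filter (fun v => s(v, f v) ∈ E)).card = 2 * E.ncard := by
  have hfin : E.Finite := Set.toFinite E
  have h1 := Finset.card_eq_sum_card_fiberwise (s := univ.filter (fun v => s(v, f v) ∈ E))
    (t := hfin.toFinset) (f := fun v => s(v, f v)) (by
      intro v hv
      rw [Finset.mem_coe, mem_filter] at hv
      rw [Finset.mem_coe, Set.Finite.mem_toFinset]
      exact hv.2)
  rw [h1, Set.ncard_eq_toFinset_card E hfin]
  have h2 : ∀ e ∈ hfin.toFinset,
      ((univ.filter (fun v => s(v, f v) ∈ E)).filter (fun v => s(v, f v) = e)).card = 2 := by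
    intro e he
    rw [Set.Finite.mem_toFinset] at he
    induction e using Sym2.ind with
    | _ a b =>
      obtain ⟨hab, hne⟩ := (hR a b).1 (hE he)
      have hba : f b = a := by rw [← hab, hf.1]
      have : ((univ.filter (fun v => s(v, f v) ∈ E)).filter (fun v => s(v, f v) = s(a, b)))
          = {a, b} := by
        ext v
        simp only [mem_filter, mem_univ, true_and, mem_insert, mem_singleton]
        constructor
        · rintro ⟨-, h⟩
          rw [Sym2.eq_iff] at h
          rcases h with h | h
          · exact Or.inl h.1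
          · exact Or.inr h.1
        · rintro (rfl | rfl)
          · rw [hab]; exact ⟨he, rfl⟩
          · rw [hba, Sym2.eq_swap]; exact ⟨he, rfl⟩
      rw [this, Finset.card_pair hne]
  rw [Finset.sum_congr rfl h2, Finset.sum_const, smul_eq_mul, mul_comm]

lemma count_all {M : Set (Sym2 V)} {f : V → V} (hf : IsMat G f) (hR : Rep M f) :
    2 * M.ncard + (expo f).card = Fintype.card V := by
  classical
  rw [← count hf hR subset_rfl]
  have : univ.filter (fun v => s(v, f v) ∈ M) = univ.filter (fun v => ¬ f v = v) := by
    ext v
    simp only [mem_filter, mem_univ, true_and]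
    rw [hR]
    constructor
    · rintro ⟨-, h⟩ h'; exact h h'.symm
    · intro h; exact ⟨rfl, fun h' => h h'.symm⟩
  rw [this, expo, add_comm, Finset.card_filter_add_card_filter_not, Finset.card_univ]

lemma max_iff {M : Set (Sym2 V)} {f : V → V} (hM : IsMatchingSet G M) (hf : IsMat G f)
    (hR : Rep M f) : IsMaximumMatching G M ↔ IsMax G f := by
  have h0 := count_all hf hR
  constructor
  · intro h
    refine ⟨hf, fun g hg => ?_⟩
    obtain ⟨M', hM', hR'⟩ := exists_set hg
    have h1 := h.2 M' hM'
    have h2 := count_all hg hR'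
    omega
  · intro h
    refine ⟨hM, fun M' hM' => ?_⟩
    obtain ⟨g, hg, hR'⟩ := exists_rep hM'
    have h1 := h.2 g hg
    have h2 := count_all hg hR'
    omega

/-- Flower data in involution form. -/
structure FD (G : SimpleGraph V) (C : G.Subgraph) (f : V → V) {r b : V} (P : G.Walk r b) :
    Prop where
  base_mem : b ∈ C.verts
  near : ∀ v ∈ C.verts, v ≠ b → C.Adj v (f v)
  root : f r = r
  path : P.IsPath
  even : Even P.length
  alt : ∀ i, i + 1 < P.length →
    (f (P.getVert i) = P.getVert (i + 1) ↔ f (P.getVert (i + 1)) ≠ P.getVert (i + 2))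
  meets : ∀ v ∈ P.support, v ∈ C.verts → v = b

lemma odd_card {C : G.Subgraph} (hC : IsOddCyc G C) : ∃ t, C.verts.ncard = 2 * t + 1 := by
  obtain ⟨L, _, φ, ⟨t, ht⟩, -, hinj, hr, -⟩ := hC.param
  refine ⟨t, ?_⟩
  rw [← hr, ← Set.image_univ, Set.ncard_image_of_injective _ hinj, Set.ncard_univ,
    Nat.card_eq_fintype_card, ZMod.card, ht]

lemma alt_iff {M : Set (Sym2 V)} {f : V → V} (hR : Rep M f) {r b : V} {P : G.Walk r b} {i : ℕ}
    (hi : i < P.length) :
    s(P.getVert i, P.getVert (i + 1)) ∈ M ↔ f (P.getVert i) = P.getVert (i + 1) := by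
  rw [hR]
  have := (P.adj_getVert_succ hi).ne
  tauto

lemma IsFlower.toFD {M : Set (Sym2 V)} {f : V → V} (hf : IsMat G f) (hR : Rep M f)
    {C : G.Subgraph} {r b : V} {P : G.Walk r b} (h : IsFlower G M C P) : FD G C f P := by
  classical
  refine ⟨h.base_mem, ?_, ?_, h.path, h.even, ?_, h.meets⟩
  · obtain ⟨t, ht1, ht2⟩ := h.blossom
    have h1 := count hf hR (E := M ∩ C.edgeSet) Set.inter_subset_left
    rw [ht2] at h1
    have h2 : univ.filter (fun v => s(v, f v) ∈ M ∩ C.edgeSet) ⊆
        (Set.toFinite C.verts).toFinset.erase b := by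
      intro v hv
      simp only [mem_filter, mem_univ, true_and] at hv
      rw [mem_erase, Set.Finite.mem_toFinset]
      refine ⟨?_, ?_⟩
      · rintro rfl
        exact h.base _ hv (by simp)
      · have := hv.2
        rw [Subgraph.mem_edgeSet] at this
        exact this.fst_mem
    have h3 : ((Set.toFinite C.verts).toFinset.erase b).card = 2 * t := by
      rw [card_erase_of_mem ((Set.Finite.mem_toFinset _).2 h.base_mem),
        ← Set.ncard_eq_toFinset_card C.verts (Set.toFinite C.verts), ht1]
      rfl
    have h4 := Finset.eq_of_subset_of_card_le h2 (by rw [h3, h1])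
    intro v hv hvb
    have h5 : v ∈ (Set.toFinite C.verts).toFinset.erase b := by
      rw [mem_erase, Set.Finite.mem_toFinset]; exact ⟨hvb, hv⟩
    rw [← h4] at h5
    simp only [mem_filter, mem_univ, true_and] at h5
    have := h5.2
    rwa [Subgraph.mem_edgeSet] at this
  · by_contra hne
    exact h.uncovered _ ((hR r (f r)).2 ⟨rfl, fun e => hne e.symm⟩) (by simp)
  · intro i hi
    have := h.alternating i hi
    rw [alt_iff hR (by omega), alt_iff hR (by omega)] at this
    exact this

lemma FD.toIsFlower {M : Set (Sym2 V)} {f : V → V} (hf : IsMat G f) (hR : Rep M f)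
    {C : G.Subgraph} (hC : IsOddCyc G C) {r b : V} {P : G.Walk r b} (h : FD G C f P)
    (hb : f b ∉ C.verts ∨ f b = b) : IsFlower G M C P := by
  classical
  have hbb : ¬ C.Adj b (f b) := by
    intro h'
    rcases hb with hb | hb
    · exact hb h'.snd_mem
    · rw [hb] at h'; exact h'.ne rfl
  refine ⟨?_, h.base_mem, ?_, ?_, h.path, h.even, ?_, h.meets⟩
  · obtain ⟨t, ht⟩ := odd_card hC
    refine ⟨t, ht, ?_⟩
    have h1 := count hf hR (E := M ∩ C.edgeSet) Set.inter_subset_left
    have h2 : univ.filter (fun v => s(v, f v) ∈ M ∩ C.edgeSet) =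
        (Set.toFinite C.verts).toFinset.erase b := by
      ext v
      simp only [mem_filter, mem_univ, true_and, mem_erase, Set.Finite.mem_toFinset]
      constructor
      · intro hv
        have h3 := hv.2
        rw [Subgraph.mem_edgeSet] at h3
        exact ⟨fun e => hbb (e ▸ h3), h3.fst_mem⟩
      · rintro ⟨h3, h4⟩
        have h5 := h.near v h4 h3
        exact ⟨(hR _ _).2 ⟨rfl, h5.ne⟩, by rw [Subgraph.mem_edgeSet]; exact h5⟩
    rw [h2, card_erase_of_mem ((Set.Finite.mem_toFinset _).2 h.base_mem),
      ← Set.ncard_eq_toFinset_card C.verts (Set.toFinite C.verts), ht] at h1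
    omega
  · rintro e ⟨he1, he2⟩ hbe
    obtain ⟨w, rfl⟩ := Sym2.mem_iff_exists.1 hbe
    obtain ⟨h1, h2⟩ := (hR b w).1 he1
    rw [Subgraph.mem_edgeSet] at he2
    rw [← h1] at he2
    exact hbb he2
  · intro e he hre
    obtain ⟨w, rfl⟩ := Sym2.mem_iff_exists.1 hre
    obtain ⟨h1, h2⟩ := (hR r w).1 he
    rw [h.root] at h1
    exact h2 h1
  · intro i hi
    rw [alt_iff hR (by omega), alt_iff hR (by omega)]
    exact h.alt i hi

/-- From flower data to generated flowers. -/
lemma FD.toFl {C : G.Subgraph} {b : V} (n : ℕ) : ∀ {r : V} (P : G.Walk r b) (f : V → V),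
    P.length = 2 * n → IsMax G f → FD G C f P →
      Fl G C f r (C.verts ∪ {v | v ∈ P.support}) := by
  induction n with
  | zero =>
    intro r P f hl hf h
    cases P with
    | nil =>
      have e : C.verts ∪ {v | v ∈ (Walk.nil : G.Walk b b).support} = C.verts := by
        ext v
        simp only [Walk.support_nil, List.mem_singleton, Set.mem_union, Set.mem_ofPred_eq]
        constructor
        · rintro (h' | h')
          · exact h'
          · rw [h']; exact h.base_mem
        · exact Or.inl
      rw [e]
      exact Fl.base f b hf h.base_mem h.root h.near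
    | cons h' q => simp at hl
  | succ n ih =>
    intro r P f hl hf h
    cases P with
    | nil => simp at hl
    | @cons _ u _ hru q =>
      cases q with
      | nil => simp at hl; omega
      | @cons _ w _ huw P' =>
        have hl' : P'.length = 2 * n := by simp at hl; omega
        have hpath := h.path
        rw [Walk.cons_isPath_iff, Walk.cons_isPath_iff, Walk.support_cons, List.mem_cons] at hpath
        obtain ⟨⟨hP', huP'⟩, hr⟩ := hpath
        push Not at hr
        obtain ⟨hru', hrP'⟩ := hr
        have hbP' : b ∈ P'.support := P'.end_mem_support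
        have hrb : r ≠ b := fun e => hrP' (e ▸ hbP')
        have hub : u ≠ b := fun e => huP' (e ▸ hbP')
        have hrC : r ∉ C.verts := fun h' => hrb (h.meets r (by simp) h')
        have huC : u ∉ C.verts := fun h' => hub (h.meets u (by simp) h')
        have hwP' : w ∈ P'.support := P'.start_mem_support
        have hwr : w ≠ r := fun e => hrP' (e ▸ hwP')
        have hfu : f u = w := by
          have := h.alt 0 (by simp)
          simp only [Walk.getVert_cons_succ, Walk.getVert_zero, zero_add] at this
          by_contra hcon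
          have h2 := this.2 hcon
          rw [h.root] at h2
          exact hru.ne h2
        have hfu' : f u ≠ u := by rw [hfu]; exact huw.ne.symm
        have hf0 : swp f r u w = w := by
          rw [← hfu]; exact swp_w hf.1 h.root hru hfu'
        have hother : ∀ v, v ∈ P'.support → v ≠ w → swp f r u v = f v := by
          intro v hv hvw
          apply swp_other
          · exact fun e => hrP' (e ▸ hv)
          · exact fun e => huP' (e ▸ hv)
          · rw [hfu]; exact hvw
        have hFD : FD G C (swp f r u) P' := by
          refine ⟨h.base_mem, ?_, hf0, hP', ⟨n, by omega⟩, ?_, ?_⟩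
          · intro v hv hvb
            have hvw : v ≠ w := by
              rintro rfl
              exact hvb (h.meets v (by simp) hv)
            have e0 : swp f r u v = f v := by
              apply swp_other
              · exact fun e => hrC (e ▸ hv)
              · exact fun e => huC (e ▸ hv)
              · rw [hfu]; exact hvw
            rw [e0]
            exact h.near v hv hvb
          · intro i hi
            have hPi : ∀ j, (Walk.cons hru (Walk.cons huw P')).getVert (j + 2) = P'.getVert j := by
              intro j; simp [Walk.getVert_cons_succ]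
            have halt := h.alt (i + 2) (by simp; omega)
            rw [hPi i, show i + 2 + 1 = (i + 1) + 2 by ring, hPi (i + 1),
              show i + 2 + 2 = (i + 2) + 2 by ring, hPi (i + 2)] at halt
            have hinj := hP'.getVert_injOn
            have hw1 : P'.getVert (i + 1) ≠ w := by
              intro e
              have := hinj (by rw [Set.mem_ofPred_eq]; omega) (by rw [Set.mem_ofPred_eq]; omega)
                (e.trans P'.getVert_zero.symm)
              omega
            rw [hother _ (P'.getVert_mem_support _) hw1]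
            rcases Nat.eq_zero_or_pos i with h0 | h0
            · subst h0
              rw [Walk.getVert_zero, hf0]
              rw [Walk.getVert_zero] at halt
              have h1 := h.alt 1 (by simp; omega)
              have e1 : (Walk.cons hru (Walk.cons huw P')).getVert 1 = u := by
                simp [Walk.getVert_cons_succ]
              have e2 : (Walk.cons hru (Walk.cons huw P')).getVert (1 + 1) = w := by
                rw [show 1 + 1 = 0 + 2 by ring, hPi 0, Walk.getVert_zero]
              have e3 : (Walk.cons hru (Walk.cons huw P')).getVert (1 + 2) = P'.getVert (0 + 1) := by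
                rw [show 1 + 2 = 1 + 2 by ring, hPi 1]
              rw [e1, e2, e3] at h1
              have h2 := h1.1 hfu
              constructor
              · intro h3
                exact absurd h3.symm hw1
              · intro h3
                exact absurd (halt.2 h3) h2
            · have hwi : P'.getVert i ≠ w := by
                intro e
                have := hinj (by rw [Set.mem_ofPred_eq]; omega) (by rw [Set.mem_ofPred_eq]; omega)
                  (e.trans P'.getVert_zero.symm)
                omega
              rw [hother _ (P'.getVert_mem_support _) hwi]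
              exact halt
          · intro v hv hvC
            exact h.meets v (by simp [hv]) hvC
        have hFl := ih P' (swp f r u) hl' (swp_isMax hf h.root hru hfu') hFD
        have huS : u ∉ C.verts ∪ {v | v ∈ P'.support} := by
          rintro (h' | h')
          · exact huC h'
          · exact huP' h'
        have hsu : swp f r u u = r := swp_u hru.ne.symm
        have hF2 := Fl.ext _ _ _ u hFl huw.symm huS (by rw [hsu]; exact hru.ne)
        have hback : swp (swp f r u) w u = f := by
          have := swp_swp hf.1 h.root hru hfu'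
          rwa [hfu] at this
        rw [hback, hsu] at hF2
        have e : C.verts ∪ {v | v ∈ (Walk.cons hru (Walk.cons huw P')).support} =
            insert u (insert r (C.verts ∪ {v | v ∈ P'.support})) := by
          ext v
          simp only [Walk.support_cons, List.mem_cons, Set.mem_union, Set.mem_ofPred_eq,
            Set.mem_insert_iff]
          tauto
        rw [e]; exact hF2

/-- From generated flowers to flower data. -/
lemma Fl.toFD {C : G.Subgraph} {f : V → V} {r : V} {S : Set V} (h : Fl G C f r S) :
    ∃ (b : V) (P : G.Walk r b), FD G C f P ∧ (f b ∉ C.verts ∨ f b = b) ∧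
      S = C.verts ∪ {v | v ∈ P.support} := by
  induction h with
  | base f b hf hb hfb hC =>
    refine ⟨b, Walk.nil, ⟨hb, hC, hfb, by simp, by simp, ?_, ?_⟩, Or.inr hfb, ?_⟩
    · intro i hi; simp at hi
    · intro v hv _; simpa using hv
    · ext v
      simp only [Walk.support_nil, List.mem_singleton, Set.mem_union, Set.mem_ofPred_eq]
      constructor
      · exact Or.inl
      · rintro (h' | h')
        · exact h'
        · rw [h']; exact hb
  | ext f r S u h hu huS hfu ih =>
    obtain ⟨b, P, hFD, hb, hS⟩ := ih
    have hwS : f u ∉ S := h.closed' huS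
    have huw : G.Adj u (f u) := h.isMax.1.2 u hfu
    have hPS : ∀ v ∈ P.support, v ∈ S := by
      intro v hv; rw [hS]; exact Or.inr hv
    have hCS : ∀ v ∈ C.verts, v ∈ S := by
      intro v hv; rw [hS]; exact Or.inl hv
    have huP : u ∉ P.support := fun h' => huS (hPS _ h')
    have hwP : f u ∉ P.support := fun h' => hwS (hPS _ h')
    have hf0 : swp f r u (f u) = f u := swp_w h.isMax.1 h.root hu hfu
    have hfuu : swp f r u u = r := swp_u hu.ne.symm
    have hother : ∀ v, v ∈ S → v ≠ r → swp f r u v = f v := by
      intro v hv hvr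
      apply swp_other hvr
      · exact fun e => huS (e ▸ hv)
      · exact fun e => hwS (e ▸ hv)
    refine ⟨b, Walk.cons huw.symm (Walk.cons hu.symm P), ⟨hFD.base_mem, ?_, hf0, ?_, ?_, ?_, ?_⟩,
      ?_, ?_⟩
    · intro v hv hvb
      have hvr : v ≠ r := by
        rintro rfl
        exact hvb (hFD.meets v P.start_mem_support hv)
      rw [hother v (hCS v hv) hvr]
      exact hFD.near v hv hvb
    · rw [Walk.cons_isPath_iff, Walk.cons_isPath_iff, Walk.support_cons, List.mem_cons]
      refine ⟨⟨hFD.path, huP⟩, ?_⟩
      rintro (e | e)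
      · exact hfu e
      · exact hwP e
    · obtain ⟨k, hk⟩ := hFD.even
      exact ⟨k + 1, by simp; omega⟩
    · intro i hi
      have hPi : ∀ j, (Walk.cons huw.symm (Walk.cons hu.symm P)).getVert (j + 2) = P.getVert j := by
        intro j; simp [Walk.getVert_cons_succ]
      have g0 : (Walk.cons huw.symm (Walk.cons hu.symm P)).getVert 0 = f u := by simp
      have g1 : (Walk.cons huw.symm (Walk.cons hu.symm P)).getVert 1 = u := by
        simp [Walk.getVert_cons_succ]
      have hinj := hFD.path.getVert_injOn
      simp only [Walk.length_cons] at hi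
      have hne : ∀ j, 0 < j → j ≤ P.length → P.getVert j ≠ r := by
        intro j hj hjl e
        have := hinj (by rw [Set.mem_ofPred_eq]; omega) (by rw [Set.mem_ofPred_eq]; omega)
          (e.trans P.getVert_zero.symm)
        omega
      rcases i with _ | _ | i
      · rw [g0, show 0 + 1 = 1 by ring, g1, hPi 0, Walk.getVert_zero, hf0, hfuu]
        constructor
        · intro e; exact absurd e hfu
        · intro e; exact absurd rfl e
      · rw [show 0 + 1 = 1 by ring, g1, show 1 + 1 = 0 + 2 by ring, hPi 0,
          show 1 + 2 = 1 + 2 by ring, hPi 1, Walk.getVert_zero, hfuu, swp_root]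
        constructor
        · intro _ e
          exact huP (e ▸ P.getVert_mem_support _)
        · intro _; rfl
      · rw [hPi i, show i + 1 + 1 + 1 = (i + 1) + 2 by ring, hPi (i + 1),
          show i + 1 + 1 + 2 = (i + 2) + 2 by ring, hPi (i + 2)]
        have halt := hFD.alt i (by omega)
        rw [hother (P.getVert (i + 1)) (hPS _ (P.getVert_mem_support _))
          (hne _ (by omega) (by omega))]
        rcases Nat.eq_zero_or_pos i with h0 | h0
        · subst h0
          rw [Walk.getVert_zero, hFD.root] at halt
          rw [Walk.getVert_zero, swp_root]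
          have h1 : ¬ (r = P.getVert (0 + 1)) := fun e => hne 1 (by omega) (by omega) e.symm
          constructor
          · intro e
            exact absurd (e ▸ P.getVert_mem_support (0 + 1)) huP
          · intro e
            exact absurd (halt.2 e) h1
        · rw [hother (P.getVert i) (hPS _ (P.getVert_mem_support _)) (hne _ h0 (by omega))]
          exact halt
    · intro v hv hvC
      rw [Walk.support_cons, List.mem_cons, Walk.support_cons, List.mem_cons] at hv
      rcases hv with e | e | e
      · exact absurd (e ▸ hCS v hvC) hwS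
      · exact absurd (e ▸ hCS v hvC) huS
      · exact hFD.meets v e hvC
    · by_cases hbr : b = r
      · left
        rw [hbr, swp_root]
        exact fun h' => huS (hCS _ h')
      · rw [hother b (hCS b hFD.base_mem) hbr]
        exact hb
    · rw [hS]
      ext v
      simp only [Walk.support_cons, List.mem_cons, Set.mem_union, Set.mem_ofPred_eq,
        Set.mem_insert_iff]
      tauto

lemma reach_eq {C : G.Subgraph} (hC : IsOddCyc G C) : reach G C = Rch G C := by
  ext v
  constructor
  · rintro ⟨M, r, b, P, hM, hF, hv⟩
    obtain ⟨f, hf, hR⟩ := exists_rep hM.1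
    have hmax := (max_iff hM.1 hf hR).1 hM
    obtain ⟨n, hn⟩ := hF.even
    exact ⟨f, r, _, FD.toFl n P f (by omega) hmax (hF.toFD hf hR), hv⟩
  · rintro ⟨f, r, S, hF, hv⟩
    obtain ⟨b, P, hFD, hb, hS⟩ := hF.toFD
    obtain ⟨M, hM, hR⟩ := exists_set hF.isMax.1
    refine ⟨M, r, b, P, (max_iff hM hF.isMax.1 hR).2 hF.isMax,
      hFD.toIsFlower hF.isMax.1 hR hC hb, ?_⟩
    rw [hS] at hv
    exact hv

lemma RDisjoint.toRD (h : RDisjoint G) : RD G := by
  refine ⟨h.1, fun C hC => reach_eq hC ▸ h.2.1 C hC, fun C C' hC hC' hne => ?_⟩
  rw [← reach_eq hC, ← reach_eq hC']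
  exact h.2.2 C C' hC hC' hne

open Classical in
/-- The determinant factorises over the flower decomposition. -/
theorem det_main (h : RDisjoint G) :
    (G.adjMatrix ℝ).det = ((G.induce (rest G)).adjMatrix ℝ).det *
      ∏ C : OC G, ((G.induce (reach G C.1)).adjMatrix ℝ).det := by
  have hRD := h.toRD
  rw [det_core hRD]
  congr 1
  · let e : {v // lab G v = none} ≃ rest G := Equiv.subtypeEquivRight (fun v => by
      rw [lab_none]
      constructor
      · intro h' C hC; rw [reach_eq hC]; exact h' C hC
      · intro h' C hC; rw [← reach_eq hC]; exact h' C hC)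
    rw [← Matrix.det_submatrix_equiv_self e ((G.induce (rest G)).adjMatrix ℝ)]
    congr 1
  · refine Finset.prod_congr rfl (fun C _ => ?_)
    let e : {v // lab G v = some C} ≃ reach G C.1 := Equiv.subtypeEquivRight (fun v => by
      rw [lab_some hRD, reach_eq C.2])
    rw [← Matrix.det_submatrix_equiv_self e ((G.induce (reach G C.1)).adjMatrix ℝ)]
    congr 1

end Pool.Agent.V11124.Flower
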