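import Pool.Agent.V11124.SeqCycle

open SimpleGraph

namespace Pool.Agent.V11124.MacroRing

/-- neighbourhoods (as bit masks) in the 27-vertex macro graph -/
def nbMask : List ℕ := [6, 8701, 11, 22, 8202, 8258, 162, 322, 393346, 100793344, 67111424, 5632, 10752, 21042, 41472, 82432, 33587712, 786688, 7995648, 1441792, 2883584, 64225280, 10747904, 23068672, 44040192, 18940416, 1536]

def adjM (u v : ℕ) : Bool := (nbMask.getD u 0).testBit v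

def edgesM : List (ℕ × ℕ) :=
  [(0, 1), (0, 2), (1, 2), (1, 3), (1, 4), (1, 5), (1, 6), (1, 7), (1, 8), (1, 13), (2, 3), (3, 4), (4, 13), (5, 6), (5, 13), (6, 7), (7, 8), (8, 17), (8, 18), (9, 10), (9, 11), (9, 12), (9, 13), (9, 14), (9, 15), (9, 16), (9, 25), (9, 26), (10, 11), (10, 26), (11, 12), (12, 13), (13, 14), (14, 15), (15, 16), (16, 25), (17, 18), (17, 19), (18, 19), (18, 20), (18, 21), (18, 22), (19, 20), (20, 21), (21, 22), (21, 23), (21, 24), (21, 25), (22, 23), (23, 24), (24, 25)]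

def cyc3 : List (List ℕ) :=
  [[9, 12, 13],
   [1, 5, 13],
   [8, 17, 18],
   [21, 22, 23],
   [9, 16, 25],
   [18, 19, 20],
   [0, 1, 2],
   [9, 14, 15],
   [9, 10, 11],
   [1, 6, 7],
   [21, 24, 25],
   [1, 3, 4],
   [18, 20, 21],
   [1, 7, 8],
   [9, 10, 26],
   [9, 13, 14],
   [1, 5, 6],
   [17, 18, 19],
   [1, 4, 13],
   [21, 23, 24],
   [9, 11, 12],
   [9, 15, 16],
   [18, 21, 22],
   [1, 2, 3]]

def cyc4 : List (List ℕ) :=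
  [[21, 23, 24, 25],
   [9, 10, 11, 12],
   [1, 2, 3, 4],
   [1, 6, 5, 13],
   [17, 18, 20, 19],
   [9, 13, 14, 15],
   [8, 17, 19, 18],
   [18, 20, 21, 22],
   [0, 1, 3, 2],
   [9, 14, 15, 16],
   [1, 5, 6, 7],
   [9, 11, 10, 26],
   [18, 21, 23, 22],
   [1, 6, 7, 8],
   [9, 15, 16, 25],
   [9, 11, 12, 13],
   [1, 4, 13, 5],
   [21, 22, 23, 24]]

def cyc5 : List (List ℕ) :=
  [[1, 3, 4, 13, 5],
   [9, 11, 12, 13, 14],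
   [18, 19, 20, 21, 22],
   [9, 13, 14, 15, 16],
   [0, 1, 4, 3, 2],
   [8, 17, 19, 20, 18],
   [1, 5, 6, 7, 8],
   [18, 21, 24, 23, 22],
   [9, 12, 11, 10, 26],
   [1, 7, 6, 5, 13],
   [9, 14, 15, 16, 25],
   [21, 22, 23, 24, 25],
   [9, 10, 11, 12, 13],
   [9, 12, 13, 14, 15],
   [1, 2, 3, 4, 13],
   [1, 4, 13, 5, 6],
   [18, 20, 21, 23, 22],
   [17, 18, 21, 20, 19]]

def cyc6 : List (List ℕ) :=
  [[1, 8, 7, 6, 5, 13],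
   [18, 21, 25, 24, 23, 22],
   [9, 10, 11, 12, 13, 14],
   [9, 13, 14, 15, 16, 25],
   [17, 18, 22, 21, 20, 19],
   [0, 1, 13, 4, 3, 2],
   [1, 3, 4, 13, 5, 6],
   [18, 19, 20, 21, 23, 22],
   [1, 4, 13, 5, 6, 7],
   [18, 20, 21, 24, 23, 22],
   [9, 12, 13, 14, 15, 16],
   [9, 11, 12, 13, 14, 15],
   [9, 13, 12, 11, 10, 26],
   [8, 17, 19, 20, 21, 18],
   [1, 2, 3, 4, 13, 5]]

def cyc7 : List (List ℕ) :=
  [[1, 2, 3, 4, 13, 5, 6],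
   [8, 17, 19, 20, 21, 22, 18],
   [9, 14, 13, 12, 11, 10, 26],
   [1, 8, 18, 21, 25, 9, 13],
   [18, 20, 21, 25, 24, 23, 22],
   [9, 11, 12, 13, 14, 15, 16],
   [1, 3, 4, 13, 5, 6, 7],
   [0, 1, 5, 13, 4, 3, 2],
   [1, 4, 13, 5, 6, 7, 8],
   [9, 12, 13, 14, 15, 16, 25],
   [18, 19, 20, 21, 24, 23, 22],
   [9, 10, 11, 12, 13, 14, 15],
   [17, 18, 22, 23, 21, 20, 19]]

def cyc8 : List (List ℕ) :=
  [[1, 8, 18, 21, 25, 16, 9, 13],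
   [9, 15, 14, 13, 12, 11, 10, 26],
   [17, 18, 22, 23, 24, 21, 20, 19],
   [0, 1, 6, 5, 13, 4, 3, 2],
   [1, 7, 8, 18, 21, 25, 9, 13],
   [8, 17, 19, 20, 21, 23, 22, 18],
   [9, 11, 12, 13, 14, 15, 16, 25],
   [1, 3, 4, 13, 5, 6, 7, 8],
   [18, 19, 20, 21, 25, 24, 23, 22],
   [1, 8, 18, 22, 21, 25, 9, 13],
   [1, 5, 13, 9, 25, 21, 18, 8],
   [1, 8, 18, 21, 25, 9, 12, 13],
   [1, 8, 18, 21, 25, 9, 14, 13],
   [9, 10, 11, 12, 13, 14, 15, 16],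
   [1, 2, 3, 4, 13, 5, 6, 7],
   [1, 4, 13, 9, 25, 21, 18, 8],
   [1, 8, 18, 20, 21, 25, 9, 13]]

def cyc9 : List (List ℕ) :=
  [[1, 7, 8, 18, 22, 21, 25, 9, 13],
   [9, 16, 15, 14, 13, 12, 11, 10, 26],
   [0, 1, 7, 6, 5, 13, 4, 3, 2],
   [17, 18, 22, 23, 24, 25, 21, 20, 19],
   [1, 4, 13, 14, 9, 25, 21, 18, 8],
   [1, 8, 18, 21, 24, 25, 9, 12, 13],
   [1, 8, 17, 18, 21, 25, 16, 9, 13],
   [1, 5, 13, 9, 25, 21, 20, 18, 8],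
   [1, 8, 18, 21, 25, 9, 15, 14, 13],
   [1, 8, 17, 19, 18, 21, 25, 9, 13],
   [1, 8, 18, 21, 23, 24, 25, 9, 13],
   [1, 8, 18, 21, 25, 9, 11, 12, 13],
   [9, 10, 11, 12, 13, 14, 15, 16, 25],
   [1, 2, 3, 4, 13, 5, 6, 7, 8],
   [1, 6, 5, 13, 9, 25, 21, 18, 8],
   [1, 3, 4, 13, 9, 25, 21, 18, 8]]

def cyc10 : List (List ℕ) :=
  [[1, 8, 18, 22, 23, 24, 25, 16, 9, 13],
   [1, 5, 13, 14, 9, 25, 21, 18, 17, 8],
   [0, 1, 8, 7, 6, 5, 13, 4, 3, 2],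
   [9, 25, 16, 15, 14, 13, 12, 11, 10, 26],
   [1, 4, 13, 9, 25, 21, 20, 19, 17, 8],
   [1, 8, 18, 22, 21, 24, 25, 9, 12, 13],
   [1, 5, 13, 9, 25, 21, 20, 18, 8, 7],
   [1, 8, 17, 19, 18, 21, 25, 9, 12, 13],
   [1, 8, 18, 22, 23, 21, 24, 25, 9, 13],
   [1, 3, 4, 13, 12, 9, 25, 21, 18, 8],
   [1, 5, 13, 14, 15, 9, 25, 21, 18, 8],
   [1, 5, 13, 12, 11, 9, 25, 21, 18, 8],
   [1, 6, 7, 8, 18, 21, 24, 25, 9, 13],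
   [1, 8, 18, 21, 25, 9, 10, 11, 12, 13],
   [1, 2, 3, 4, 13, 9, 25, 21, 18, 8]]

def cyc11 : List (List ℕ) :=
  [[5, 6, 7, 8, 17, 18, 22, 21, 25, 9, 13],
   [1, 4, 13, 12, 9, 16, 25, 24, 21, 18, 8],
   [1, 8, 18, 20, 21, 23, 24, 25, 9, 14, 13],
   [1, 8, 17, 19, 18, 21, 25, 9, 11, 12, 13],
   [0, 1, 8, 18, 21, 25, 9, 13, 4, 3, 2],
   [1, 5, 13, 9, 15, 16, 25, 21, 18, 8, 7],
   [1, 8, 18, 21, 25, 9, 26, 10, 11, 12, 13],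
   [1, 8, 17, 19, 20, 21, 25, 16, 15, 14, 13],
   [1, 3, 4, 13, 9, 25, 24, 23, 22, 18, 8],
   [1, 6, 7, 8, 18, 20, 21, 25, 9, 14, 13],
   [1, 2, 3, 4, 13, 12, 9, 25, 21, 18, 8],
   [1, 8, 18, 21, 25, 16, 9, 10, 11, 12, 13]]

def cyc12 : List (List ℕ) :=
  [[1, 6, 5, 13, 12, 9, 25, 21, 20, 18, 17, 8],
   [1, 7, 8, 18, 21, 23, 24, 25, 16, 15, 14, 13],
   [1, 4, 13, 9, 16, 25, 21, 22, 18, 19, 17, 8],
   [0, 1, 8, 18, 21, 25, 9, 14, 13, 4, 3, 2],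
   [1, 5, 13, 12, 11, 10, 26, 9, 25, 21, 18, 8],
   [1, 8, 18, 19, 20, 21, 24, 25, 16, 15, 9, 13],
   [5, 6, 7, 8, 18, 22, 21, 25, 9, 11, 12, 13],
   [1, 3, 4, 13, 9, 25, 24, 23, 22, 21, 18, 8],
   [1, 5, 13, 12, 11, 10, 9, 16, 25, 21, 18, 8],
   [1, 2, 3, 4, 13, 9, 15, 16, 25, 21, 18, 8]]

def cyc13 : List (List ℕ) :=
  [[1, 6, 7, 8, 17, 18, 21, 24, 25, 9, 11, 12, 13],
   [1, 3, 4, 13, 14, 9, 15, 16, 25, 21, 22, 18, 8],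
   [1, 5, 13, 9, 25, 24, 23, 21, 20, 18, 19, 17, 8],
   [1, 4, 13, 12, 11, 10, 26, 9, 16, 25, 21, 18, 8],
   [0, 1, 7, 8, 18, 21, 25, 9, 12, 13, 4, 3, 2],
   [5, 6, 7, 8, 18, 19, 20, 21, 25, 9, 15, 14, 13],
   [1, 2, 3, 4, 13, 12, 9, 25, 24, 23, 22, 18, 8],
   [1, 7, 8, 17, 18, 22, 21, 25, 9, 10, 11, 12, 13]]

def cyc14 : List (List ℕ) :=
  [[1, 5, 13, 9, 25, 24, 23, 21, 20, 19, 17, 18, 8, 7],
   [0, 1, 8, 18, 21, 25, 16, 15, 9, 12, 13, 4, 3, 2],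
   [1, 6, 7, 8, 17, 18, 22, 21, 24, 25, 16, 9, 14, 13],
   [1, 4, 13, 12, 11, 10, 26, 9, 25, 21, 23, 22, 18, 8],
   [1, 6, 5, 13, 14, 15, 9, 25, 21, 20, 18, 19, 17, 8],
   [1, 3, 4, 13, 12, 11, 9, 25, 21, 20, 18, 17, 8, 7],
   [1, 2, 3, 4, 13, 12, 11, 10, 9, 25, 24, 21, 18, 8]]

def cyc15 : List (List ℕ) :=
  [[1, 6, 5, 13, 12, 11, 10, 9, 15, 16, 25, 21, 22, 18, 8],
   [1, 3, 4, 13, 9, 25, 24, 23, 21, 20, 19, 18, 17, 8, 7],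
   [1, 6, 7, 8, 17, 19, 20, 18, 21, 24, 25, 16, 9, 14, 13],
   [0, 1, 8, 18, 22, 23, 21, 24, 25, 9, 12, 13, 4, 3, 2],
   [1, 4, 13, 12, 11, 10, 26, 9, 14, 15, 16, 25, 21, 18, 8],
   [1, 2, 3, 4, 13, 12, 11, 9, 25, 21, 18, 8, 7, 6, 5]]

def cyc16 : List (List ℕ) :=
  [[1, 3, 4, 13, 12, 11, 10, 26, 9, 16, 25, 21, 20, 19, 18, 8],
   [1, 6, 5, 13, 14, 15, 9, 25, 24, 23, 21, 22, 18, 17, 8, 7],
   [1, 5, 6, 7, 8, 17, 19, 20, 18, 21, 25, 16, 15, 14, 9, 13],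
   [0, 1, 8, 18, 22, 23, 21, 24, 25, 9, 11, 12, 13, 4, 3, 2],
   [1, 4, 13, 12, 9, 25, 24, 23, 22, 21, 20, 18, 19, 17, 8, 7],
   [1, 2, 3, 4, 13, 12, 11, 10, 9, 25, 24, 21, 23, 22, 18, 8]]

def cyc17 : List (List ℕ) :=
  [[1, 7, 6, 5, 13, 9, 16, 25, 24, 21, 23, 22, 18, 20, 19, 17, 8],
   [0, 1, 6, 7, 8, 18, 21, 25, 9, 26, 10, 11, 12, 13, 4, 3, 2],
   [1, 4, 13, 14, 9, 15, 16, 25, 24, 23, 22, 21, 20, 19, 18, 17, 8],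
   [1, 3, 4, 13, 12, 11, 9, 14, 15, 16, 25, 21, 18, 8, 7, 6, 5],
   [1, 8, 17, 18, 22, 23, 21, 24, 25, 16, 15, 14, 9, 10, 11, 12, 13],
   [1, 2, 3, 4, 13, 12, 9, 16, 25, 24, 21, 20, 19, 17, 18, 8, 7]]

def cyc18 : List (List ℕ) :=
  [[1, 2, 3, 4, 13, 12, 9, 14, 15, 16, 25, 21, 23, 22, 18, 19, 17, 8],
   [1, 5, 13, 12, 11, 10, 26, 9, 25, 24, 23, 22, 21, 20, 18, 8, 7, 6],
   [0, 1, 7, 8, 18, 17, 19, 20, 21, 24, 25, 16, 9, 14, 13, 4, 3, 2],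
   [1, 3, 4, 13, 9, 15, 16, 25, 24, 21, 18, 20, 19, 17, 8, 7, 6, 5],
   [1, 4, 13, 12, 11, 9, 14, 15, 16, 25, 24, 23, 21, 20, 18, 17, 8, 7],
   [1, 6, 7, 8, 17, 19, 18, 20, 21, 25, 16, 15, 14, 9, 10, 11, 12, 13]]

def cyc19 : List (List ℕ) :=
  [[1, 6, 7, 8, 17, 19, 18, 20, 21, 22, 23, 24, 25, 9, 26, 10, 11, 12, 13],
   [0, 1, 5, 6, 7, 8, 18, 22, 23, 21, 25, 16, 15, 9, 14, 13, 4, 3, 2],
   [1, 7, 6, 5, 13, 12, 11, 9, 14, 15, 16, 25, 24, 21, 20, 19, 18, 17, 8],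
   [1, 3, 4, 13, 12, 11, 10, 9, 16, 25, 24, 23, 21, 18, 17, 8, 7, 6, 5],
   [1, 2, 3, 4, 13, 12, 9, 16, 25, 24, 23, 22, 21, 20, 18, 19, 17, 8, 7],
   [1, 4, 13, 9, 14, 15, 16, 25, 24, 21, 23, 22, 18, 19, 17, 8, 7, 6, 5]]

def cyc20 : List (List ℕ) :=
  [[1, 2, 3, 4, 13, 12, 11, 10, 9, 16, 25, 24, 23, 22, 18, 17, 8, 7, 6, 5],
   [1, 7, 6, 5, 13, 12, 11, 10, 26, 9, 14, 15, 16, 25, 21, 20, 18, 19, 17, 8],
   [0, 1, 6, 7, 8, 18, 17, 19, 20, 21, 23, 24, 25, 9, 15, 14, 13, 4, 3, 2],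
   [1, 3, 4, 13, 12, 9, 16, 25, 24, 23, 22, 21, 18, 20, 19, 17, 8, 7, 6, 5],
   [1, 4, 13, 12, 11, 9, 15, 16, 25, 21, 24, 23, 22, 18, 19, 17, 8, 7, 6, 5],
   [0, 1, 5, 6, 7, 8, 17, 18, 20, 21, 22, 23, 24, 25, 16, 9, 13, 4, 3, 2],
   [1, 6, 7, 8, 18, 17, 19, 20, 21, 22, 23, 24, 25, 16, 15, 9, 10, 11, 12, 13]]

def cyc21 : List (List ℕ) :=
  [[1, 2, 3, 4, 13, 12, 11, 10, 9, 15, 16, 25, 21, 20, 18, 19, 17, 8, 7, 6, 5],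
   [0, 1, 7, 8, 18, 17, 19, 20, 21, 22, 23, 24, 25, 9, 16, 15, 14, 13, 4, 3, 2],
   [1, 6, 5, 13, 12, 11, 10, 26, 9, 14, 15, 16, 25, 24, 21, 23, 22, 18, 19, 17, 8],
   [1, 4, 13, 12, 9, 14, 15, 16, 25, 24, 23, 22, 18, 21, 20, 19, 17, 8, 7, 6, 5],
   [1, 3, 4, 13, 12, 11, 9, 15, 16, 25, 24, 23, 22, 21, 20, 19, 18, 17, 8, 7, 6],
   [0, 1, 5, 6, 7, 8, 17, 19, 20, 18, 22, 21, 23, 24, 25, 16, 9, 13, 4, 3, 2],
   [1, 6, 7, 8, 17, 19, 20, 18, 22, 23, 24, 25, 16, 15, 14, 9, 26, 10, 11, 12, 13]]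

def cyc22 : List (List ℕ) :=
  [[1, 5, 13, 12, 11, 10, 9, 14, 15, 16, 25, 24, 23, 21, 22, 18, 20, 19, 17, 8, 7, 6],
   [0, 1, 5, 6, 7, 8, 17, 18, 19, 20, 21, 24, 25, 9, 26, 10, 11, 12, 13, 4, 3, 2],
   [1, 2, 3, 4, 13, 14, 15, 9, 16, 25, 24, 23, 22, 18, 21, 20, 19, 17, 8, 7, 6, 5],
   [0, 1, 8, 17, 19, 20, 18, 22, 23, 24, 21, 25, 16, 15, 14, 9, 11, 12, 13, 4, 3, 2],
   [1, 3, 4, 13, 12, 11, 10, 9, 14, 15, 16, 25, 24, 23, 22, 21, 20, 19, 17, 18, 8, 7],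
   [1, 4, 13, 12, 11, 10, 9, 14, 15, 16, 25, 24, 23, 21, 22, 18, 19, 17, 8, 7, 6, 5],
   [0, 1, 5, 6, 7, 8, 17, 18, 21, 22, 23, 24, 25, 16, 15, 14, 9, 12, 13, 4, 3, 2],
   [1, 5, 6, 7, 8, 17, 19, 20, 18, 21, 22, 23, 24, 25, 16, 15, 9, 26, 10, 11, 12, 13],
   [1, 2, 3, 4, 13, 9, 14, 15, 16, 25, 24, 23, 22, 21, 20, 19, 18, 17, 8, 7, 6, 5]]

def cyc23 : List (List ℕ) :=
  [[1, 2, 3, 4, 13, 12, 11, 10, 26, 9, 15, 16, 25, 24, 23, 21, 20, 19, 17, 8, 7, 6, 5],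
   [0, 1, 7, 8, 17, 19, 20, 18, 22, 23, 24, 21, 25, 16, 15, 14, 9, 11, 12, 13, 4, 3, 2],
   [1, 3, 4, 13, 12, 11, 10, 9, 14, 15, 16, 25, 24, 23, 22, 21, 20, 19, 18, 17, 8, 7, 6],
   [0, 1, 5, 6, 7, 8, 17, 19, 20, 18, 21, 22, 23, 24, 25, 9, 16, 15, 14, 13, 4, 3, 2],
   [1, 7, 6, 5, 13, 12, 11, 10, 26, 9, 14, 15, 16, 25, 24, 23, 22, 21, 20, 19, 17, 18, 8],
   [0, 1, 5, 6, 7, 8, 17, 18, 19, 20, 21, 22, 23, 24, 25, 16, 15, 9, 12, 13, 4, 3, 2],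
   [1, 4, 13, 12, 11, 10, 9, 14, 15, 16, 25, 24, 21, 23, 22, 18, 20, 19, 17, 8, 7, 6, 5],
   [1, 5, 6, 7, 8, 17, 19, 20, 18, 22, 21, 23, 24, 25, 16, 15, 14, 9, 26, 10, 11, 12, 13],
   [0, 1, 5, 6, 7, 8, 17, 19, 20, 18, 22, 23, 21, 24, 25, 16, 15, 14, 9, 13, 4, 3, 2]]

def hamM : List (List ℕ) :=
  [[0, 1, 2, 3, 4, 13, 5, 6, 7, 8, 17, 18, 19, 20, 21, 22, 23, 24, 25, 16, 15, 14, 9, 12, 11, 10, 26],
   [0, 2, 3, 4, 1, 5, 6, 7, 8, 17, 19, 20, 18, 22, 23, 21, 24, 25, 9, 16, 15, 14, 13, 12, 11, 10, 26],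
   [0, 2, 3, 4, 1, 5, 6, 7, 8, 17, 19, 20, 18, 21, 22, 23, 24, 25, 16, 15, 14, 13, 12, 11, 9, 10, 26],
   [0, 2, 3, 4, 13, 5, 6, 1, 7, 8, 17, 19, 20, 18, 22, 23, 24, 21, 25, 16, 15, 14, 9, 12, 11, 10, 26],
   [0, 2, 1, 3, 4, 13, 5, 6, 7, 8, 18, 17, 19, 20, 21, 22, 23, 24, 25, 16, 15, 14, 9, 12, 11, 10, 26],
   [0, 2, 3, 4, 1, 5, 6, 7, 8, 17, 18, 19, 20, 21, 22, 23, 24, 25, 16, 9, 15, 14, 13, 12, 11, 10, 26],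
   [0, 2, 3, 4, 1, 5, 6, 7, 8, 17, 18, 19, 20, 21, 22, 23, 24, 25, 16, 15, 14, 9, 13, 12, 11, 10, 26],
   [0, 2, 3, 4, 1, 5, 6, 7, 8, 17, 18, 19, 20, 21, 22, 23, 24, 25, 16, 15, 14, 13, 12, 11, 10, 9, 26],
   [0, 2, 3, 4, 1, 13, 5, 6, 7, 8, 17, 18, 19, 20, 21, 22, 23, 24, 25, 16, 15, 14, 9, 12, 11, 10, 26],
   [0, 2, 3, 4, 13, 5, 6, 7, 1, 8, 17, 18, 19, 20, 21, 22, 23, 24, 25, 16, 15, 14, 9, 12, 11, 10, 26]]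

def cycM : List (List (List ℕ)) := [cyc3, cyc4, cyc5, cyc6, cyc7, cyc8, cyc9, cyc10, cyc11, cyc12, cyc13, cyc14, cyc15, cyc16, cyc17, cyc18, cyc19, cyc20, cyc21, cyc22, cyc23]


def prs (L : List ℕ) : List (ℕ × ℕ) := L.zip (L.rotate 1)

def usesB (e : ℕ × ℕ) (ps : List (ℕ × ℕ)) : Bool :=
  ps.any (fun p => (p.1 == e.1 && p.2 == e.2) || (p.1 == e.2 && p.2 == e.1))

def nodupB : List ℕ → Bool
  | [] => true
  | a :: l => l.all (fun b => !(a == b)) && nodupB l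

def okCycle (l : ℕ) (L : List ℕ) : Bool :=
  L.length == l && (L.all (fun u => Nat.blt u 27) && (nodupB L && (prs L).all (fun p => adjM p.1 p.2)))

def okLen (l : ℕ) (Ls : List (List ℕ)) : Bool :=
  Ls.all (okCycle l) && edgesM.all (fun e => Ls.any (fun L => usesB e (prs L)))

def okHam (L : List ℕ) : Bool :=
  L.length == 27 && (L.getD 0 1 == 0 && (L.getD 26 0 == 26 && (L.all (fun u => Nat.blt u 27) &&
    (nodupB L && (L.zip L.tail).all (fun p => adjM p.1 p.2)))))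

theorem ok3 : okLen 3 cyc3 = true := by decide +kernel

theorem ok4 : okLen 4 cyc4 = true := by decide +kernel

theorem ok5 : okLen 5 cyc5 = true := by decide +kernel

theorem ok6 : okLen 6 cyc6 = true := by decide +kernel

theorem ok7 : okLen 7 cyc7 = true := by decide +kernel

theorem ok8 : okLen 8 cyc8 = true := by decide +kernel

theorem ok9 : okLen 9 cyc9 = true := by decide +kernel

theorem ok10 : okLen 10 cyc10 = true := by decide +kernel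

theorem ok11 : okLen 11 cyc11 = true := by decide +kernel

theorem ok12 : okLen 12 cyc12 = true := by decide +kernel

theorem ok13 : okLen 13 cyc13 = true := by decide +kernel

theorem ok14 : okLen 14 cyc14 = true := by decide +kernel

theorem ok15 : okLen 15 cyc15 = true := by decide +kernel

theorem ok16 : okLen 16 cyc16 = true := by decide +kernel

theorem ok17 : okLen 17 cyc17 = true := by decide +kernel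

theorem ok18 : okLen 18 cyc18 = true := by decide +kernel

theorem ok19 : okLen 19 cyc19 = true := by decide +kernel

theorem ok20 : okLen 20 cyc20 = true := by decide +kernel

theorem ok21 : okLen 21 cyc21 = true := by decide +kernel

theorem ok22 : okLen 22 cyc22 = true := by decide +kernel

theorem ok23 : okLen 23 cyc23 = true := by decide +kernel


theorem ok_ham : hamM.all okHam = true := by decide +kernel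

theorem ok_ham_cover : edgesM.all (fun e => hamM.any (fun L => usesB e (L.zip L.tail))) = true := by decide +kernel

theorem adjM_symm : ∀ u v : Fin 27, adjM u v = adjM v u := by decide +kernel

theorem adjM_irrefl : ∀ u : Fin 27, adjM u u = false := by decide +kernel

theorem adjM_edges : ∀ u v : Fin 27, adjM u v = true → ((u.1, v.1) ∈ edgesM ∨ (v.1, u.1) ∈ edgesM) := by
  decide +kernel

theorem edgesM_lt : ∀ e ∈ edgesM, e.1 < 27 ∧ e.2 < 27 := by decide +kernel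

theorem edgesM_length : edgesM.length = 51 := by decide +kernel

end Pool.Agent.V11124.MacroRing
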