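import Mathlib

namespace Pool.Agent.V11124.OddCycle

open SimpleGraph

variable {V : Type*} {G : SimpleGraph V}

theorem exists_split_of_not_isPath {a b : V} (p : G.Walk a b) (hp : ¬ p.IsPath) :
    ∃ (x : V) (q1 : G.Walk a x) (q2 : G.Walk x x) (q3 : G.Walk x b),
      p = q1.append (q2.append q3) ∧ 0 < q2.length := by
  classical
  induction p with
  | nil => exact absurd Walk.IsPath.nil hp
  | @cons u v w h p ih =>
    by_cases h1 : p.IsPath
    · have h2 : u ∈ p.support := by
        by_contra hcon
        exact hp ((Walk.cons_isPath_iff h p).2 ⟨h1, hcon⟩)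
      refine ⟨u, Walk.nil, Walk.cons h (p.takeUntil u h2), p.dropUntil u h2, ?_, by simp⟩
      simp
    · obtain ⟨x, q1, q2, q3, h3, h4⟩ := ih h1
      refine ⟨x, Walk.cons h q1, q2, q3, ?_, h4⟩
      rw [h3]
      simp

theorem length_of_edge_mem {u v : V} (p : G.Walk v u) (hp : p.IsPath) (he : s(u, v) ∈ p.edges) :
    p.length = 1 := by
  cases p with
  | nil => simp at he
  | @cons _ x _ h p =>
    rw [Walk.cons_isPath_iff] at hp
    rw [Walk.edges_cons, List.mem_cons] at he
    rcases he with he | he
    · rw [Sym2.eq_swap, Sym2.congr_right] at he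
      subst he
      have := hp.1
      rw [Walk.isPath_iff_nil] at this
      have h2 := Walk.nil_iff_length_eq.1 this
      rw [Walk.length_cons, h2]
    · exact absurd (Walk.snd_mem_support_of_mem_edges _ he) hp.2

/-- every odd closed walk yields an odd cycle -/
theorem exists_odd_cycle {u : V} (w : G.Walk u u) (hw : Odd w.length) :
    ∃ (v : V) (c : G.Walk v v), c.IsCycle ∧ Odd c.length := by
  induction hn : w.length using Nat.strong_induction_on generalizing u with
  | _ n ih =>
    subst hn
    cases w with
    | nil => simp at hw
    | @cons _ v _ h p =>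
      by_cases hp : p.IsPath
      · refine ⟨u, Walk.cons h p, ?_, hw⟩
        rw [Walk.cons_isCycle_iff]
        refine ⟨hp, fun he => ?_⟩
        have := length_of_edge_mem p hp he
        rw [Walk.length_cons, this] at hw
        exact absurd hw (by decide)
      · obtain ⟨x, q1, q2, q3, h3, h4⟩ := exists_split_of_not_isPath p hp
        by_cases h5 : Odd q2.length
        · refine ih q2.length ?_ q2 h5 rfl
          rw [Walk.length_cons, h3, Walk.length_append, Walk.length_append]
          omega
        · refine ih (Walk.cons h (q1.append q3)).length ?_ (Walk.cons h (q1.append q3)) ?_ rfl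
          · rw [Walk.length_cons, Walk.length_cons, h3, Walk.length_append, Walk.length_append, Walk.length_append]
            omega
          · rw [Walk.length_cons, h3, Walk.length_append, Walk.length_append] at hw
            rw [Walk.length_cons, Walk.length_append]
            rw [Nat.not_odd_iff_even] at h5
            rw [Nat.odd_iff] at *
            rw [Nat.even_iff] at h5
            omega

theorem colorable_two_of_no_odd_cycle (h : ∀ (v : V) (c : G.Walk v v), c.IsCycle → ¬ Odd c.length) :
    G.Colorable 2 := by
  rw [two_colorable_iff_forall_loop_even]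
  intro u w
  rw [← Nat.not_odd_iff_even]
  intro hw
  obtain ⟨v, c, hc, hc'⟩ := exists_odd_cycle w hw
  exact h v c hc hc'

end Pool.Agent.V11124.OddCycle
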