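import Mathlib

/-!
Nonsingularity over the complex numbers of the block attached to two odd cycles.
-/

namespace Pool.Agent.V11124.Jac

open Complex Polynomial

lemma nsq (r z : ℂ) (hr : normSq r = 1) :
    normSq (1 - r * z) = normSq (r - z) + 4 * (r.im * z.im) := by
  simp only [normSq_apply, sub_re, sub_im, mul_re, mul_im, one_re, one_im] at *
  linear_combination (z.re * z.re + z.im * z.im - 1) * hr

lemma prod_lt_aux {ι : Type*} [Fintype ι] [Nonempty ι] (f g : ι → ℝ) (hf : ∀ i, 0 ≤ f i)
    (hfg : ∀ i, f i < g i) : ∏ i, f i < ∏ i, g i := by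
  by_cases h : ∃ i, f i = 0
  · obtain ⟨i, hi⟩ := h
    rw [Finset.prod_eq_zero (Finset.mem_univ i) hi]
    exact Finset.prod_pos (fun j _ => lt_of_le_of_lt (hf j) (hfg j))
  · push Not at h
    exact Finset.prod_lt_prod_of_nonempty (fun i _ => lt_of_le_of_ne (hf i) (Ne.symm (h i)))
      (fun i _ => hfg i) Finset.univ_nonempty

lemma poly_ne {p : ℕ} [NeZero p] (hp : Odd p) (r : ZMod p → ℂ) (hr : ∀ i, normSq (r i) = 1)
    (hi : ∀ i, 0 < (r i).im) {q : ℕ} (hq : Odd q) (z : ℂ) (hz : z ^ q = 1) :
    ∏ i, (r i - z) ≠ ∏ i, (1 - r i * z) := by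
  have hq0 : q ≠ 0 := hq.pos.ne'
  have hzn : normSq z = 1 := by
    have := Complex.norm_eq_one_of_pow_eq_one hz hq0
    rw [Complex.normSq_eq_norm_sq, this]; norm_num
  intro h
  have h2 : ∏ i, normSq (r i - z) = ∏ i, normSq (1 - r i * z) := by
    rw [← map_prod, ← map_prod, h]
  rcases lt_trichotomy z.im 0 with hz0 | hz0 | hz0
  · have : ∏ i, normSq (1 - r i * z) < ∏ i, normSq (r i - z) := by
      apply prod_lt_aux _ _ (fun i => normSq_nonneg _)
      intro i
      rw [nsq _ _ (hr i)]
      have := mul_neg_of_pos_of_neg (hi i) hz0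
      linarith
    exact absurd h2 this.ne'
  · have hz1 : z = 1 := by
      have h3 : z.re * z.re = 1 := by
        have := hzn
        rw [normSq_apply, hz0] at this; linarith
      have h4 : z.re = 1 ∨ z.re = -1 := by
        have : (z.re - 1) * (z.re + 1) = 0 := by linear_combination h3
        rcases mul_eq_zero.1 this with h | h
        · left; linarith
        · right; linarith
      rcases h4 with h4 | h4
      · exact Complex.ext (by simpa using h4) (by simpa using hz0)
      · exfalso
        have h5 : z = -1 := Complex.ext (by simpa using h4) (by simpa using hz0)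
        rw [h5, hq.neg_one_pow] at hz
        norm_num at hz
    subst hz1
    have h3 : ∏ i, (1 - r i * 1) = - ∏ i, (r i - 1) := by
      have : ∀ i, (1 - r i * 1) = (-1) * (r i - 1) := fun i => by ring
      rw [Finset.prod_congr rfl (fun i _ => this i), Finset.prod_mul_distrib, Finset.prod_const,
        Finset.card_univ, ZMod.card, hp.neg_one_pow]
      ring
    rw [h3] at h
    have h4 : ∏ i, (r i - 1) = 0 := by
      have : (2 : ℂ) * ∏ i, (r i - 1) = 0 := by linear_combination h
      rcases mul_eq_zero.1 this with h | h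
      · norm_num at h
      · exact h
    obtain ⟨i, -, h5⟩ := Finset.prod_eq_zero_iff.1 h4
    have h6 : r i = 1 := by linear_combination h5
    have := hi i
    rw [h6] at this; simp at this
  · have : ∏ i, normSq (r i - z) < ∏ i, normSq (1 - r i * z) := by
      apply prod_lt_aux _ _ (fun i => normSq_nonneg _)
      intro i
      rw [nsq _ _ (hr i)]
      have := mul_pos (hi i) hz0
      linarith
    exact absurd h2 this.ne

/-- The shift operator. -/
noncomputable def shiftOp (q : ℕ) : (ZMod q → ℂ) →ₗ[ℂ] (ZMod q → ℂ) :=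
  LinearMap.funLeft ℂ ℂ (fun k : ZMod q => k + 1)

lemma shiftOp_apply (q : ℕ) (f : ZMod q → ℂ) (k : ZMod q) : shiftOp q f k = f (k + 1) := rfl

lemma shiftOp_pow (q : ℕ) (t : ℕ) (f : ZMod q → ℂ) (k : ZMod q) :
    ((shiftOp q) ^ t) f k = f (k + t) := by
  induction t generalizing k with
  | zero => simp
  | succ t ih =>
    rw [pow_succ', Module.End.mul_apply, shiftOp_apply, ih]
    push_cast
    congr 1; ring

lemma shiftOp_pow_self (q : ℕ) : (shiftOp q) ^ q = 1 := by
  ext f k
  simp [shiftOp_pow]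

/-- the polynomial product comparison -/
noncomputable def fpol {p : ℕ} [NeZero p] (r : ZMod p → ℂ) : ℂ[X] :=
  ∏ i, (C (r i) - X) - ∏ i, (1 - C (r i) * X)

lemma fpol_inj {p q : ℕ} [NeZero p] (hp : Odd p) (hq : Odd q) (r : ZMod p → ℂ)
    (hr : ∀ i, normSq (r i) = 1) (hi : ∀ i, 0 < (r i).im) (u : ZMod q → ℂ)
    (hu : aeval (shiftOp q) (fpol r) u = 0) : u = 0 := by
  have hco : IsCoprime ((X : ℂ[X]) ^ q - 1) (fpol r) := by
    rw [Polynomial.isCoprime_iff_aeval_ne_zero_of_isAlgClosed ℂ ℂ]
    intro a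
    by_cases ha : a ^ q = 1
    · right
      have := poly_ne hp r hr hi hq a ha
      simp only [fpol, map_sub, map_prod, aeval_C, aeval_X, map_one, map_mul]
      intro h
      apply this
      simpa using sub_eq_zero.1 h
    · left
      simp only [map_sub, map_pow, aeval_X, map_one]
      exact sub_ne_zero.2 ha
  obtain ⟨a, b, hab⟩ := hco
  have h1 := congrArg (fun P => aeval (shiftOp q) P u) hab
  simp only [map_add, map_mul, map_sub, map_pow, aeval_X, shiftOp_pow_self, map_one, sub_self,
    mul_zero, zero_add, Module.End.mul_apply, Module.End.one_apply, hu, map_zero] at h1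
  exact h1.symm

lemma prod_range_zmod {M : Type*} [CommMonoid M] {p : ℕ} [NeZero p] (f : ZMod p → M) (i : ZMod p) :
    ∏ t ∈ Finset.range p, f (i + (t : ZMod p)) = ∏ a, f a := by
  rw [← Equiv.prod_comp (Equiv.addLeft i) f]
  refine Finset.prod_bij (fun t _ => (t : ZMod p)) (fun _ _ => Finset.mem_univ _) ?_ ?_ ?_
  · intro a ha b hb hab
    rw [ZMod.natCast_eq_natCast_iff'] at hab
    rwa [Nat.mod_eq_of_lt (Finset.mem_range.1 ha), Nat.mod_eq_of_lt (Finset.mem_range.1 hb)] at hab
  · intro b _
    exact ⟨b.val, Finset.mem_range.2 (ZMod.val_lt b), by simp⟩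
  · intro a _
    rfl

lemma chain_aux {p : ℕ} {V : Type*} [AddCommGroup V] [Module ℂ V] (T : Module.End ℂ V)
    (P Q : ZMod p → ℂ[X]) (u : ZMod p → V)
    (h : ∀ i, aeval T (P i) (u i) = aeval T (Q i) (u (i + 1))) (i : ZMod p) (j : ℕ) :
    aeval T (∏ t ∈ Finset.range j, P (i + (t : ZMod p))) (u i)
      = aeval T (∏ t ∈ Finset.range j, Q (i + (t : ZMod p))) (u (i + (j : ZMod p))) := by
  induction j with
  | zero => simp
  | succ j ih =>
    rw [Finset.prod_range_succ, mul_comm, map_mul, Module.End.mul_apply, ih,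
      ← Module.End.mul_apply, ← map_mul, mul_comm, map_mul, Module.End.mul_apply, h,
      Finset.prod_range_succ, map_mul, Module.End.mul_apply]
    push_cast
    rw [add_assoc]

open ZMod in
lemma block_le {p q : ℕ} [NeZero p] [NeZero q] (hp : Odd p) (hq : Odd q) (c : ZMod p → ZMod q)
    (hc : ∀ i, 0 < (stdAddChar (c (i + 1) - c i) : ℂ).im) (v : ZMod p → ZMod q → ℂ)
    (hv : ∀ i k, stdAddChar (c (i + 1) * (k + 1)) * v i k
      + stdAddChar (c i * k) * v (i + 1) (k + 1)
      - stdAddChar (c (i + 1) * k) * v i (k + 1)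
      - stdAddChar (c i * (k + 1)) * v (i + 1) k = 0) :
    ∀ i k, v i k = 0 := by
  set χ : AddChar (ZMod q) ℂ := stdAddChar with hχ
  have hχ0 : ∀ a, χ a ≠ 0 := fun a => by
    rw [hχ, stdAddChar_apply]; exact Circle.coe_ne_zero _
  have hχn : ∀ a, normSq (χ a) = 1 := fun a => by
    rw [hχ, stdAddChar_apply]; exact Circle.normSq_coe _
  set u : ZMod p → ZMod q → ℂ := fun i k => v i k * χ (-(c i * k)) with hu
  have hvu : ∀ i k, v i k = χ (c i * k) * u i k := fun i k => by
    simp only [hu]
    rw [mul_comm (v i k), ← mul_assoc, ← AddChar.map_add_eq_mul, add_neg_cancel,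
      AddChar.map_zero_eq_one, one_mul]
  set r : ZMod p → ℂ := fun i => χ (c (i + 1) - c i) with hr
  have key : ∀ i, aeval (shiftOp q) (C (r i) - X) (u i)
      = aeval (shiftOp q) (1 - C (r i) * X) (u (i + 1)) := by
    intro i
    simp only [map_sub, aeval_C, aeval_X, map_one, map_mul]
    ext k
    simp only [LinearMap.sub_apply, Module.End.mul_apply, Module.End.one_apply,
      Module.algebraMap_end_apply, Pi.sub_apply, Pi.smul_apply, smul_eq_mul, shiftOp_apply]
    have e1 : χ (c (i + 1) * (k + 1)) * χ (c i * k)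
        = (χ (c i * (k + 1)) * χ (c (i + 1) * k)) * r i := by
      simp only [hr]
      rw [← AddChar.map_add_eq_mul, ← AddChar.map_add_eq_mul, ← AddChar.map_add_eq_mul]
      congr 1; ring
    have h0 := hv i k
    rw [hvu i k, hvu (i + 1) (k + 1), hvu i (k + 1), hvu (i + 1) k] at h0
    have h1 : (χ (c i * (k + 1)) * χ (c (i + 1) * k)) *
        (r i * u i k + r i * u (i + 1) (k + 1) - u i (k + 1) - u (i + 1) k) = 0 := by
      linear_combination h0 - (u i k + u (i + 1) (k + 1)) * e1
    rcases mul_eq_zero.1 h1 with h2 | h2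
    · exact absurd h2 (mul_ne_zero (hχ0 _) (hχ0 _))
    · linear_combination h2
  have main : ∀ i, u i = 0 := by
    intro i
    apply fpol_inj hp hq r (fun i => hχn _) hc
    have h1 := chain_aux (shiftOp q) (fun i => C (r i) - X) (fun i => 1 - C (r i) * X) u key i p
    rw [prod_range_zmod (fun i => C (r i) - X), prod_range_zmod (fun i => 1 - C (r i) * X)] at h1
    simp only [CharP.cast_eq_zero, add_zero] at h1
    rw [fpol, map_sub, LinearMap.sub_apply, h1, sub_self]
  intro i k
  rw [hvu i k, main i]; simp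

lemma im_pos {q : ℕ} [NeZero q] (d : ℕ) (h1 : 0 < d) (h2 : 2 * d < q) :
    0 < (ZMod.stdAddChar (d : ZMod q) : ℂ).im := by
  have hq : (0 : ℝ) < q := by
    have : 0 < q := by omega
    exact_mod_cast this
  have := ZMod.stdAddChar_coe (N := q) (d : ℤ)
  rw [show ((d : ℤ) : ZMod q) = (d : ZMod q) by push_cast; rfl] at this
  rw [this]
  have e : 2 * (Real.pi : ℂ) * I * ((d : ℤ) : ℂ) / (q : ℂ) = ((2 * Real.pi * d / q : ℝ) : ℂ) * I := by
    push_cast; ring
  rw [e, Complex.exp_ofReal_mul_I_im]
  apply Real.sin_pos_of_pos_of_lt_pi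
  · have : (0 : ℝ) < d := by exact_mod_cast h1
    have := Real.pi_pos
    positivity
  · rw [div_lt_iff₀ hq]
    have : (2 * d : ℝ) < q := by exact_mod_cast h2
    have := Real.pi_pos
    nlinarith

/-- The step sequence. -/
def cseq (D : ℕ) (t : ℕ) : ℕ := if t = 0 then 0 else if t = 1 then D else 2 * D + (t - 2)

lemma exists_c {p q : ℕ} [NeZero p] [NeZero q] (hp : Odd p) (hq : Odd q) (hp3 : 3 ≤ p)
    (hpq : p ≤ q) : ∃ c : ZMod p → ZMod q,
      ∀ i, 0 < (ZMod.stdAddChar (c (i + 1) - c i) : ℂ).im := by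
  obtain ⟨a, ha⟩ := hp
  obtain ⟨b, hb⟩ := hq
  set D := 1 + (b - a) with hD
  refine ⟨fun i => ((cseq D i.val : ℕ) : ZMod q), ?_⟩
  intro i
  have hlt := ZMod.val_lt i
  have hv : (i + 1).val = if i.val + 1 = p then 0 else i.val + 1 := by
    have : Fact (1 < p) := ⟨by omega⟩
    rw [ZMod.val_add, ZMod.val_one]
    split_ifs with h
    · rw [h, Nat.mod_self]
    · rw [Nat.mod_eq_of_lt (by omega)]
  have key : ∃ d : ℕ, 0 < d ∧ 2 * d < q ∧
      ((cseq D (i + 1).val : ℕ) : ZMod q) - ((cseq D i.val : ℕ) : ZMod q) = (d : ZMod q) := by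
    by_cases h : i.val + 1 = p
    · refine ⟨1, by omega, by omega, ?_⟩
      rw [hv, if_pos h]
      have e : cseq D i.val = q - 1 := by
        unfold cseq
        rw [if_neg (by omega), if_neg (by omega)]
        omega
      rw [e, Nat.cast_sub (by omega)]
      simp [cseq]
    · rw [hv, if_neg h]
      by_cases h0 : i.val = 0
      · refine ⟨D, by omega, by omega, ?_⟩
        rw [h0]; simp [cseq]
      · by_cases h1 : i.val = 1
        · refine ⟨D, by omega, by omega, ?_⟩
          rw [h1]; simp [cseq]; ring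
        · refine ⟨1, by omega, by omega, ?_⟩
          have e : cseq D (i.val + 1) = cseq D i.val + 1 := by
            unfold cseq
            rw [if_neg (by omega), if_neg (by omega), if_neg h0, if_neg h1]
            omega
          rw [e]; push_cast; ring
  obtain ⟨d, h1, h2, h3⟩ := key
  rw [h3]
  exact im_pos d h1 h2

/-- There is a complex matrix at which the block of two odd cycles is nonsingular. -/
theorem exists_block {p q : ℕ} [NeZero p] [NeZero q] (hp : Odd p) (hq : Odd q) (hp3 : 3 ≤ p)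
    (hq3 : 3 ≤ q) : ∃ x : ZMod p → ZMod q → ℂ, ∀ v : ZMod p → ZMod q → ℂ,
      (∀ i k, x (i + 1) (k + 1) * v i k + x i k * v (i + 1) (k + 1)
        - x (i + 1) k * v i (k + 1) - x i (k + 1) * v (i + 1) k = 0) → ∀ i k, v i k = 0 := by
  rcases le_total p q with h | h
  · obtain ⟨c, hc⟩ := exists_c hp hq hp3 h
    exact ⟨fun i k => ZMod.stdAddChar (c i * k), fun v hv => block_le hp hq c hc v hv⟩
  · obtain ⟨c, hc⟩ := exists_c hq hp hq3 h
    refine ⟨fun i k => ZMod.stdAddChar (c k * i), fun v hv i k => ?_⟩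
    exact block_le hq hp c hc (fun k i => v i k) (fun k i => by
      have := hv i k
      linear_combination this) k i

end Pool.Agent.V11124.Jac
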