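import Mathlib
import Pool.Agent.V11124.JacBlock

/-!
The generic determinant of a pair of odd cycles and its consequences over rational function
fields.
-/

namespace Pool.Agent.V11124.Jac

open MvPolynomial Function

section rows

variable {ι κ R : Type*} [DecidableEq ι] [DecidableEq κ] [CommRing R]

/-- The gradient of the two by two minor on rows `i, j` and columns `k, l`. -/
def jrow (x : ι → κ → R) (i j : ι) (k l : κ) : ι × κ → R :=
  Pi.single (i, k) (x j l) + Pi.single (j, l) (x i k) - Pi.single (i, l) (x j k)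
    - Pi.single (j, k) (x i l)

lemma jrow_dot [Fintype ι] [Fintype κ] (x : ι → κ → R) (i j : ι) (k l : κ) (v : ι × κ → R) :
    jrow x i j k l ⬝ᵥ v
      = x j l * v (i, k) + x i k * v (j, l) - x j k * v (i, l) - x i l * v (j, k) := by
  simp [jrow, sub_dotProduct, add_dotProduct]

lemma jrow_map {S : Type*} [CommRing S] (f : R →+* S) (x : ι → κ → R) (i j : ι) (k l : κ)
    (a : ι × κ) : f (jrow x i j k l a) = jrow (fun i k => f (x i k)) i j k l a := by
  simp [jrow, Pi.single_apply, apply_ite f]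

end rows

/-- The square matrix attached to two cycles. -/
def Bm (p q : ℕ) {R : Type*} [CommRing R] (x : ZMod p → ZMod q → R) :
    Matrix (ZMod p × ZMod q) (ZMod p × ZMod q) R :=
  Matrix.of fun a => jrow x a.1 (a.1 + 1) a.2 (a.2 + 1)

/-- The generic determinant. -/
noncomputable def Dm (p q : ℕ) [NeZero p] [NeZero q] : MvPolynomial (ZMod p × ZMod q) ℤ :=
  (Bm p q (fun i k => X (i, k))).det

lemma map_Dm {p q : ℕ} [NeZero p] [NeZero q] {R : Type*} [CommRing R]
    (f : MvPolynomial (ZMod p × ZMod q) ℤ →+* R) :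
    f (Dm p q) = (Bm p q (fun i k => f (X (i, k)))).det := by
  rw [Dm, RingHom.map_det]
  congr 1
  ext a b
  simp [Bm, jrow_map]

lemma Dm_ne_zero {p q : ℕ} [NeZero p] [NeZero q] (hp : Odd p) (hq : Odd q) (hp3 : 3 ≤ p)
    (hq3 : 3 ≤ q) : Dm p q ≠ 0 := by
  obtain ⟨x, hx⟩ := exists_block hp hq hp3 hq3
  intro h
  have h1 := map_Dm (aeval (R := ℤ) (fun a : ZMod p × ZMod q => x a.1 a.2)).toRingHom
  rw [h, map_zero] at h1
  have h2 : (Bm p q x).det = 0 := by
    rw [h1]
    simp
  obtain ⟨v, hv0, hv⟩ := Matrix.exists_mulVec_eq_zero_iff.2 h2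
  apply hv0
  ext a
  refine hx (fun i k => v (i, k)) (fun i k => ?_) a.1 a.2
  have h3 := congrFun hv (i, k)
  have h4 : (Bm p q x).mulVec v (i, k) = jrow x i (i + 1) k (k + 1) ⬝ᵥ v := rfl
  rw [h4, jrow_dot] at h3
  simpa using h3

/-- Good characteristics for a pair of odd lengths. -/
lemma exists_char_bound {p q : ℕ} [NeZero p] [NeZero q] (hp : Odd p) (hq : Odd q) (hp3 : 3 ≤ p)
    (hq3 : 3 ≤ q) : ∃ N : ℕ, ∀ (F : Type*) [Field F], (ringChar F = 0 ∨ N < ringChar F) →
      MvPolynomial.map (Int.castRingHom F) (Dm p q) ≠ 0 := by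
  obtain ⟨s, hs⟩ := MvPolynomial.exists_coeff_ne_zero (Dm_ne_zero hp hq hp3 hq3)
  refine ⟨(coeff s (Dm p q)).natAbs, ?_⟩
  intro F _ hF h
  have h1 : coeff s (MvPolynomial.map (Int.castRingHom F) (Dm p q)) = 0 := by rw [h]; simp
  rw [coeff_map, eq_intCast, CharP.intCast_eq_zero_iff F (ringChar F)] at h1
  rcases hF with hF | hF
  · rw [hF] at h1
    exact hs (by simpa using h1)
  · have := Int.natAbs_dvd_natAbs.2 h1
    rw [Int.natAbs_natCast] at this
    have := Nat.le_of_dvd (Int.natAbs_pos.2 hs) this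
    omega

section kernel

variable {F : Type*} [Field F] {α β : Type*} [Fintype α] [Fintype β] [DecidableEq α]
  [DecidableEq β]

/-- The rational function field. -/
abbrev RF (F : Type*) [Field F] (α β : Type*) := FractionRing (MvPolynomial (α × β) F)

/-- The generic matrix over the rational function field. -/
noncomputable def gx (F : Type*) [Field F] (α β : Type*) (a : α) (b : β) : RF F α β :=
  algebraMap (MvPolynomial (α × β) F) _ (X (a, b))

omit [Fintype α] [Fintype β] [DecidableEq α] [DecidableEq β] in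
lemma gx_ne_zero (a : α) (b : β) : gx F α β a b ≠ 0 := by
  intro h
  have := (IsFractionRing.injective (MvPolynomial (α × β) F) (RF F α β))
    (h.trans (map_zero _).symm)
  exact MvPolynomial.X_ne_zero _ this

lemma kernel_block {p q : ℕ} [NeZero p] [NeZero q]
    (hD : MvPolynomial.map (Int.castRingHom F) (Dm p q) ≠ 0) (φ : ZMod p → α) (ψ : ZMod q → β)
    (hφ : Injective φ) (hψ : Injective ψ) (v : α × β → RF F α β)
    (hv : ∀ i k, jrow (gx F α β) (φ i) (φ (i + 1)) (ψ k) (ψ (k + 1)) ⬝ᵥ v = 0) :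
    ∀ i k, v (φ i, ψ k) = 0 := by
  have hinj : Injective (Prod.map φ ψ) := hφ.prodMap hψ
  let f : MvPolynomial (ZMod p × ZMod q) ℤ →+* RF F α β :=
    (algebraMap (MvPolynomial (α × β) F) (RF F α β)).comp
      ((rename (Prod.map φ ψ)).toRingHom.comp (MvPolynomial.map (Int.castRingHom F)))
  have hf : f (Dm p q) ≠ 0 := by
    intro h
    have h1 := (IsFractionRing.injective (MvPolynomial (α × β) F) (RF F α β))
      (h.trans (map_zero _).symm)
    have h2 := rename_injective _ hinj (h1.trans (map_zero _).symm)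
    exact hD h2
  have hfX : ∀ i k, f (X (i, k)) = gx F α β (φ i) (ψ k) := by
    intro i k
    simp [f, gx]
  rw [map_Dm] at hf
  have h0 := Matrix.eq_zero_of_mulVec_eq_zero hf (v := fun a => v (φ a.1, ψ a.2)) (by
    ext ⟨i, k⟩
    have h4 : (Bm p q (fun i k => f (X (i, k)))).mulVec (fun a => v (φ a.1, ψ a.2)) (i, k)
      = jrow (fun i k => f (X (i, k))) i (i + 1) k (k + 1) ⬝ᵥ (fun a => v (φ a.1, ψ a.2)) := rfl
    rw [h4, jrow_dot]
    have h5 := hv i k
    rw [jrow_dot] at h5
    simp only [hfX]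
    simpa using h5)
  intro i k
  exact congrFun h0 (i, k)

end kernel

end Pool.Agent.V11124.Jac
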