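import Mathlib
import Pool.Agent.V11124.JacDet

/-!
Graph part: unions of odd cycles versus kernel vectors.
-/

namespace Pool.Agent.V11124.Jac

open Function SimpleGraph

section abs

variable {K : Type*} [Field K] {α β : Type*}

/-- The kernel equations. -/
def Eqs (G : SimpleGraph α) (H : SimpleGraph β) (x v : α → β → K) : Prop :=
  ∀ ⦃a b⦄, G.Adj a b → ∀ ⦃k l⦄, H.Adj k l →
    x b l * v a k + x a k * v b l - x b k * v a l - x a l * v b k = 0

/-- Nonsingularity: only the zero vector satisfies the kernel equations. -/
def NS (G : SimpleGraph α) (H : SimpleGraph β) (x : α → β → K) : Prop :=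
  ∀ v : α → β → K, Eqs G H x v → ∀ a k, v a k = 0

lemma NS.swap {G : SimpleGraph α} {H : SimpleGraph β} {x : α → β → K} (h : NS G H x) :
    NS H G (fun k a => x a k) := by
  intro v hv k a
  refine h (fun a k => v k a) ?_ a k
  intro a b hab k l hkl
  have := hv hkl hab
  linear_combination this

lemma NS.no_bip {G : SimpleGraph α} {H : SimpleGraph β} {x : α → β → K} (h : NS G H x)
    (hx : ∀ a k, x a k ≠ 0) (k0 : β) (s : α → K) (hs : ∀ a b, G.Adj a b → s a + s b = 0) (a : α) :
    s a = 0 := by
  have := h (fun a k => s a * x a k) (by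
    intro a b hab k l _
    have := hs a b hab
    linear_combination (x a k * x b l - x a l * x b k) * this) a k0
  exact (mul_eq_zero.1 this).resolve_right (hx _ _)

lemma NS.two_le_degree [Fintype α] {G : SimpleGraph α} [DecidableRel G.Adj] {H : SimpleGraph β}
    {x : α → β → K} (h : NS G H x) (hx : ∀ a k, x a k ≠ 0) (k0 : β)
    (hiso : ∀ a, ∃ b, G.Adj a b) (a : α) : 2 ≤ G.degree a := by
  classical
  by_contra hlt
  push Not at hlt
  obtain ⟨b, hab⟩ := hiso a
  have hpos : 0 < G.degree a := by
    rw [degree_pos_iff_exists_adj]; exact ⟨b, hab⟩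
  have h1 : G.degree a = 1 := by omega
  rw [degree_eq_one_iff_existsUnique_adj] at h1
  have huniq : ∀ c, G.Adj a c → c = b := fun c hc => h1.unique hc hab
  have key := h (fun c k => if c = a then x b k else 0) (by
    intro c d hcd k l _
    by_cases hc : c = a
    · have hd : d = b := huniq d (hc ▸ hcd)
      have hda : d ≠ a := fun h => by
        rw [h, hc] at hcd; exact hcd.ne rfl
      rw [hd] at hda
      simp only [hc, hd, if_true, if_neg hda]
      ring
    · by_cases hd : d = a
      · have hcb : c = b := huniq c (hd ▸ hcd.symm)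
        have hba : b ≠ a := hcb ▸ hc
        simp [hd, hcb, hba]
        ring
      · simp [hc, hd]) a k0
  simp only [if_true] at key
  exact hx _ _ key

end abs

/-- Every connected component is a cycle of odd length. -/
def IsOddCycleUnion {V : Type*} (G : SimpleGraph V) : Prop :=
  ∀ c : G.ConnectedComponent, ∃ k : ℕ, Nonempty (c.toSimpleGraph ≃g cycleGraph (2 * k + 3))

section cyc

variable {V : Type*} [Fintype V] {G : SimpleGraph V}

lemma zmod_neg_one_ne_one {L : ℕ} (hL : 3 ≤ L) : (1 : ZMod L) ≠ -1 := by
  intro h
  have h2 : ((2 : ℕ) : ZMod L) = 0 := by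
    push_cast
    linear_combination h
  rw [ZMod.natCast_eq_zero_iff] at h2
  have := Nat.le_of_dvd (by norm_num) h2
  omega

/-- In a two-regular graph each component is parametrised by a cyclic group. -/
lemma exists_param [DecidableRel G.Adj] (h2 : ∀ v, G.degree v = 2) (c : G.ConnectedComponent) :
    ∃ (L : ℕ) (_ : NeZero L) (φ : ZMod L → V), 3 ≤ L ∧ Injective φ ∧ Set.range φ = c.supp ∧
      ∀ i w, G.Adj (φ i) w ↔ w = φ (i + 1) ∨ w = φ (i - 1) := by
  classical
  have hcyc : G.IsCycles := by
    intro v _
    rw [← h2 v, ← card_neighborFinset_eq_degree, ← Set.ncard_coe_finset, coe_neighborFinset]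
  obtain ⟨v, hv⟩ := c.nonempty_supp
  have hn : (G.neighborSet v).Nonempty := by
    have : 0 < G.degree v := by rw [h2 v]; norm_num
    rw [degree_pos_iff_exists_adj] at this
    exact this
  obtain ⟨p, hp, hps⟩ := hcyc.exists_cycle_toSubgraph_verts_eq_connectedComponentSupp hv hn
  have hL : 3 ≤ p.length := hp.three_le_length
  have : NeZero p.length := ⟨by omega⟩
  set φ : ZMod p.length → V := fun i => p.getVert i.val with hφ
  have hinj : Injective φ := by
    intro i j hij
    have hi := ZMod.val_lt i
    have hj := ZMod.val_lt j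
    have := hp.getVert_injOn' (by rw [Set.mem_ofPred_eq]; omega)
      (by rw [Set.mem_ofPred_eq]; omega) hij
    exact ZMod.val_injective _ this
  have hval : ∀ i : ZMod p.length, (i + 1).val = if i.val + 1 = p.length then 0 else i.val + 1 := by
    intro i
    have hlt := ZMod.val_lt i
    have : Fact (1 < p.length) := ⟨by omega⟩
    rw [ZMod.val_add, ZMod.val_one]
    split_ifs with h
    · rw [h, Nat.mod_self]
    · rw [Nat.mod_eq_of_lt (by omega)]
  have hadj : ∀ i, G.Adj (φ i) (φ (i + 1)) := by
    intro i
    have hlt := ZMod.val_lt i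
    have h1 := p.adj_getVert_succ hlt
    have h2 : p.getVert (i.val + 1) = φ (i + 1) := by
      simp only [hφ, hval]
      split_ifs with h
      · rw [h]; simp
      · rfl
    rw [← h2]; exact h1
  have hadj' : ∀ i, G.Adj (φ i) (φ (i - 1)) := by
    intro i
    have := hadj (i - 1)
    rw [sub_add_cancel] at this
    exact this.symm
  refine ⟨p.length, inferInstance, φ, hL, hinj, ?_, ?_⟩
  · rw [← hps]
    ext w
    rw [Walk.mem_verts_toSubgraph]
    constructor
    · rintro ⟨i, rfl⟩
      exact p.getVert_mem_support _
    · intro hw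
      obtain ⟨j, hj, hjl⟩ := Walk.mem_support_iff_exists_getVert.1 hw
      by_cases hjL : j = p.length
      · refine ⟨0, ?_⟩
        rw [← hj, hjL]; simp [hφ]
      · refine ⟨(j : ZMod p.length), ?_⟩
        simp only [hφ]
        rw [ZMod.val_natCast, Nat.mod_eq_of_lt (by omega), hj]
  · intro i w
    constructor
    · intro hw
      by_contra hne
      push Not at hne
      have hsub : ({φ (i + 1), φ (i - 1), w} : Finset V) ⊆ G.neighborFinset (φ i) := by
        intro y hy
        simp only [Finset.mem_insert, Finset.mem_singleton] at hy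
        rw [mem_neighborFinset]
        rcases hy with rfl | rfl | rfl
        · exact hadj i
        · exact hadj' i
        · exact hw
      have hcard := Finset.card_le_card hsub
      rw [card_neighborFinset_eq_degree, h2] at hcard
      have h12 : φ (i + 1) ≠ φ (i - 1) := by
        intro h
        have := hinj h
        have h3 : (1 : ZMod p.length) = -1 := by linear_combination this
        exact zmod_neg_one_ne_one hL h3
      rw [Finset.card_insert_of_notMem, Finset.card_insert_of_notMem, Finset.card_singleton]
        at hcard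
      · omega
      · simp only [Finset.mem_singleton]; exact fun h => hne.2 h.symm
      · simp only [Finset.mem_insert, Finset.mem_singleton]
        push Not
        exact ⟨h12, fun h => hne.1 h.symm⟩
    · rintro (rfl | rfl)
      · exact hadj i
      · exact hadj' i

omit [Fintype V] in
/-- An even parametrised component carries a nonzero alternating function. -/
lemma alt_of_even {K : Type*} [Field K] {L : ℕ} [NeZero L] (hev : Even L) (φ : ZMod L → V)
    (hinj : Injective φ) (hadj : ∀ i w, G.Adj (φ i) w ↔ w = φ (i + 1) ∨ w = φ (i - 1)) :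
    ∃ s : V → K, (∀ a b, G.Adj a b → s a + s b = 0) ∧ s (φ 0) ≠ 0 := by
  classical
  let π : ZMod L →+* ZMod 2 := ZMod.castHom hev.two_dvd (ZMod 2)
  let t : ZMod 2 → K := fun z => if z = 0 then 1 else -1
  have ht : ∀ z, t (z + 1) = - t z := by
    intro z
    fin_cases z
    · show (if (0 : ZMod 2) + 1 = 0 then (1 : K) else -1) = -(if (0 : ZMod 2) = 0 then 1 else -1)
      rw [if_neg (by decide), if_pos rfl]
    · show (if (1 : ZMod 2) + 1 = 0 then (1 : K) else -1) = -(if (1 : ZMod 2) = 0 then 1 else -1)
      rw [if_pos (by decide), if_neg (by decide)]; simp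
  let s : V → K := fun a => if h : ∃ i, φ i = a then t (π h.choose) else 0
  have hs : ∀ i, s (φ i) = t (π i) := by
    intro i
    have h : ∃ j, φ j = φ i := ⟨i, rfl⟩
    show (if h : ∃ j, φ j = φ i then t (π h.choose) else 0) = _
    rw [dif_pos h]
    congr 2
    exact hinj h.choose_spec
  have hs0 : ∀ a, (¬ ∃ i, φ i = a) → s a = 0 := by
    intro a h
    show (if h : ∃ j, φ j = a then t (π h.choose) else 0) = _
    rw [dif_neg h]
  refine ⟨s, ?_, ?_⟩
  · intro a b hab
    by_cases ha : ∃ i, φ i = a
    · obtain ⟨i, rfl⟩ := ha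
      rcases (hadj i b).1 hab with rfl | rfl
      · rw [hs, hs, map_add, map_one, ht]; ring
      · have := ht (π (i - 1))
        rw [← map_one π, ← map_add, sub_add_cancel] at this
        rw [hs, hs, this]; ring
    · have hb : ¬ ∃ i, φ i = b := by
        rintro ⟨i, rfl⟩
        rcases (hadj i a).1 hab.symm with h | h
        · exact ha ⟨_, h.symm⟩
        · exact ha ⟨_, h.symm⟩
      rw [hs0 a ha, hs0 b hb]; simp
  · rw [hs, map_zero]
    show (if (0 : ZMod 2) = 0 then (1 : K) else -1) ≠ 0
    rw [if_pos rfl]; exact one_ne_zero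

omit [Fintype V] in
lemma iso_of_param {k : ℕ} {c : G.ConnectedComponent} (φ : ZMod (2 * k + 3) → V)
    (hinj : Injective φ) (hr : Set.range φ = c.supp)
    (hadj : ∀ i w, G.Adj (φ i) w ↔ w = φ (i + 1) ∨ w = φ (i - 1)) :
    Nonempty (c.toSimpleGraph ≃g cycleGraph (2 * k + 3)) := by
  let θ := ZMod.finEquiv (2 * k + 3)
  have hmem : ∀ i, φ i ∈ c.supp := fun i => hr ▸ ⟨i, rfl⟩
  let f : Fin (2 * k + 3) → c.supp := fun i => ⟨φ (θ i), hmem _⟩
  have hf : Bijective f := by
    constructor
    · intro i j hij
      have := congrArg Subtype.val hij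
      exact θ.injective (hinj this)
    · rintro ⟨w, hw⟩
      rw [← hr] at hw
      obtain ⟨i, rfl⟩ := hw
      refine ⟨θ.symm i, ?_⟩
      apply Subtype.ext
      show φ (θ (θ.symm i)) = φ i
      rw [RingEquiv.apply_symm_apply]
  refine ⟨RelIso.symm ⟨Equiv.ofBijective f hf, ?_⟩⟩
  intro i j
  show G.Adj (φ (θ i)) (φ (θ j)) ↔ (cycleGraph (2 * k + 3)).Adj i j
  rw [hadj, cycleGraph_adj (n := 2 * k + 1)]
  constructor
  · rintro (h | h)
    · right
      have := hinj h
      apply θ.injective
      rw [map_sub, map_one, this]; ring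
    · left
      have := hinj h
      apply θ.injective
      rw [map_sub, map_one, this]; ring
  · rintro (h | h)
    · right
      congr 1
      have := congrArg θ h
      rw [map_sub, map_one] at this
      linear_combination -this
    · left
      congr 1
      have := congrArg θ h
      rw [map_sub, map_one] at this
      linear_combination this

omit [Fintype V] in
/-- A union of odd cycles, seen from a vertex. -/
lemma IsOddCycleUnion.exists_param (h : IsOddCycleUnion G) (a : V) :
    ∃ (p : ℕ) (_ : NeZero p) (φ : ZMod p → V), Odd p ∧ 3 ≤ p ∧ Injective φ ∧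
      (∀ i, G.Adj (φ i) (φ (i + 1))) ∧ ∃ i, φ i = a ∧
        ∀ w, G.Adj a w → w = φ (i + 1) ∨ w = φ (i - 1) := by
  obtain ⟨k, ⟨e⟩⟩ := h (G.connectedComponentMk a)
  let θ := ZMod.finEquiv (2 * k + 3)
  let φ : ZMod (2 * k + 3) → V := fun i => (e.symm (θ.symm i)).1
  have ha : a ∈ (G.connectedComponentMk a).supp := rfl
  refine ⟨2 * k + 3, inferInstance, φ, ⟨k + 1, by ring⟩, by omega, ?_, ?_, ?_⟩
  · intro i j hij
    exact θ.symm.injective (e.symm.injective (Subtype.ext hij))
  · intro i
    have h1 : (cycleGraph (2 * k + 3)).Adj (θ.symm i) (θ.symm (i + 1)) := by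
      rw [cycleGraph_adj (n := 2 * k + 1)]
      right
      apply θ.injective
      rw [map_sub, map_one, RingEquiv.apply_symm_apply, RingEquiv.apply_symm_apply]; ring
    have h2 := (e.symm.map_rel_iff (a := θ.symm i) (b := θ.symm (i + 1))).2 h1
    exact h2
  · refine ⟨θ (e ⟨a, ha⟩), ?_, ?_⟩
    · show (e.symm (θ.symm (θ (e ⟨a, ha⟩)))).1 = a
      rw [RingEquiv.symm_apply_apply, RelIso.symm_apply_apply]
    · intro w hw
      have hwm : w ∈ (G.connectedComponentMk a).supp := by
        rw [ConnectedComponent.mem_supp_iff, ConnectedComponent.eq]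
        exact hw.symm.reachable
      have h1 : (G.connectedComponentMk a).toSimpleGraph.Adj ⟨a, ha⟩ ⟨w, hwm⟩ := hw
      have h2 := (e.map_rel_iff (a := ⟨a, ha⟩) (b := ⟨w, hwm⟩)).2 h1
      rw [cycleGraph_adj (n := 2 * k + 1)] at h2
      have hw' : w = (e.symm (θ.symm (θ (e ⟨w, hwm⟩)))).1 := by
        rw [RingEquiv.symm_apply_apply, RelIso.symm_apply_apply]
      rcases h2 with h2 | h2
      · right
        rw [hw']
        show φ _ = φ _
        congr 1
        have := congrArg θ h2
        rw [map_sub, map_one] at this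
        linear_combination -this
      · left
        rw [hw']
        show φ _ = φ _
        congr 1
        have := congrArg θ h2
        rw [map_sub, map_one] at this
        linear_combination this

lemma IsOddCycleUnion.degree_le [DecidableRel G.Adj] (h : IsOddCycleUnion G) (a : V) :
    G.degree a ≤ 2 := by
  classical
  obtain ⟨p, _, φ, -, -, -, -, i, -, hw⟩ := h.exists_param a
  rw [← card_neighborFinset_eq_degree]
  have : G.neighborFinset a ⊆ {φ (i + 1), φ (i - 1)} := by
    intro w hw'
    rw [mem_neighborFinset] at hw'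
    simpa using hw w hw'
  exact (Finset.card_le_card this).trans Finset.card_le_two

end cyc

end Pool.Agent.V11124.Jac
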