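import Mathlib
import Pool.Agent.V11124.JacGraph

/-!
The Jacobian matrix of the generators of the binomial edge ideal of a pair of graphs, its basis
property, and the characterisation by unions of odd cycles.
-/

namespace Pool.Agent.V11124.Jac

open Function SimpleGraph MvPolynomial

universe u

section defs

variable (F : Type u) [Field F] {n m : ℕ}

/-- The generator attached to an edge `e = {i, j}`, `i < j`, and an edge `e' = {k, l}`, `k < l`:
the binomial `x_{i,k} x_{j,l} - x_{i,l} x_{j,k}`.  (`inf` and `sup` are the smaller and the larger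
end of an edge.) -/
noncomputable def gen (e : Sym2 (Fin n)) (e' : Sym2 (Fin m)) : MvPolynomial (Fin n × Fin m) F :=
  X (e.inf, e'.inf) * X (e.sup, e'.sup) - X (e.inf, e'.sup) * X (e.sup, e'.inf)

/-- The row of the Jacobian matrix indexed by `(e, e')`, over the field of rational functions. -/
noncomputable def jacRow (e : Sym2 (Fin n)) (e' : Sym2 (Fin m)) :
    Fin n × Fin m → FractionRing (MvPolynomial (Fin n × Fin m) F) :=
  fun ab => algebraMap (MvPolynomial (Fin n × Fin m) F) _ (pderiv ab (gen F e e'))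

/-- The rows of the Jacobian matrix of `(G, H)`, indexed by pairs of edges. -/
noncomputable def jacRows (G : SimpleGraph (Fin n)) (H : SimpleGraph (Fin m)) :
    G.edgeSet × H.edgeSet → (Fin n × Fin m → FractionRing (MvPolynomial (Fin n × Fin m) F)) :=
  fun r => jacRow F (r.1 : Sym2 (Fin n)) (r.2 : Sym2 (Fin m))

/-- The basis property: the rows of the Jacobian matrix of `(G, H)` are linearly independent and
span the row space of the Jacobian matrix of the pair of complete graphs. -/
def BasisProperty (G : SimpleGraph (Fin n)) (H : SimpleGraph (Fin m)) : Prop :=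
  LinearIndependent (FractionRing (MvPolynomial (Fin n × Fin m) F)) (jacRows F G H) ∧
    Submodule.span (FractionRing (MvPolynomial (Fin n × Fin m) F)) (Set.range (jacRows F G H)) =
      Submodule.span (FractionRing (MvPolynomial (Fin n × Fin m) F))
        (Set.range (jacRows F (⊤ : SimpleGraph (Fin n)) (⊤ : SimpleGraph (Fin m))))

end defs

section linalg

variable {K : Type*} [Field K] {ι κ : Type*} [Fintype κ] [DecidableEq κ]

lemma span_top_of_kernel (r : ι → (κ → K)) (h : ∀ v : κ → K, (∀ i, r i ⬝ᵥ v = 0) → v = 0) :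
    Submodule.span K (Set.range r) = ⊤ := by
  by_contra hne
  obtain ⟨f, hf0, hle⟩ := Submodule.exists_le_ker_of_lt_top _ (lt_top_iff_ne_top.2 hne)
  have hfv : ∀ w : κ → K, f w = w ⬝ᵥ (fun a => f (Pi.single a 1)) := by
    intro w
    rw [LinearMap.pi_apply_eq_sum_univ f w]
    simp only [dotProduct, smul_eq_mul]
    refine Finset.sum_congr rfl (fun a _ => ?_)
    congr 2
    ext b
    simp [Pi.single_apply, eq_comm]
  apply hf0
  have h0 := h (fun a => f (Pi.single a 1)) (fun i => by
    rw [← hfv]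
    exact hle (Submodule.subset_span ⟨i, rfl⟩))
  ext a
  simpa using congrFun h0 a

lemma kernel_of_span_top (r : ι → (κ → K)) (h : Submodule.span K (Set.range r) = ⊤) (v : κ → K)
    (hv : ∀ i, r i ⬝ᵥ v = 0) : v = 0 := by
  have key : ∀ w ∈ Submodule.span K (Set.range r), w ⬝ᵥ v = 0 := by
    intro w hw
    induction hw using Submodule.span_induction with
    | mem x hx => obtain ⟨i, rfl⟩ := hx; exact hv i
    | zero => simp
    | add x y _ _ hx hy => rw [add_dotProduct, hx, hy, add_zero]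
    | smul a x _ hx => rw [smul_dotProduct, hx, smul_zero]
  ext a
  have := key (Pi.single a 1) (h ▸ Submodule.mem_top)
  simpa using this

end linalg

section main

variable {F : Type u} [Field F] {n m : ℕ}

lemma jacRow_eq (e : Sym2 (Fin n)) (e' : Sym2 (Fin m)) :
    jacRow F e e' = jrow (gx F (Fin n) (Fin m)) e.inf e.sup e'.inf e'.sup := by
  funext ab
  simp only [jacRow, gen, jrow, gx, map_sub, Derivation.leibniz, pderiv_X, smul_eq_mul,
    Pi.single_apply, map_add, map_mul, Pi.add_apply, Pi.sub_apply]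
  simp only [eq_comm (b := ab), apply_ite (algebraMap (MvPolynomial (Fin n × Fin m) F)
    (FractionRing (MvPolynomial (Fin n × Fin m) F))), map_one, map_zero, mul_ite, mul_one,
    mul_zero]
  ring

lemma jacRow_dot (a b : Fin n) (k l : Fin m)
    (v : Fin n × Fin m → FractionRing (MvPolynomial (Fin n × Fin m) F)) :
    jacRow F s(a, b) s(k, l) ⬝ᵥ v = 0 ↔
      gx F _ _ b l * v (a, k) + gx F _ _ a k * v (b, l) - gx F _ _ b k * v (a, l)
        - gx F _ _ a l * v (b, k) = 0 := by
  rw [jacRow_eq, jrow_dot, Sym2.inf_mk, Sym2.sup_mk, Sym2.inf_mk, Sym2.sup_mk]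
  rcases le_total a b with h1 | h1 <;> rcases le_total k l with h2 | h2 <;>
    simp only [inf_eq_left.2, inf_eq_right.2, sup_eq_left.2, sup_eq_right.2, h1, h2] <;>
    constructor <;> intro h <;> first
      | linear_combination h
      | linear_combination -h

lemma rows_iff (G : SimpleGraph (Fin n)) (H : SimpleGraph (Fin m))
    (v : Fin n × Fin m → FractionRing (MvPolynomial (Fin n × Fin m) F)) :
    (∀ r, jacRows F G H r ⬝ᵥ v = 0) ↔ Eqs G H (gx F (Fin n) (Fin m)) (fun a k => v (a, k)) := by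
  constructor
  · intro h a b hab k l hkl
    exact (jacRow_dot a b k l v).1 (h (⟨s(a, b), hab⟩, ⟨s(k, l), hkl⟩))
  · rintro h ⟨⟨e, he⟩, ⟨e', he'⟩⟩
    induction e using Sym2.ind with
    | _ a b =>
      induction e' using Sym2.ind with
      | _ k l => exact (jacRow_dot a b k l v).2 (h he he')

lemma span_iff_NS (G : SimpleGraph (Fin n)) (H : SimpleGraph (Fin m)) :
    Submodule.span (FractionRing (MvPolynomial (Fin n × Fin m) F)) (Set.range (jacRows F G H)) = ⊤
      ↔ NS G H (gx F (Fin n) (Fin m)) := by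
  constructor
  · intro h v hv a k
    exact congrFun (kernel_of_span_top _ h (fun ab => v ab.1 ab.2)
      ((rows_iff G H (fun ab => v ab.1 ab.2)).2 hv)) (a, k)
  · intro h
    apply span_top_of_kernel
    intro v hv
    ext ⟨a, k⟩
    exact h (fun a k => v (a, k)) ((rows_iff G H v).1 hv) a k

/-- Every vertex lies on an odd closed cyclic sequence of distinct vertices. -/
def Cov {V : Type*} (G : SimpleGraph V) : Prop :=
  ∀ a, ∃ (p : ℕ) (_ : NeZero p) (φ : ZMod p → V), Odd p ∧ 3 ≤ p ∧ Injective φ ∧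
      (∀ i, G.Adj (φ i) (φ (i + 1))) ∧ ∃ i, φ i = a

lemma IsOddCycleUnion.cov {V : Type*} {G : SimpleGraph V} (h : IsOddCycleUnion G) : Cov G := by
  intro a
  obtain ⟨p, hp, φ, h1, h2, h3, h4, i, h5, -⟩ := h.exists_param a
  exact ⟨p, hp, φ, h1, h2, h3, h4, i, h5⟩

lemma cov_top (hn : 3 ≤ n) : Cov (⊤ : SimpleGraph (Fin n)) := by
  intro a
  have hlt : ∀ i : ZMod 3, i.val < n := fun i => lt_of_lt_of_le (ZMod.val_lt i) hn
  let φ : ZMod 3 → Fin n := fun i => Equiv.swap (⟨0, by omega⟩ : Fin n) a ⟨i.val, hlt i⟩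
  have hinj : Injective φ := by
    intro i j hij
    have := (Equiv.swap (⟨0, by omega⟩ : Fin n) a).injective hij
    exact ZMod.val_injective 3 (Fin.mk.inj_iff.1 this)
  refine ⟨3, inferInstance, φ, by decide, le_refl 3, hinj, ?_, 0, ?_⟩
  · intro i
    rw [top_adj]
    intro h
    have h1 := hinj h
    have h2 : (1 : ZMod 3) = 0 := by linear_combination -h1
    exact absurd h2 (by decide)
  · show Equiv.swap (⟨0, by omega⟩ : Fin n) a ⟨(0 : ZMod 3).val, hlt 0⟩ = a
    have : (⟨(0 : ZMod 3).val, hlt 0⟩ : Fin n) = ⟨0, by omega⟩ := by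
      apply Fin.ext; simp
    rw [this, Equiv.swap_apply_left]

/-- The characteristic condition used below. -/
def GoodField (F : Type u) [Field F] (n m : ℕ) : Prop :=
  ∀ (p q : ℕ) [NeZero p] [NeZero q], Odd p → Odd q → 3 ≤ p → 3 ≤ q → p ≤ n → q ≤ m →
    MvPolynomial.map (Int.castRingHom F) (Dm p q) ≠ 0

lemma NS_of_cov (hF : GoodField F n m) {G : SimpleGraph (Fin n)} {H : SimpleGraph (Fin m)}
    (hG : Cov G) (hH : Cov H) : NS G H (gx F (Fin n) (Fin m)) := by
  intro v hv a k
  obtain ⟨p, _, φ, hp, hp3, hφ, hφa, i, rfl⟩ := hG a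
  obtain ⟨q, _, ψ, hq, hq3, hψ, hψa, j, rfl⟩ := hH k
  have hpn : p ≤ n := by
    have := Fintype.card_le_of_injective φ hφ
    rwa [ZMod.card, Fintype.card_fin] at this
  have hqm : q ≤ m := by
    have := Fintype.card_le_of_injective ψ hψ
    rwa [ZMod.card, Fintype.card_fin] at this
  have := kernel_block (hF p q hp hq hp3 hq3 hpn hqm) φ ψ hφ hψ (fun ab => v ab.1 ab.2) (by
    intro i k
    rw [jrow_dot]
    exact hv (hφa i) (hψa k))
  exact this i j

lemma span_top (hF : GoodField F n m) (hn : 3 ≤ n) (hm : 3 ≤ m) :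
    Submodule.span (FractionRing (MvPolynomial (Fin n × Fin m) F))
        (Set.range (jacRows F (⊤ : SimpleGraph (Fin n)) (⊤ : SimpleGraph (Fin m)))) = ⊤ :=
  (span_iff_NS _ _).2 (NS_of_cov hF (cov_top hn) (cov_top hm))

lemma card_edges_le (G : SimpleGraph (Fin n)) [DecidableRel G.Adj] (h : IsOddCycleUnion G) :
    Fintype.card G.edgeSet ≤ n := by
  have h1 := G.sum_degrees_eq_twice_card_edges
  have h2 : ∑ v, G.degree v ≤ ∑ _v : Fin n, 2 := Finset.sum_le_sum (fun v _ => h.degree_le v)
  simp only [Finset.sum_const, Finset.card_univ, Fintype.card_fin, smul_eq_mul] at h2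
  have h3 : Fintype.card G.edgeSet = G.edgeFinset.card := by
    rw [edgeFinset_card]
  rw [h3]
  omega

lemma if_part (hF : GoodField F n m) (hn : 3 ≤ n) (hm : 3 ≤ m) {G : SimpleGraph (Fin n)}
    {H : SimpleGraph (Fin m)} (hG : IsOddCycleUnion G) (hH : IsOddCycleUnion H) :
    BasisProperty F G H := by
  classical
  have hs := (span_iff_NS G H).2 (NS_of_cov hF hG.cov hH.cov)
  refine ⟨?_, hs.trans (span_top hF hn hm).symm⟩
  apply linearIndependent_of_top_le_span_of_card_le_finrank hs.ge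
  rw [Fintype.card_prod, Module.finrank_fintype_fun_eq_card, Fintype.card_prod, Fintype.card_fin,
    Fintype.card_fin]
  exact Nat.mul_le_mul (card_edges_le G hG) (card_edges_le H hH)

lemma two_regular_of_NS {K : Type*} [Field K] {α : Type*} [Fintype α] [Nonempty α]
    {G : SimpleGraph α} [DecidableRel G.Adj]
    (h2 : ∀ a, 2 ≤ G.degree a) (hc : G.edgeFinset.card ≤ Fintype.card α) :
    ∀ a, G.degree a = 2 := by
  have h1 := G.sum_degrees_eq_twice_card_edges
  have h3 : ∑ v, G.degree v ≤ ∑ _v : α, 2 := by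
    rw [h1]; simp only [Finset.sum_const, Finset.card_univ, smul_eq_mul]; omega
  have h4 : ∑ _v : α, 2 ≤ ∑ v, G.degree v := Finset.sum_le_sum (fun v _ => h2 v)
  have h5 := (Finset.sum_eq_sum_iff_of_le (fun v (_ : v ∈ Finset.univ) => h2 v)).1
    (le_antisymm h4 h3)
  intro a
  exact (h5 a (Finset.mem_univ a)).symm

lemma odd_of_NS {K : Type*} [Field K] {α β : Type*} [Fintype α] {G : SimpleGraph α}
    [DecidableRel G.Adj] {H : SimpleGraph β} {x : α → β → K} (h : NS G H x)
    (hx : ∀ a k, x a k ≠ 0) (k0 : β) (h2 : ∀ a, G.degree a = 2) : IsOddCycleUnion G := by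
  intro c
  obtain ⟨L, _, φ, hL, hinj, hr, hadj⟩ := exists_param h2 c
  rcases Nat.even_or_odd L with hev | hodd
  · obtain ⟨s, hs, hs0⟩ := alt_of_even (K := K) hev φ hinj hadj
    exact absurd (h.no_bip hx k0 s hs (φ 0)) hs0
  · obtain ⟨k, rfl⟩ : ∃ k, L = 2 * k + 3 := by
      obtain ⟨j, hj⟩ := hodd
      exact ⟨j - 1, by omega⟩
    exact ⟨k, iso_of_param φ hinj hr hadj⟩

lemma only_if_part (hF : GoodField F n m) (hn : 3 ≤ n) (hm : 3 ≤ m) {G : SimpleGraph (Fin n)}
    {H : SimpleGraph (Fin m)} (hGi : ∀ a, ∃ b, G.Adj a b) (hHi : ∀ a, ∃ b, H.Adj a b)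
    (h : BasisProperty F G H) : IsOddCycleUnion G ∧ IsOddCycleUnion H := by
  classical
  have hs : Submodule.span (FractionRing (MvPolynomial (Fin n × Fin m) F))
      (Set.range (jacRows F G H)) = ⊤ := h.2.trans (span_top hF hn hm)
  have hNS := (span_iff_NS G H).1 hs
  have hx : ∀ a k, gx F (Fin n) (Fin m) a k ≠ 0 := fun a k => gx_ne_zero a k
  have : Nonempty (Fin n) := ⟨⟨0, by omega⟩⟩
  have : Nonempty (Fin m) := ⟨⟨0, by omega⟩⟩
  have k0 : Fin m := ⟨0, by omega⟩
  have a0 : Fin n := ⟨0, by omega⟩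
  have hG2 := hNS.two_le_degree hx k0 hGi
  have hH2 := hNS.swap.two_le_degree (fun k a => hx a k) a0 hHi
  have hcard := h.1.fintype_card_le_finrank
  rw [Fintype.card_prod, Module.finrank_fintype_fun_eq_card, Fintype.card_prod, Fintype.card_fin,
    Fintype.card_fin, ← edgeFinset_card, ← edgeFinset_card] at hcard
  have e1 : n ≤ G.edgeFinset.card := by
    have h1 := G.sum_degrees_eq_twice_card_edges
    have h4 : ∑ _v : Fin n, 2 ≤ ∑ v, G.degree v := Finset.sum_le_sum (fun v _ => hG2 v)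
    simp only [Finset.sum_const, Finset.card_univ, Fintype.card_fin, smul_eq_mul] at h4
    omega
  have e2 : m ≤ H.edgeFinset.card := by
    have h1 := H.sum_degrees_eq_twice_card_edges
    have h4 : ∑ _v : Fin m, 2 ≤ ∑ v, H.degree v := Finset.sum_le_sum (fun v _ => hH2 v)
    simp only [Finset.sum_const, Finset.card_univ, Fintype.card_fin, smul_eq_mul] at h4
    omega
  have e3 : G.edgeFinset.card ≤ n := by
    by_contra hlt
    push Not at hlt
    have : (n + 1) * m ≤ G.edgeFinset.card * H.edgeFinset.card := Nat.mul_le_mul hlt e2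
    have : (n + 1) * m ≤ n * m := this.trans hcard
    have : n + 1 ≤ n := Nat.le_of_mul_le_mul_right this (by omega)
    omega
  have e4 : H.edgeFinset.card ≤ m := by
    by_contra hlt
    push Not at hlt
    have : n * (m + 1) ≤ G.edgeFinset.card * H.edgeFinset.card := Nat.mul_le_mul e1 hlt
    have : n * (m + 1) ≤ n * m := this.trans hcard
    have : m + 1 ≤ m := Nat.le_of_mul_le_mul_left this (by omega)
    omega
  have d1 : ∀ a, G.degree a = 2 :=
    two_regular_of_NS (K := F) hG2 (by rw [Fintype.card_fin]; exact e3)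
  have d2 : ∀ a, H.degree a = 2 :=
    two_regular_of_NS (K := F) hH2 (by rw [Fintype.card_fin]; exact e4)
  exact ⟨odd_of_NS hNS hx k0 d1, odd_of_NS hNS.swap (fun k a => hx a k) a0 d2⟩

lemma exists_good (n m : ℕ) : ∃ N : ℕ, ∀ (F : Type u) [Field F],
    (ringChar F = 0 ∨ N < ringChar F) → GoodField F n m := by
  have key : ∀ p q : ℕ, ∃ N : ℕ, ∀ (F : Type u) [Field F], (ringChar F = 0 ∨ N < ringChar F) →
      ∀ [NeZero p] [NeZero q], Odd p → Odd q → 3 ≤ p → 3 ≤ q →
        MvPolynomial.map (Int.castRingHom F) (Dm p q) ≠ 0 := by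
    intro p q
    by_cases h : Odd p ∧ Odd q ∧ 3 ≤ p ∧ 3 ≤ q
    · obtain ⟨h1, h2, h3, h4⟩ := h
      have : NeZero p := ⟨by omega⟩
      have : NeZero q := ⟨by omega⟩
      obtain ⟨N, hN⟩ := exists_char_bound.{u} h1 h2 h3 h4
      refine ⟨N, ?_⟩
      intro F _ hF _ _ _ _ _ _
      exact hN F hF
    · refine ⟨0, ?_⟩
      intro F _ _ _ _ h1 h2 h3 h4
      exact absurd ⟨h1, h2, h3, h4⟩ h
  choose f hf using key
  refine ⟨∑ p ∈ Finset.range (n + 1), ∑ q ∈ Finset.range (m + 1), f p q, ?_⟩
  intro F _ hF p q _ _ hp hq hp3 hq3 hpn hqm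
  apply hf p q F _ hp hq hp3 hq3
  rcases hF with hF | hF
  · exact Or.inl hF
  · right
    refine lt_of_le_of_lt ?_ hF
    calc f p q ≤ ∑ q ∈ Finset.range (m + 1), f p q :=
          Finset.single_le_sum (f := fun q => f p q) (fun _ _ => Nat.zero_le _)
            (Finset.mem_range.2 (by omega))
      _ ≤ ∑ p ∈ Finset.range (n + 1), ∑ q ∈ Finset.range (m + 1), f p q :=
          Finset.single_le_sum (f := fun p => ∑ q ∈ Finset.range (m + 1), f p q)
            (fun _ _ => Nat.zero_le _) (Finset.mem_range.2 (by omega))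

theorem main_iff (n m : ℕ) (hn : 3 ≤ n) (hm : 3 ≤ m) : ∃ N : ℕ, ∀ (F : Type u) [Field F],
    (ringChar F = 0 ∨ N < ringChar F) → ∀ (G : SimpleGraph (Fin n)) (H : SimpleGraph (Fin m)),
      (∀ a, ∃ b, G.Adj a b) → (∀ a, ∃ b, H.Adj a b) →
        (BasisProperty F G H ↔ IsOddCycleUnion G ∧ IsOddCycleUnion H) := by
  obtain ⟨N, hN⟩ := exists_good.{u} n m
  refine ⟨N, ?_⟩
  intro F _ hF G H hG hH
  exact ⟨only_if_part (hN F hF) hn hm hG hH, fun h => if_part (hN F hF) hn hm h.1 h.2⟩

end main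

end Pool.Agent.V11124.Jac
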