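import Mathlib

open SimpleGraph

namespace Pool.Agent.V11124.CoronaDefs

/-- `N(X)`, the vertices adjacent to at least one vertex of `X`. -/
def nbhd {V : Type} (G : SimpleGraph V) (X : Set V) : Set V := {v | ∃ x ∈ X, G.Adj x v}

/-- union of the maximum independent sets -/
def corona {V : Type} [Fintype V] (G : SimpleGraph V) : Set V :=
  {v | ∃ S : Finset V, G.IsMaximumIndepSet S ∧ v ∈ S}

/-- intersection of the maximum independent sets -/
def core {V : Type} [Fintype V] (G : SimpleGraph V) : Set V :=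
  {v | ∀ S : Finset V, G.IsMaximumIndepSet S → v ∈ S}

/-- `d_G(X) = |X| - |N(X)|` -/
noncomputable def dd {V : Type} (G : SimpleGraph V) (X : Set V) : ℤ :=
  (X.ncard : ℤ) - ((nbhd G X).ncard : ℤ)

/-- `X` is a critical independent set -/
def IsCritical {V : Type} (G : SimpleGraph V) (X : Set V) : Prop :=
  G.IsIndepSet X ∧ ∀ Y : Set V, G.IsIndepSet Y → dd G Y ≤ dd G X

/-- intersection of the critical independent sets -/
def ker {V : Type} (G : SimpleGraph V) : Set V := {v | ∀ X : Set V, IsCritical G X → v ∈ X}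

/-- the odd cycles of `G`, each given by its edge set -/
def oddCycles {V : Type} (G : SimpleGraph V) : Set (Set (Sym2 V)) :=
  {C | ∃ (v : V) (w : G.Walk v v), w.IsCycle ∧ Odd w.length ∧ C = {e | e ∈ w.edges}}

/-- `D(G)`: the vertices left uncovered by some maximum matching -/
def DD {V : Type} (G : SimpleGraph V) : Set V :=
  {v | ∃ M : G.Subgraph, M.IsMatching ∧
    (∀ M' : G.Subgraph, M'.IsMatching → M'.edgeSet.ncard ≤ M.edgeSet.ncard) ∧ v ∉ M.verts}

/-- the largest number of pairwise vertex-disjoint odd cycles (given by their vertex sets) -/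
noncomputable def disjointOddCycles {V : Type} (G : SimpleGraph V) : ℕ :=
  sSup {m | ∃ F : Finset (Set V), F.card = m ∧
    (∀ C ∈ F, ∃ (v : V) (w : G.Walk v v), w.IsCycle ∧ Odd w.length ∧ C = {x | x ∈ w.support}) ∧
    ∀ C ∈ F, ∀ D ∈ F, C ≠ D → Disjoint C D}

end Pool.Agent.V11124.CoronaDefs
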