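import Mathlib

/-! Kernel-checkable enumeration of simple paths in small graphs on `Fin n` (vertices coded by
natural numbers). -/

namespace Pool.Agent.V11124.PathEnum

open SimpleGraph

/-- extend reversed paths by one vertex -/
def ext1 (nb : ℕ → List ℕ) : List ℕ → List (List ℕ)
  | [] => []
  | a :: t => (nb a).filterMap (fun b => if (a :: t).contains b then none else some (b :: a :: t))

def ext (nb : ℕ → List ℕ) (ps : List (List ℕ)) : List (List ℕ) := ps.flatMap (ext1 nb)

/-- all (reversed) simple paths with `l` edges starting at `s` -/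
def paths (nb : ℕ → List ℕ) (s : ℕ) : ℕ → List (List ℕ)
  | 0 => [[s]]
  | l + 1 => ext nb (paths nb s l)

theorem mem_ext {nb : ℕ → List ℕ} {ps : List (List ℕ)} {a b : ℕ} {t : List ℕ} (h : a :: t ∈ ps) (hb : b ∈ nb a)
    (hnot : b ∉ a :: t) : b :: a :: t ∈ ext nb ps := by
  unfold ext
  rw [List.mem_flatMap]
  refine ⟨a :: t, h, ?_⟩
  unfold ext1
  rw [List.mem_filterMap]
  refine ⟨b, hb, ?_⟩
  have : (a :: t).contains b = false := by
    rw [Bool.eq_false_iff]
    intro h'
    exact hnot (by simpa using h')
  rw [this]
  simp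

/-- every path of a graph described by `nb` is enumerated (from its last vertex backwards) -/
theorem path_mem {n : ℕ} (G : SimpleGraph (Fin n)) (nb : ℕ → List ℕ) (hnb : ∀ a b : Fin n, G.Adj a b → b.1 ∈ nb a.1)
    {s t : Fin n} (p : G.Walk s t) (hp : p.IsPath) : p.support.map Fin.val ∈ paths nb t.1 p.length := by
  induction p with
  | nil => simp [paths]
  | @cons u v w h p ih =>
    rw [Walk.cons_isPath_iff] at hp
    have h1 := ih hp.1
    obtain ⟨tl, htl⟩ : ∃ tl, p.support = v :: tl := by
      cases p with
      | nil => exact ⟨[], rfl⟩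
      | cons h q => exact ⟨q.support, rfl⟩
    rw [Walk.length_cons, paths, Walk.support_cons, List.map_cons]
    rw [htl, List.map_cons] at h1 ⊢
    refine mem_ext h1 (hnb v u h.symm) ?_
    intro hmem
    apply hp.2
    rw [htl]
    rw [← List.map_cons, List.mem_map] at hmem
    obtain ⟨x, hx, hxu⟩ := hmem
    rwa [Fin.ext hxu] at hx

/-- no cycle of length `l + 1` if no enumerated path with `l` edges closes up -/
def noCycle (nb : ℕ → List ℕ) (n l : ℕ) : Bool :=
  (List.range n).all (fun t => (paths nb t l).all (fun L => match L with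
    | [] => true
    | a :: _ => !((nb t).contains a)))

theorem no_cycle_of_check {n : ℕ} (G : SimpleGraph (Fin n)) (nb : ℕ → List ℕ)
    (hnb : ∀ a b : Fin n, G.Adj a b → b.1 ∈ nb a.1) (l : ℕ) (h : noCycle nb n l = true)
    {v : Fin n} (w : G.Walk v v) (hw : w.IsCycle) : w.length ≠ l + 1 := by
  intro hl
  cases w with
  | nil => simp at hl
  | @cons _ x _ hadj p =>
    rw [Walk.cons_isCycle_iff] at hw
    have h1 := path_mem G nb hnb p hw.1
    rw [Walk.length_cons] at hl
    have hl' : p.length = l := by omega
    rw [hl'] at h1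
    unfold noCycle at h
    rw [List.all_eq_true] at h
    have h2 := h v.1 (List.mem_range.2 v.2)
    rw [List.all_eq_true] at h2
    have h3 := h2 _ h1
    obtain ⟨tl, htl⟩ : ∃ tl, p.support = x :: tl := by
      cases p with
      | nil => exact ⟨[], rfl⟩
      | cons h q => exact ⟨q.support, rfl⟩
    rw [htl, List.map_cons] at h3
    simp only [Bool.not_eq_true', Bool.eq_false_iff, ne_eq] at h3
    apply h3
    have := hnb v x hadj
    simpa using this

end Pool.Agent.V11124.PathEnum
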