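import Mathlib

/-! Base definitions: the macro (50 vertices, 95 edges), the cap (10 vertices, 44 edges) and Boolean
checks of paths and cycles in them. -/

namespace Pool.Agent.V11124.Ep

/-- the 95 edges of the macro on the vertices `0, …, 49` -/
def macE : List (ℕ × ℕ) :=
  [(0, 2), (0, 16), (1, 46), (1, 47), (2, 3), (2, 16), (3, 4), (3, 16), (4, 5), (4, 16), (5, 6), (5, 16), (6, 7), (6, 16), (7, 8), (7, 16), (8, 9), (8, 16), (8, 17), (9, 10), (9, 17), (10, 11), (10, 17), (11, 12), (11, 17), (12, 13), (12, 17), (13, 14), (13, 17), (14, 15), (14, 17), (15, 17), (15, 18), (15, 32), (16, 17), (18, 19), (18, 32), (19, 20), (19, 32), (20, 21), (20, 32), (21, 22), (21, 32), (22, 23), (22, 32), (23, 24), (23, 32), (24, 25), (24, 32), (24, 33), (25, 26), (25, 33), (26, 27), (26, 33), (27, 28), (27, 33), (28, 29), (28, 33), (29, 30), (29, 33), (30, 31), (30, 33), (31, 33), (31, 34), (31, 47), (32, 33), (34, 35), (34, 47), (35, 36), (35, 47), (36, 37), (36, 47), (37, 38), (37, 47), (38, 39), (38, 47), (39, 47), (39, 48),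 (40, 41), (40, 47), (40, 48), (40, 49), (41, 42), (41, 47), (42, 43), (42, 47), (43, 44), (43, 47), (44, 45), (44, 47), (45, 46), (45, 47), (46, 47), (47, 48), (47, 49)]

/-- neighbourhoods in the macro as bit masks -/
def nbMask : List ℕ :=
  [65540, 211106232532992, 65545, 65556, 65576, 65616, 65696, 65856, 197248, 132352, 133632, 136192, 141312, 151552, 172032, 4295376896, 131581, 130816, 4295524352, 4296278016, 4297588736, 4300210176, 4305453056, 4315938816, 12926844928, 8673820672, 8757706752, 8925478912, 9261023232, 9932111872, 11274289152, 140764331900928, 8623259648, 8573157376, 140773995577344, 140823387701248, 140909287047168, 141081085739008, 141424683122688, 422487342972928, 987361441742848, 146235046494208, 151732604633088, 162727720910848, 184717953466368, 228698418577408, 175921860444162, 985147386101762, 142386755796992, 141836999983104]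

def adjM (u v : ℕ) : Bool := (nbMask.getD u 0).testBit v

/-- the cap: the complete graph on `0, …, 9` without the edge `01` -/
def adjC (u v : ℕ) : Bool := Nat.blt u 10 && (Nat.blt v 10 && (!(u == v) && !(u + v == 1)))

/-- the 44 edges of the cap -/
def capE : List (ℕ × ℕ) :=
  [(0, 2), (0, 3), (0, 4), (0, 5), (0, 6), (0, 7), (0, 8), (0, 9), (1, 2), (1, 3), (1, 4), (1, 5), (1, 6), (1, 7), (1, 8), (1, 9), (2, 3), (2, 4), (2, 5), (2, 6), (2, 7), (2, 8), (2, 9), (3, 4), (3, 5), (3, 6), (3, 7), (3, 8), (3, 9), (4, 5), (4, 6), (4, 7), (4, 8), (4, 9), (5, 6), (5, 7), (5, 8), (5, 9), (6, 7), (6, 8), (6, 9), (7, 8), (7, 9), (8, 9)]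

def dg : ℕ → ℕ → List ℕ
  | 0, _ => []
  | f + 1, n => bif n == 0 then [] else (n % 64 - 1) :: dg f (n / 64)

/-- decode a list written in base 64 (digits are shifted by one) -/
def dec (n : ℕ) : List ℕ := dg 64 n

def chainB (adj : ℕ → ℕ → Bool) : List ℕ → Bool
  | [] => true
  | [_] => true
  | a :: b :: l => adj a b && chainB adj (b :: l)

def nodupB : List ℕ → Bool
  | [] => true
  | a :: l => l.all (fun b => !(a == b)) && nodupB l

def cde (a b : ℕ) : ℕ := bif Nat.blt a b then 64 * a + b else 64 * b + a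

def codes : List ℕ → List ℕ
  | [] => []
  | [_] => []
  | a :: b :: l => cde a b :: codes (b :: l)

def closeL : List ℕ → List ℕ
  | [] => []
  | a :: l => a :: (l ++ [a])

structure T5 where
  cy : List ℕ
  ab : List ℕ
  cd : List ℕ
  t : List (ℕ × ℕ)
  tx : List (ℕ × ℕ)

def inR (lo hi : ℕ) (l : List ℕ) : Bool := l.all (fun u => Nat.ble lo u && Nat.blt u hi)

/-- a cycle of length `m` in the macro -/
def okCy (m : ℕ) (l : List ℕ) : Bool :=
  l.length == m && (inR 0 50 l && (nodupB l && chainB adjM (closeL l)))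

/-- interior of a path of length `m` from `0` to `1` -/
def okAB (m : ℕ) (l : List ℕ) : Bool :=
  l.length + 1 == m && (inR 2 50 l && (nodupB l && chainB adjM (0 :: (l ++ [1]))))

/-- interior of a path of length `m` from `48` to `49` -/
def okCD (m : ℕ) (l : List ℕ) : Bool :=
  l.length + 1 == m && (inR 0 48 l && (nodupB l && chainB adjM (48 :: (l ++ [49]))))

/-- interiors of disjoint paths `0 → 48`, `49 → 1` of total length `m` -/
def okT (m : ℕ) (l k : List ℕ) : Bool :=
  l.length + k.length + 2 == m && (inR 2 48 (l ++ k) && (nodupB (l ++ k) &&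
    (chainB adjM (0 :: (l ++ [48])) && chainB adjM (49 :: (k ++ [1])))))

/-- interiors of disjoint paths `0 → 49`, `48 → 1` of total length `m` -/
def okTX (m : ℕ) (l k : List ℕ) : Bool :=
  l.length + k.length + 2 == m && (inR 2 48 (l ++ k) && (nodupB (l ++ k) &&
    (chainB adjM (0 :: (l ++ [49])) && chainB adjM (48 :: (k ++ [1])))))

def codesT (t : List (ℕ × ℕ)) : List ℕ :=
  t.flatMap (fun p => codes (0 :: (dec p.1 ++ [48])) ++ codes (49 :: (dec p.2 ++ [1])))

def codesTX (t : List (ℕ × ℕ)) : List ℕ :=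
  t.flatMap (fun p => codes (0 :: (dec p.1 ++ [49])) ++ codes (48 :: (dec p.2 ++ [1])))

def codes5 (t : T5) : List ℕ :=
  t.cy.flatMap (fun c => codes (closeL (dec c))) ++ (t.ab.flatMap (fun c => codes (0 :: (dec c ++ [1]))) ++
    (t.cd.flatMap (fun c => codes (48 :: (dec c ++ [49]))) ++ (codesT t.t ++ codesTX t.tx)))

def covers (E : List (ℕ × ℕ)) (l : List ℕ) : Bool := E.all (fun e => l.any (fun c => c == 64 * e.1 + e.2))

def okLen (m : ℕ) (t : T5) : Bool :=
  t.cy.all (fun c => okCy m (dec c)) && (t.ab.all (fun c => okAB (m - 2) (dec c)) &&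
    (t.cd.all (fun c => okCD (m - 8) (dec c)) && (t.t.all (fun p => okT (m - 10) (dec p.1) (dec p.2)) &&
      (t.tx.all (fun p => okTX (m - 10) (dec p.1) (dec p.2)) && covers macE (codes5 t)))))

def okHam (t tx : List (ℕ × ℕ)) : Bool :=
  t.all (fun p => okT 48 (dec p.1) (dec p.2)) && (tx.all (fun p => okTX 48 (dec p.1) (dec p.2)) &&
    covers macE (codesT t ++ codesTX tx))

/-- cycles of length `m` in the cap, through every edge -/
def okCapC (m : ℕ) (t : List ℕ) : Bool :=
  t.all (fun c => (dec c).length == m && (inR 0 10 (dec c) && (nodupB (dec c) && chainB adjC (closeL (dec c))))) &&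
    covers capE (t.flatMap (fun c => codes (closeL (dec c))))

/-- paths of length `m` from `0` to `1` in the cap, through every edge -/
def okCapP (m : ℕ) (t : List ℕ) : Bool :=
  t.all (fun c => (dec c).length + 1 == m && (inR 2 10 (dec c) && (nodupB (dec c) &&
    chainB adjC (0 :: (dec c ++ [1]))))) && covers capE (t.flatMap (fun c => codes (0 :: (dec c ++ [1]))))

end Pool.Agent.V11124.Ep
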