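import Pool.Agent.V11124.SeqCycle

namespace Pool.Agent.V11124.SeqCycle

open SimpleGraph

variable {V : Type*}

theorem seqWalk_edge_mem (H : SimpleGraph V) (f : ℕ → V) (k : ℕ) (h : ∀ i < k, H.Adj (f i) (f (i + 1))) {i : ℕ}
    (hi : i < k) : s(f i, f (i + 1)) ∈ (seqWalk H f k h).edges := by
  induction k with
  | zero => omega
  | succ k ih =>
    rw [seqWalk, Walk.edges_concat, List.concat_eq_append, List.mem_append, List.mem_singleton]
    rcases Nat.lt_or_ge i k with h1 | h1
    · exact Or.inl (ih _ h1)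
    · right
      rw [show i = k by omega]

/-- a cyclic sequence of distinct vertices gives a cycle, with its edges -/
theorem exists_cycle_of_seq' (H : SimpleGraph V) (f : ℕ → V) (k : ℕ) (hk : 2 ≤ k)
    (h : ∀ i < k, H.Adj (f i) (f (i + 1))) (hclose : H.Adj (f k) (f 0))
    (hinj : ∀ i ≤ k, ∀ j ≤ k, f i = f j → i = j) :
    ∃ (v : V) (w : H.Walk v v), w.IsCycle ∧ w.length = k + 1 ∧ (∀ i < k, s(f i, f (i + 1)) ∈ w.edges) ∧
      s(f k, f 0) ∈ w.edges := by
  refine ⟨f k, Walk.cons hclose (seqWalk H f k h), ?_, by rw [Walk.length_cons, seqWalk_length], ?_, by simp⟩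
  · rw [Walk.cons_isCycle_iff]
    refine ⟨seqWalk_isPath H f k h hinj, fun he => ?_⟩
    obtain ⟨i, hi, hi'⟩ := edge_mem_seqWalk _ _ _ _ _ he
    rw [Sym2.eq_iff] at hi'
    rcases hi' with ⟨h1, h2⟩ | ⟨h1, h2⟩
    · have := hinj k le_rfl i (by omega) h1
      omega
    · have h3 := hinj k le_rfl (i + 1) (by omega) h1
      have h4 := hinj 0 (by omega) i (by omega) h2
      omega
  · intro i hi
    rw [Walk.edges_cons, List.mem_cons]
    exact Or.inr (seqWalk_edge_mem H f k h hi)

/-- modular version: `f` restricted to `0..l-1` is a cyclic sequence -/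
theorem exists_cycle_mod (H : SimpleGraph V) (f : ℕ → V) (l : ℕ) (hl : 3 ≤ l)
    (h : ∀ i < l, H.Adj (f i) (f ((i + 1) % l))) (hinj : ∀ i < l, ∀ j < l, f i = f j → i = j) :
    ∃ (v : V) (w : H.Walk v v), w.IsCycle ∧ w.length = l ∧ ∀ i < l, s(f i, f ((i + 1) % l)) ∈ w.edges := by
  obtain ⟨v, w, hw, hlen, he, hc⟩ := exists_cycle_of_seq' H f (l - 1) (by omega)
    (fun i hi => by
      have := h i (by omega)
      rwa [Nat.mod_eq_of_lt (by omega)] at this)
    (by
      have := h (l - 1) (by omega)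
      rwa [Nat.sub_add_cancel (by omega), Nat.mod_self] at this)
    (fun i hi j hj => hinj i (by omega) j (by omega))
  refine ⟨v, w, hw, by omega, fun i hi => ?_⟩
  rcases Nat.lt_or_ge (i + 1) l with h1 | h1
  · rw [Nat.mod_eq_of_lt h1]
    exact he i (by omega)
  · have h2 : i = l - 1 := by omega
    subst h2
    rw [Nat.sub_add_cancel (by omega), Nat.mod_self]
    exact hc

end Pool.Agent.V11124.SeqCycle
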