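import Pool.Agent.V11124.EpBase
import Pool.Agent.V11124.SeqCycle2

/-! Lists of vertices, paths given by their interiors, and the nested chain of macros. -/

namespace Pool.Agent.V11124.Ep

open SimpleGraph

/-- `x` and `y` are consecutive (in some order) in `l` -/
def E2 (x y : ℕ) (l : List ℕ) : Prop := ∃ l1 l2, l = l1 ++ x :: y :: l2 ∨ l = l1 ++ y :: x :: l2

theorem E2.symm {x y : ℕ} {l : List ℕ} (h : E2 x y l) : E2 y x l := by
  obtain ⟨l1, l2, h | h⟩ := h
  · exact ⟨l1, l2, Or.inr h⟩
  · exact ⟨l1, l2, Or.inl h⟩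

theorem E2.left {x y : ℕ} {l : List ℕ} (h : E2 x y l) (k : List ℕ) : E2 x y (k ++ l) := by
  obtain ⟨l1, l2, h | h⟩ := h
  · exact ⟨k ++ l1, l2, Or.inl (by rw [h, List.append_assoc])⟩
  · exact ⟨k ++ l1, l2, Or.inr (by rw [h, List.append_assoc])⟩

theorem E2.right {x y : ℕ} {l : List ℕ} (h : E2 x y l) (k : List ℕ) : E2 x y (l ++ k) := by
  obtain ⟨l1, l2, h | h⟩ := h
  · exact ⟨l1, l2 ++ k, Or.inl (by rw [h]; simp)⟩
  · exact ⟨l1, l2 ++ k, Or.inr (by rw [h]; simp)⟩

theorem E2.map {x y : ℕ} {l : List ℕ} (h : E2 x y l) (f : ℕ → ℕ) : E2 (f x) (f y) (l.map f) := by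
  obtain ⟨l1, l2, h | h⟩ := h
  · exact ⟨l1.map f, l2.map f, Or.inl (by rw [h]; simp)⟩
  · exact ⟨l1.map f, l2.map f, Or.inr (by rw [h]; simp)⟩

theorem E2_of_code {x y : ℕ} (hxy : x < y) (hy : y < 64) :
    ∀ l : List ℕ, (∀ z ∈ l, z < 64) → 64 * x + y ∈ codes l → E2 x y l
  | [], _, h => by simp [codes] at h
  | [_], _, h => by simp [codes] at h
  | a :: b :: l, hl, h => by
    have ha : a < 64 := hl a (by simp)
    have hb : b < 64 := hl b (by simp)
    rw [codes, List.mem_cons] at h
    rcases h with h | h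
    · unfold cde at h
      cases hab : Nat.blt a b with
      | true =>
        rw [hab, cond_true] at h
        have : a < b := by simpa [Nat.blt_eq] using hab
        exact ⟨[], l, Or.inl (by rw [show x = a by omega, show y = b by omega]; rfl)⟩
      | false =>
        rw [hab, cond_false] at h
        exact ⟨[], l, Or.inr (by rw [show x = b by omega, show y = a by omega]; rfl)⟩
    · have h1 := E2_of_code hxy hy (b :: l) (fun z hz => hl z (List.mem_cons_of_mem _ hz)) h
      exact h1.left [a]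

theorem chain_of {adj : ℕ → ℕ → Bool} {R : ℕ → ℕ → Prop} {N : ℕ}
    (h : ∀ u v, u < N → v < N → adj u v = true → R u v) :
    ∀ l : List ℕ, (∀ z ∈ l, z < N) → chainB adj l = true → l.IsChain R
  | [], _, _ => List.IsChain.nil
  | [_], _, _ => List.IsChain.singleton _
  | a :: b :: l, hl, hc => by
    rw [chainB, Bool.and_eq_true] at hc
    rw [List.isChain_cons_cons]
    exact ⟨h a b (hl a (by simp)) (hl b (by simp)) hc.1,
      chain_of h (b :: l) (fun z hz => hl z (List.mem_cons_of_mem _ hz)) hc.2⟩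

theorem nodup_of_nodupB : ∀ l : List ℕ, nodupB l = true → l.Nodup
  | [], _ => List.nodup_nil
  | a :: l, h => by
    rw [nodupB, Bool.and_eq_true] at h
    rw [List.nodup_cons]
    refine ⟨fun ha => ?_, nodup_of_nodupB l h.2⟩
    have := List.all_eq_true.1 h.1 a ha
    simp at this

theorem inR_iff {lo hi : ℕ} {l : List ℕ} (h : inR lo hi l = true) : ∀ z ∈ l, lo ≤ z ∧ z < hi := by
  intro z hz
  have := List.all_eq_true.1 h z hz
  rw [Bool.and_eq_true] at this
  exact ⟨Nat.le_of_ble_eq_true this.1, by simpa [Nat.blt_eq] using this.2⟩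

/-- `x`, then `I`, then `y` is a walk -/
def Pth (A : ℕ → ℕ → Prop) (x y : ℕ) (I : List ℕ) : Prop := (x :: (I ++ [y])).IsChain A

theorem Pth.trans {A : ℕ → ℕ → Prop} {x y z : ℕ} {I K : List ℕ} (h1 : Pth A x y I) (h2 : Pth A y z K) :
    Pth A x z (I ++ y :: K) := by
  unfold Pth at *
  have : x :: ((I ++ y :: K) ++ [z]) = (x :: I) ++ y :: (K ++ [z]) := by simp
  rw [this, List.isChain_split]
  exact ⟨by simpa using h1, h2⟩

theorem Pth.symm {A : ℕ → ℕ → Prop} (hA : ∀ x y, A x y → A y x) {x y : ℕ} {I : List ℕ} (h : Pth A x y I) :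
    Pth A y x I.reverse := by
  unfold Pth at *
  have : y :: (I.reverse ++ [x]) = (x :: (I ++ [y])).reverse := by simp
  rw [this, List.isChain_reverse]
  exact h.imp (fun a b hab => hA _ _ hab)

theorem Pth.map {A B : ℕ → ℕ → Prop} (f : ℕ → ℕ) (hf : ∀ a b, A a b → B (f a) (f b)) {x y : ℕ} {I : List ℕ}
    (h : Pth A x y I) : Pth B (f x) (f y) (I.map f) := by
  unfold Pth at *
  have : f x :: (I.map f ++ [f y]) = (x :: (I ++ [y])).map f := by simp
  rw [this]
  exact List.isChain_map_of_isChain f hf h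

/-- from a closed list of vertices to a cycle -/
theorem cycle_of_list {n : ℕ} (A : ℕ → ℕ → Prop) (G : SimpleGraph (Fin n)) (hG : ∀ u v : Fin n, A u.1 v.1 → G.Adj u v)
    (a : ℕ) (I : List ℕ) (h : Pth A a a I) (hn : (a :: I).Nodup) (hlt : ∀ z ∈ a :: I, z < n) (hlen : 2 ≤ I.length)
    (x y : Fin n) (he : E2 x.1 y.1 (a :: (I ++ [a]))) :
    ∃ (v : Fin n) (w : G.Walk v v), w.IsCycle ∧ w.length = I.length + 1 ∧ s(x, y) ∈ w.edges := by
  have hnpos : 0 < n := Nat.lt_of_le_of_lt (Nat.zero_le _) (hlt a (by simp))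
  set m := I.length + 1 with hm
  set L := a :: I with hL
  have hLlen : L.length = m := by simp [hL, hm]
  have hgl : ∀ i, i < m → L.getD i 0 < n := by
    intro i hi
    rw [List.getD_eq_getElem _ _ (by omega)]
    exact hlt _ (List.getElem_mem _)
  let f : ℕ → Fin n := fun i => ⟨L.getD i 0 % n, Nat.mod_lt _ hnpos⟩
  have hf : ∀ i, i < m → (f i).1 = L.getD i 0 := fun i hi => Nat.mod_eq_of_lt (hgl i hi)
  have hclosed : ∀ i, i < m → ∀ (h1 : i + 1 < (a :: (I ++ [a])).length),
      (a :: (I ++ [a]))[i]'(by simp at h1 ⊢; omega) = L.getD i 0 ∧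
      (a :: (I ++ [a]))[i + 1] = L.getD ((i + 1) % m) 0 := by
    intro i hi h1
    have e : a :: (I ++ [a]) = L ++ [a] := by simp [hL]
    constructor
    · rw [List.getElem_of_eq e, List.getElem_append_left (by omega), List.getD_eq_getElem _ _ (by omega)]
    · rw [List.getElem_of_eq e]
      rcases Nat.lt_or_ge (i + 1) m with h2 | h2
      · rw [List.getElem_append_left (by omega), Nat.mod_eq_of_lt h2, List.getD_eq_getElem _ _ (by omega)]
      · have h3 : i + 1 = m := by omega
        have h4 : (i + 1) % m = 0 := by rw [h3, Nat.mod_self]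
        rw [List.getElem_append_right (by omega), h4]
        simp [hL]
  have hadj : ∀ i < m, G.Adj (f i) (f ((i + 1) % m)) := by
    intro i hi
    apply hG
    have hi' : (i + 1) % m < m := Nat.mod_lt _ (by omega)
    rw [hf i hi, hf _ hi']
    have h1 : i + 1 < (a :: (I ++ [a])).length := by simp; omega
    have := (List.isChain_iff_getElem.1 h) i h1
    rw [(hclosed i hi h1).1, (hclosed i hi h1).2] at this
    exact this
  have hinj : ∀ i < m, ∀ j < m, f i = f j → i = j := by
    intro i hi j hj hij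
    have h1 := congrArg Fin.val hij
    rw [hf i hi, hf j hj, List.getD_eq_getElem _ _ (by omega), List.getD_eq_getElem _ _ (by omega)] at h1
    exact (List.Nodup.getElem_inj_iff hn).1 h1
  obtain ⟨v, w, hw, hl, hed⟩ := SeqCycle.exists_cycle_mod G f m (by omega) hadj hinj
  refine ⟨v, w, hw, hl, ?_⟩
  -- position of the pair
  have key : ∀ (p q : Fin n) (l1 l2 : List ℕ), a :: (I ++ [a]) = l1 ++ p.1 :: q.1 :: l2 → s(p, q) ∈ w.edges := by
    intro p q l1 l2 h1
    have hlen1 : (a :: (I ++ [a])).length = l1.length + (l2.length + 2) := by rw [h1]; simp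
    have hlen2 : (a :: (I ++ [a])).length = m + 1 := by simp [hm]
    have hi : l1.length < m := by omega
    have h2 : l1.length + 1 < (a :: (I ++ [a])).length := by omega
    have h3 := hclosed l1.length hi h2
    have e1 : (a :: (I ++ [a]))[l1.length]'(by omega) = p.1 := by
      rw [List.getElem_of_eq h1, List.getElem_append_right (le_refl _)]
      simp
    have e2 : (a :: (I ++ [a]))[l1.length + 1]'h2 = q.1 := by
      rw [List.getElem_of_eq h1, List.getElem_append_right (by omega)]
      simp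
    have h4 := hed l1.length hi
    have hi' : (l1.length + 1) % m < m := Nat.mod_lt _ (by omega)
    have g1 : f l1.length = p := Fin.ext (by rw [hf _ hi, ← h3.1, e1])
    have g2 : f ((l1.length + 1) % m) = q := Fin.ext (by rw [hf _ hi', ← h3.2, e2])
    rw [g1, g2] at h4
    exact h4
  obtain ⟨l1, l2, h1 | h1⟩ := he
  · exact key x y l1 l2 h1
  · rw [Sym2.eq_swap]
    exact key y x l1 l2 h1

end Pool.Agent.V11124.Ep
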