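import Pool.Agent.V11124.EpSpec

/-! The nested chain of macros: long cycles through every edge. -/

namespace Pool.Agent.V11124.Ep

open SimpleGraph

def off (k : ℕ) : ℕ := 8 + 48 * k

/-- embedding of the outer cap -/
def cO (i : ℕ) : ℕ := if i < 2 then i + 8 else i - 2

def GA (J x y : ℕ) : Prop :=
  (∃ u v, CA u v ∧ x = cO u ∧ y = cO v) ∨ (∃ k < J, ∃ u v, MA u v ∧ x = off k + u ∧ y = off k + v) ∨
    (∃ u v, CA u v ∧ x = off J + u ∧ y = off J + v)

theorem GA_symm {J : ℕ} (x y : ℕ) (h : GA J x y) : GA J y x := by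
  rcases h with ⟨u, v, h, hx, hy⟩ | ⟨k, hk, u, v, h, hx, hy⟩ | ⟨u, v, h, hx, hy⟩
  · exact Or.inl ⟨v, u, CA_symm h, hy, hx⟩
  · exact Or.inr (Or.inl ⟨k, hk, v, u, MA_symm h, hy, hx⟩)
  · exact Or.inr (Or.inr ⟨v, u, CA_symm h, hy, hx⟩)

theorem MA_lt {u v : ℕ} (h : MA u v) : u ≠ v ∧ u < 50 ∧ v < 50 := by
  rcases h with h | h <;> have := macE_lt _ h <;> simp only at this <;> omega

theorem CA_lt {u v : ℕ} (h : CA u v) : u ≠ v ∧ u < 10 ∧ v < 10 := by
  rcases h with h | h <;> have := capE_lt _ h <;> simp only at this <;> omega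

theorem cO_inj {u v : ℕ} (hu : u < 10) (hv : v < 10) (h : cO u = cO v) : u = v := by
  unfold cO at h
  split_ifs at h <;> omega

theorem cO_lt {u : ℕ} (hu : u < 10) : cO u < 10 := by
  unfold cO
  split_ifs <;> omega

theorem GA_ne {J x y : ℕ} (h : GA J x y) : x ≠ y := by
  rintro rfl
  rcases h with ⟨u, v, h, hx, hy⟩ | ⟨k, hk, u, v, h, hx, hy⟩ | ⟨u, v, h, hx, hy⟩
  · have := CA_lt h
    exact this.1 (cO_inj this.2.1 this.2.2 (hx.symm.trans hy))
  · have := MA_lt h
    omega
  · have := CA_lt h
    omega

theorem mapO {J x y : ℕ} {l : List ℕ} (h : Pth CA x y l) : Pth (GA J) (cO x) (cO y) (l.map cO) :=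
  h.map cO (fun a b hab => Or.inl ⟨a, b, hab, rfl, rfl⟩)

theorem mapI {J x y : ℕ} {l : List ℕ} (h : Pth CA x y l) : Pth (GA J) (off J + x) (off J + y) (l.map (off J + ·)) :=
  h.map (off J + ·) (fun a b hab => Or.inr (Or.inr ⟨a, b, hab, rfl, rfl⟩))

theorem mapK {J k x y : ℕ} (hk : k < J) {l : List ℕ} (h : Pth MA x y l) :
    Pth (GA J) (off k + x) (off k + y) (l.map (off k + ·)) :=
  h.map (off k + ·) (fun a b hab => Or.inr (Or.inl ⟨k, hk, a, b, hab, rfl, rfl⟩))

theorem nodup_shift {o : ℕ} {l : List ℕ} (h : l.Nodup) : (l.map (o + ·)).Nodup :=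
  h.map (fun _ _ hab => Nat.add_left_cancel hab)

theorem mem_shift {o z : ℕ} {l : List ℕ} (h : z ∈ l.map (o + ·)) : ∃ w ∈ l, z = o + w := by
  rw [List.mem_map] at h
  obtain ⟨w, hw, h⟩ := h
  exact ⟨w, hw, h.symm⟩

theorem nd_app {l k : List ℕ} (h1 : l.Nodup) (h2 : k.Nodup) (h3 : ∀ x ∈ l, ∀ y ∈ k, x ≠ y) : (l ++ k).Nodup :=
  List.nodup_append.2 ⟨h1, h2, h3⟩

theorem nodup4 {o a b c d : ℕ} {P Q X Y : List ℕ} (ha : a = o) (hb : b = o + 1)
    (hcd : (c = o + 48 ∧ d = o + 49) ∨ (c = o + 49 ∧ d = o + 48)) (hPQ : (P ++ Q).Nodup)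
    (hr : ∀ z ∈ P ++ Q, o + 2 ≤ z ∧ z < o + 48) (hX : X.Nodup) (hXr : ∀ z ∈ X, o + 50 ≤ z) (hY : Y.Nodup)
    (hYr : ∀ z ∈ Y, z < o) : (a :: (P ++ c :: (X ++ d :: (Q ++ b :: Y)))).Nodup := by
  rw [List.nodup_append] at hPQ
  obtain ⟨hP1, hQ1, hPQ1⟩ := hPQ
  have hPr : ∀ z ∈ P, o + 2 ≤ z ∧ z < o + 48 := fun z hz => hr z (List.mem_append_left _ hz)
  have hQr : ∀ z ∈ Q, o + 2 ≤ z ∧ z < o + 48 := fun z hz => hr z (List.mem_append_right _ hz)
  have s1 : (b :: Y).Nodup := List.nodup_cons.2 ⟨fun h => by have := hYr b h; omega, hY⟩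
  have m1 : ∀ z ∈ b :: Y, z < o + 2 := by
    intro z hz
    rcases List.mem_cons.1 hz with rfl | hz
    · omega
    · have := hYr z hz; omega
  have s2 : (Q ++ b :: Y).Nodup := nd_app hQ1 s1 (fun x hx y hy => by
    have := hQr x hx; have := m1 y hy; omega)
  have m2 : ∀ z ∈ Q ++ b :: Y, z < o + 48 := by
    intro z hz
    rcases List.mem_append.1 hz with hz | hz
    · exact (hQr z hz).2
    · have := m1 z hz; omega
  have s3 : (d :: (Q ++ b :: Y)).Nodup := List.nodup_cons.2 ⟨fun h => by have := m2 d h; omega, s2⟩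
  have m3 : ∀ z ∈ d :: (Q ++ b :: Y), z < o + 50 := by
    intro z hz
    rcases List.mem_cons.1 hz with rfl | hz
    · omega
    · have := m2 z hz; omega
  have s4 : (X ++ d :: (Q ++ b :: Y)).Nodup := nd_app hX s3 (fun x hx y hy => by
    have := hXr x hx; have := m3 y hy; omega)
  have s5 : (c :: (X ++ d :: (Q ++ b :: Y))).Nodup := by
    refine List.nodup_cons.2 ⟨fun h => ?_, s4⟩
    rcases List.mem_append.1 h with h | h
    · have := hXr c h; omega
    · rcases List.mem_cons.1 h with h | h
      · omega
      · have := m2 c h; omega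
  have s6 : (P ++ c :: (X ++ d :: (Q ++ b :: Y))).Nodup := by
    refine nd_app hP1 s5 (fun x hx y hy => ?_)
    have hx' := hPr x hx
    rcases List.mem_cons.1 hy with rfl | hy
    · omega
    rcases List.mem_append.1 hy with hy | hy
    · have := hXr y hy; omega
    rcases List.mem_cons.1 hy with rfl | hy
    · omega
    rcases List.mem_append.1 hy with hy | hy
    · exact hPQ1 x hx y hy
    · have := m1 y hy; omega
  refine List.nodup_cons.2 ⟨fun h => ?_, s6⟩
  rcases List.mem_append.1 h with h | h
  · have := hPr a h; omega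
  rcases List.mem_cons.1 h with h | h
  · omega
  rcases List.mem_append.1 h with h | h
  · have := hXr a h; omega
  rcases List.mem_cons.1 h with h | h
  · omega
  rcases List.mem_append.1 h with h | h
  · have := hQr a h; omega
  rcases List.mem_cons.1 h with h | h
  · omega
  · have := hYr a h; omega

/-- interior of a path from the outer terminals of level `k`, inside the levels `≥ k` -/
structure InI (J k x : ℕ) (I : List ℕ) : Prop where
  len : I.length + 1 = x
  nd : I.Nodup
  rng : ∀ z ∈ I, off k + 2 ≤ z ∧ z < off J + 10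
  pth : Pth (GA J) (off k) (off k + 1) I

/-- interior of a path between the outer terminals of level `k`, inside the levels `< k` -/
structure OutI (J k x : ℕ) (I : List ℕ) : Prop where
  len : I.length + 1 = x
  nd : I.Nodup
  rng : ∀ z ∈ I, z < off k
  pth : Pth (GA J) (off k) (off k + 1) I

theorem off_succ (k : ℕ) : off (k + 1) = off k + 48 := by unfold off; omega

theorem off_mono {k l : ℕ} (h : k ≤ l) : off k ≤ off l := by unfold off; omega

theorem inI (J : ℕ) : ∀ m k, k + m = J → ∀ x, 8 ≤ x → x ≤ 48 * m + 9 → ∃ I, InI J k x I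
  | 0, k, hk, x, h8, hx => by
    have hkJ : k = J := by omega
    subst hkJ
    obtain ⟨l, h⟩ := capAny (m := x) (by omega) (by omega)
    refine ⟨l.map (off k + ·), by rw [List.length_map]; exact h.len, nodup_shift h.nd, ?_, mapI h.pth⟩
    intro z hz
    obtain ⟨w, hw, rfl⟩ := mem_shift hz
    have := h.rng w hw
    omega
  | m + 1, k, hk, x, h8, hx => by
    have hkJ : k < J := by omega
    have hoJ : off k + 48 ≤ off J := by rw [← off_succ]; exact off_mono (by omega)
    rcases Nat.lt_or_ge x 50 with hx1 | hx1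
    · obtain ⟨l, h⟩ := abAny (m := x) h8 (by omega)
      refine ⟨l.map (off k + ·), by rw [List.length_map]; exact h.len, nodup_shift h.nd, ?_, mapK hkJ h.pth⟩
      intro z hz
      obtain ⟨w, hw, rfl⟩ := mem_shift hz
      have := h.rng w hw
      omega
    · obtain ⟨t, y, ht1, ht2, hy1, hy2, hty⟩ : ∃ t y, 42 ≤ t ∧ t ≤ 48 ∧ 8 ≤ y ∧ y ≤ 48 * m + 9 ∧ t + y = x := by
        rcases Nat.lt_or_ge x 56 with h | h
        · exact ⟨x - 8, 8, by omega, by omega, by omega, by omega, by omega⟩
        · exact ⟨48, x - 48, by omega, by omega, by omega, by omega, by omega⟩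
      obtain ⟨P, Q, hT⟩ := tAny (m := t) (by omega) ht2
      obtain ⟨I, hI⟩ := inI J m (k + 1) (by omega) y hy1 hy2
      have hp := hI.pth
      rw [off_succ] at hp
      have hIr : ∀ z ∈ I, off k + 50 ≤ z := fun z hz => by
        have := (hI.rng z hz).1
        rw [off_succ] at this
        omega
      have hPQ : (P.map (off k + ·) ++ Q.map (off k + ·)).Nodup := by
        rw [← List.map_append]; exact nodup_shift hT.nd
      have hPQr : ∀ z ∈ P.map (off k + ·) ++ Q.map (off k + ·), off k + 2 ≤ z ∧ z < off k + 48 := by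
        intro z hz
        rw [← List.map_append] at hz
        obtain ⟨w, hw, rfl⟩ := mem_shift hz
        have := hT.rng w hw
        omega
      have hnd := nodup4 (o := off k) (Y := []) rfl rfl (Or.inl ⟨rfl, rfl⟩) hPQ hPQr hI.nd hIr List.nodup_nil (by simp)
      refine ⟨P.map (off k + ·) ++ (off k + 48) :: (I ++ (off k + 49) :: Q.map (off k + ·)), ?_, ?_, ?_, ?_⟩
      · have h1 := hI.len
        have h2 := hT.len
        simp only [List.length_append, List.length_cons, List.length_map]
        omega
      · refine List.Nodup.sublist ?_ (List.nodup_cons.1 hnd).2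
        refine List.Sublist.append (List.Sublist.refl _) (List.Sublist.cons_cons _
          (List.Sublist.append (List.Sublist.refl _) (List.Sublist.cons_cons _ ?_)))
        exact List.sublist_append_left _ _
      · intro z hz
        rw [List.mem_append, List.mem_cons, List.mem_append, List.mem_cons] at hz
        rcases hz with hz | hz | hz | hz | hz
        · have := hPQr z (List.mem_append_left _ hz); omega
        · omega
        · have := hI.rng z hz
          rw [off_succ] at this
          omega
        · omega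
        · have := hPQr z (List.mem_append_right _ hz); omega
      · have h1 : Pth (GA J) (off k) (off k + 48) (P.map (off k + ·)) := mapK hkJ hT.p1
        have h2 : Pth (GA J) (off k + 49) (off k + 1) (Q.map (off k + ·)) := mapK hkJ hT.p2
        exact h1.trans (Pth.trans hp h2)

theorem outI (J : ℕ) : ∀ k, k ≤ J → ∀ x, 2 ≤ x → x ≤ 48 * k + 9 → ∃ I, OutI J k x I
  | 0, _, x, h2, hx => by
    obtain ⟨l, h⟩ := capAny (m := x) h2 (by omega)
    refine ⟨l.map cO, by rw [List.length_map]; exact h.len, ?_, ?_, ?_⟩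
    · refine List.Nodup.map_on ?_ h.nd
      intro y hy z hz hyz
      exact cO_inj (h.rng y hy).2 (h.rng z hz).2 hyz
    · intro z hz
      rw [List.mem_map] at hz
      obtain ⟨w, hw, rfl⟩ := hz
      have := h.rng w hw
      unfold cO off
      split_ifs <;> omega
    · exact mapO (J := J) h.pth
  | k + 1, hk, x, h2, hx => by
    have hkJ : k < J := by omega
    rcases Nat.lt_or_ge x 18 with hx1 | hx1
    · obtain ⟨l, h⟩ := cdAny (m := x) h2 (by omega)
      refine ⟨l.map (off k + ·), by rw [List.length_map]; exact h.len, nodup_shift h.nd, ?_, ?_⟩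
      · intro z hz
        obtain ⟨w, hw, rfl⟩ := mem_shift hz
        have := h.rng w hw
        rw [off_succ]
        omega
      · rw [off_succ]
        exact mapK hkJ h.pth
    · obtain ⟨t, y, ht1, ht2, hy1, hy2, hty⟩ : ∃ t y, 16 ≤ t ∧ t ≤ 48 ∧ 2 ≤ y ∧ y ≤ 48 * k + 9 ∧ t + y = x := by
        rcases Nat.lt_or_ge x 51 with h | h
        · exact ⟨x - 2, 2, by omega, by omega, by omega, by omega, by omega⟩
        · exact ⟨48, x - 48, by omega, by omega, by omega, by omega, by omega⟩
      obtain ⟨P, Q, hT⟩ := tAny (m := t) ht1 ht2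
      obtain ⟨I, hI⟩ := outI J k (by omega) y hy1 hy2
      have hPQ : (P.map (off k + ·) ++ Q.map (off k + ·)).Nodup := by
        rw [← List.map_append]; exact nodup_shift hT.nd
      have hPQr : ∀ z ∈ P.map (off k + ·) ++ Q.map (off k + ·), off k + 2 ≤ z ∧ z < off k + 48 := by
        intro z hz
        rw [← List.map_append] at hz
        obtain ⟨w, hw, rfl⟩ := mem_shift hz
        have := hT.rng w hw
        omega
      have h1 : Pth (GA J) (off k) (off k + 48) (P.map (off k + ·)) := mapK hkJ hT.p1
      have h2' : Pth (GA J) (off k + 49) (off k + 1) (Q.map (off k + ·)) := mapK hkJ hT.p2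
      refine ⟨(P.map (off k + ·)).reverse ++ (off k) :: (I ++ (off k + 1) :: (Q.map (off k + ·)).reverse), ?_, ?_, ?_, ?_⟩
      · have e1 := hI.len
        have e2 := hT.len
        simp only [List.length_append, List.length_cons, List.length_map, List.length_reverse]
        omega
      · rw [List.nodup_append] at hPQ
        obtain ⟨hP1, hQ1, hPQ1⟩ := hPQ
        have hPr : ∀ z ∈ P.map (off k + ·), off k + 2 ≤ z ∧ z < off k + 48 :=
          fun z hz => hPQr z (List.mem_append_left _ hz)
        have hQr : ∀ z ∈ Q.map (off k + ·), off k + 2 ≤ z ∧ z < off k + 48 :=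
          fun z hz => hPQr z (List.mem_append_right _ hz)
        have s1 : ((off k + 1) :: (Q.map (off k + ·)).reverse).Nodup := by
          refine List.nodup_cons.2 ⟨fun h => ?_, List.nodup_reverse.2 hQ1⟩
          have := hQr _ (List.mem_reverse.1 h); omega
        have s2 : (I ++ (off k + 1) :: (Q.map (off k + ·)).reverse).Nodup := by
          refine nd_app hI.nd s1 (fun x hx y hy => ?_)
          have := hI.rng x hx
          rcases List.mem_cons.1 hy with rfl | hy
          · omega
          · have := hQr _ (List.mem_reverse.1 hy); omega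
        have s3 : ((off k) :: (I ++ (off k + 1) :: (Q.map (off k + ·)).reverse)).Nodup := by
          refine List.nodup_cons.2 ⟨fun h => ?_, s2⟩
          rcases List.mem_append.1 h with h | h
          · have := hI.rng _ h; omega
          rcases List.mem_cons.1 h with h | h
          · omega
          · have := hQr _ (List.mem_reverse.1 h); omega
        refine nd_app (List.nodup_reverse.2 hP1) s3 (fun x hx y hy => ?_)
        have hx' := List.mem_reverse.1 hx
        have := hPr _ hx'
        rcases List.mem_cons.1 hy with rfl | hy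
        · omega
        rcases List.mem_append.1 hy with hy | hy
        · have := hI.rng _ hy; omega
        rcases List.mem_cons.1 hy with rfl | hy
        · omega
        · exact hPQ1 x hx' y (List.mem_reverse.1 hy)
      · intro z hz
        rw [off_succ]
        rw [List.mem_append, List.mem_cons, List.mem_append, List.mem_cons, List.mem_reverse, List.mem_reverse] at hz
        rcases hz with hz | hz | hz | hz | hz
        · have := hPQr z (List.mem_append_left _ hz); omega
        · omega
        · have := hI.rng z hz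
          omega
        · omega
        · have := hPQr z (List.mem_append_right _ hz); omega
      · rw [off_succ]
        have g1 := h1.symm GA_symm
        have g2 := h2'.symm GA_symm
        exact g1.trans (Pth.trans hI.pth g2)

end Pool.Agent.V11124.Ep
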