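import Pool.Agent.V11124.EpGlobal

/-! Cycles of every length through every edge of the chain of macros. -/

namespace Pool.Agent.V11124.Ep

open SimpleGraph

/-- a closed walk on `ℓ` distinct vertices through the pair `x, y` -/
def Good (J x y m : ℕ) : Prop :=
  ∃ a I, Pth (GA J) a a I ∧ (a :: I).Nodup ∧ (∀ z ∈ a :: I, z < off J + 10) ∧ I.length + 1 = m ∧
    E2 x y (a :: (I ++ [a]))

theorem good4 {J k : ℕ} (hk : k < J) {c d t : ℕ} (hcd : (c = 48 ∧ d = 49) ∨ (c = 49 ∧ d = 48)) {P Q : List ℕ}
    (hT : Ts c d t P Q) {X Y : List ℕ} (hX : X.Nodup) (hXr : ∀ z ∈ X, off k + 50 ≤ z ∧ z < off J + 10)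
    (hXp : Pth (GA J) (off k + c) (off k + d) X) (hY : Y.Nodup) (hYr : ∀ z ∈ Y, z < off k)
    (hYp : Pth (GA J) (off k + 1) (off k) Y) {e : ℕ × ℕ}
    (hE : E2 e.1 e.2 (0 :: (P ++ [c])) ∨ E2 e.1 e.2 (d :: (Q ++ [1]))) {m : ℕ}
    (hm : t + (X.length + 1) + (Y.length + 1) = m) : Good J (off k + e.1) (off k + e.2) m := by
  have hoJ : off k + 48 ≤ off J := by rw [← off_succ]; exact off_mono (by omega)
  have hPQ : (P.map (off k + ·) ++ Q.map (off k + ·)).Nodup := by
    rw [← List.map_append]; exact nodup_shift hT.nd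
  have hPQr : ∀ z ∈ P.map (off k + ·) ++ Q.map (off k + ·), off k + 2 ≤ z ∧ z < off k + 48 := by
    intro z hz
    rw [← List.map_append] at hz
    obtain ⟨w, hw, rfl⟩ := mem_shift hz
    have := hT.rng w hw
    omega
  have h1 : Pth (GA J) (off k) (off k + c) (P.map (off k + ·)) := mapK hk hT.p1
  have h2 : Pth (GA J) (off k + d) (off k + 1) (Q.map (off k + ·)) := mapK hk hT.p2
  have hnd := nodup4 (o := off k) (a := off k) (b := off k + 1) (c := off k + c) (d := off k + d) rfl rfl
    (by omega) hPQ hPQr hX (fun z hz => (hXr z hz).1) hY hYr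
  refine ⟨off k, P.map (off k + ·) ++ (off k + c) :: (X ++ (off k + d) :: (Q.map (off k + ·) ++ (off k + 1) :: Y)),
    h1.trans (Pth.trans hXp (Pth.trans h2 hYp)), hnd, ?_, ?_, ?_⟩
  · intro z hz
    simp only [List.mem_append, List.mem_cons] at hz
    rcases hz with hz | hz | hz | hz | hz | hz | hz | hz
    · omega
    · have := hPQr z (List.mem_append_left _ hz); omega
    · omega
    · exact (hXr z hz).2
    · omega
    · have := hPQr z (List.mem_append_right _ hz); omega
    · omega
    · have := hYr z hz; omega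
  · have e1 := hT.len
    simp only [List.length_append, List.length_cons, List.length_map]
    omega
  · rcases hE with hE | hE
    · have h := hE.map (off k + ·)
      have h' := h.right (X ++ (off k + d) :: (Q.map (off k + ·) ++ (off k + 1) :: Y) ++ [off k])
      simpa using h'
    · have h := hE.map (off k + ·)
      have h' := (h.right (Y ++ [off k])).left (off k :: (P.map (off k + ·) ++ (off k + c) :: X))
      simpa using h'

theorem goodAB {J k : ℕ} (hk : k < J) {t : ℕ} {P : List ℕ} (hT : ABs t P) {Y : List ℕ} (hY : Y.Nodup)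
    (hYr : ∀ z ∈ Y, z < off k) (hYp : Pth (GA J) (off k + 1) (off k) Y) {e : ℕ × ℕ}
    (hE : E2 e.1 e.2 (0 :: (P ++ [1]))) {m : ℕ} (hm : t + (Y.length + 1) = m) :
    Good J (off k + e.1) (off k + e.2) m := by
  have hoJ : off k + 48 ≤ off J := by rw [← off_succ]; exact off_mono (by omega)
  have hPr : ∀ z ∈ P.map (off k + ·), off k + 2 ≤ z ∧ z < off k + 50 := by
    intro z hz
    obtain ⟨w, hw, rfl⟩ := mem_shift hz
    have := hT.rng w hw
    omega
  have h1 : Pth (GA J) (off k) (off k + 1) (P.map (off k + ·)) := mapK hk hT.pth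
  refine ⟨off k, P.map (off k + ·) ++ (off k + 1) :: Y, h1.trans hYp, ?_, ?_, ?_, ?_⟩
  · have s1 : ((off k + 1) :: Y).Nodup := List.nodup_cons.2 ⟨fun h => by have := hYr _ h; omega, hY⟩
    have s2 : (P.map (off k + ·) ++ (off k + 1) :: Y).Nodup := by
      refine nd_app (nodup_shift hT.nd) s1 (fun x hx y hy => ?_)
      have := hPr x hx
      rcases List.mem_cons.1 hy with rfl | hy
      · omega
      · have := hYr y hy; omega
    refine List.nodup_cons.2 ⟨fun h => ?_, s2⟩
    rcases List.mem_append.1 h with h | h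
    · have := hPr _ h; omega
    rcases List.mem_cons.1 h with h | h
    · omega
    · have := hYr _ h; omega
  · intro z hz
    simp only [List.mem_append, List.mem_cons] at hz
    rcases hz with hz | hz | hz | hz
    · omega
    · have := hPr z hz; omega
    · omega
    · have := hYr z hz; omega
  · have e1 := hT.len
    simp only [List.length_append, List.length_cons, List.length_map]
    omega
  · have h := hE.map (off k + ·)
    have h' := h.right (Y ++ [off k])
    simpa using h'

theorem goodCD {J k : ℕ} (hk : k < J) {t : ℕ} {P : List ℕ} (hT : CDs t P) {X : List ℕ} (hX : X.Nodup)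
    (hXr : ∀ z ∈ X, off k + 50 ≤ z ∧ z < off J + 10) (hXp : Pth (GA J) (off k + 49) (off k + 48) X) {e : ℕ × ℕ}
    (hE : E2 e.1 e.2 (48 :: (P ++ [49]))) {m : ℕ} (hm : t + (X.length + 1) = m) :
    Good J (off k + e.1) (off k + e.2) m := by
  have hoJ : off k + 48 ≤ off J := by rw [← off_succ]; exact off_mono (by omega)
  have hPr : ∀ z ∈ P.map (off k + ·), z < off k + 48 := by
    intro z hz
    obtain ⟨w, hw, rfl⟩ := mem_shift hz
    have := hT.rng w hw
    omega
  have h1 : Pth (GA J) (off k + 48) (off k + 49) (P.map (off k + ·)) := mapK hk hT.pth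
  refine ⟨off k + 48, P.map (off k + ·) ++ (off k + 49) :: X, h1.trans hXp, ?_, ?_, ?_, ?_⟩
  · have s1 : ((off k + 49) :: X).Nodup := List.nodup_cons.2 ⟨fun h => by have := hXr _ h; omega, hX⟩
    have s2 : (P.map (off k + ·) ++ (off k + 49) :: X).Nodup := by
      refine nd_app (nodup_shift hT.nd) s1 (fun x hx y hy => ?_)
      have := hPr x hx
      rcases List.mem_cons.1 hy with rfl | hy
      · omega
      · have := hXr y hy; omega
    refine List.nodup_cons.2 ⟨fun h => ?_, s2⟩
    rcases List.mem_append.1 h with h | h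
    · have := hPr _ h; omega
    rcases List.mem_cons.1 h with h | h
    · omega
    · have := hXr _ h; omega
  · intro z hz
    simp only [List.mem_append, List.mem_cons] at hz
    rcases hz with hz | hz | hz | hz
    · omega
    · have := hPr z hz; omega
    · omega
    · exact (hXr z hz).2
  · have e1 := hT.len
    simp only [List.length_append, List.length_cons, List.length_map]
    omega
  · have h := hE.map (off k + ·)
    have h' := h.right (X ++ [off k + 48])
    simpa using h'

theorem goodCY {J k : ℕ} (hk : k < J) {t a : ℕ} {l : List ℕ} (h : CYs t a l) {e : ℕ × ℕ}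
    (hE : E2 e.1 e.2 (a :: (l ++ [a]))) : Good J (off k + e.1) (off k + e.2) t := by
  have hoJ : off k + 48 ≤ off J := by rw [← off_succ]; exact off_mono (by omega)
  refine ⟨off k + a, l.map (off k + ·), mapK hk h.pth, ?_, ?_, by rw [List.length_map]; exact h.len, ?_⟩
  · have := nodup_shift (o := off k) h.nd
    simpa using this
  · intro z hz
    have hz' : z ∈ (a :: l).map (off k + ·) := by simpa using hz
    obtain ⟨w, hw, rfl⟩ := mem_shift hz'
    have := h.rng w hw
    omega
  · have := hE.map (off k + ·)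
    simpa using this

/-- through an edge of a macro there are cycles of all lengths -/
theorem main_mac {J k m : ℕ} (hk : k < J) {e : ℕ × ℕ} (he : e ∈ macE) (h3 : 3 ≤ m) (hm : m ≤ off J + 10) :
    Good J (off k + e.1) (off k + e.2) m := by
  have hin : ∀ x, 8 ≤ x → x ≤ 48 * (J - (k + 1)) + 9 → ∃ I, InI J (k + 1) x I := fun x h1 h2 =>
    inI J (J - (k + 1)) (k + 1) (by omega) x h1 h2
  have hout : ∀ x, 2 ≤ x → x ≤ 48 * k + 9 → ∃ I, OutI J k x I := fun x h1 h2 => outI J k (by omega) x h1 h2
  -- packages for the interiors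
  have hinP : ∀ x, 8 ≤ x → x ≤ 48 * (J - (k + 1)) + 9 → ∃ I : List ℕ, I.length + 1 = x ∧ I.Nodup ∧
      (∀ z ∈ I, off k + 50 ≤ z ∧ z < off J + 10) ∧ Pth (GA J) (off k + 48) (off k + 49) I := by
    intro x h1 h2
    obtain ⟨I, hI⟩ := hin x h1 h2
    have hp := hI.pth
    rw [off_succ] at hp
    refine ⟨I, hI.len, hI.nd, fun z hz => ?_, hp⟩
    have := hI.rng z hz
    rw [off_succ] at this
    omega
  have hinR : ∀ x, 8 ≤ x → x ≤ 48 * (J - (k + 1)) + 9 → ∃ I : List ℕ, I.length + 1 = x ∧ I.Nodup ∧
      (∀ z ∈ I, off k + 50 ≤ z ∧ z < off J + 10) ∧ Pth (GA J) (off k + 49) (off k + 48) I := by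
    intro x h1 h2
    obtain ⟨I, e1, e2, e3, e4⟩ := hinP x h1 h2
    exact ⟨I.reverse, by rw [List.length_reverse]; exact e1, List.nodup_reverse.2 e2,
      fun z hz => e3 z (List.mem_reverse.1 hz), e4.symm GA_symm⟩
  have houtR : ∀ x, 2 ≤ x → x ≤ 48 * k + 9 → ∃ I : List ℕ, I.length + 1 = x ∧ I.Nodup ∧
      (∀ z ∈ I, z < off k) ∧ Pth (GA J) (off k + 1) (off k) I := by
    intro x h1 h2
    obtain ⟨I, hI⟩ := hout x h1 h2
    exact ⟨I.reverse, by rw [List.length_reverse]; exact hI.len, List.nodup_reverse.2 hI.nd,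
      fun z hz => hI.rng z (List.mem_reverse.1 hz), hI.pth.symm GA_symm⟩
  have caseT : ∀ t l q, Ts 48 49 t l q → (E2 e.1 e.2 (0 :: (l ++ [48])) ∨ E2 e.1 e.2 (49 :: (q ++ [1]))) →
      ∀ x y, 8 ≤ x → x ≤ 48 * (J - (k + 1)) + 9 → 2 ≤ y → y ≤ 48 * k + 9 → t + x + y = m →
      Good J (off k + e.1) (off k + e.2) m := by
    intro t l q hT hE x y hx1 hx2 hy1 hy2 hxy
    obtain ⟨X, x1, x2, x3, x4⟩ := hinP x hx1 hx2
    obtain ⟨Y, y1, y2, y3, y4⟩ := houtR y hy1 hy2
    exact good4 hk (Or.inl ⟨rfl, rfl⟩) hT x2 x3 x4 y2 y3 y4 hE (by omega)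
  have caseTX : ∀ t l q, Ts 49 48 t l q → (E2 e.1 e.2 (0 :: (l ++ [49])) ∨ E2 e.1 e.2 (48 :: (q ++ [1]))) →
      ∀ x y, 8 ≤ x → x ≤ 48 * (J - (k + 1)) + 9 → 2 ≤ y → y ≤ 48 * k + 9 → t + x + y = m →
      Good J (off k + e.1) (off k + e.2) m := by
    intro t l q hT hE x y hx1 hx2 hy1 hy2 hxy
    obtain ⟨X, x1, x2, x3, x4⟩ := hinR x hx1 hx2
    obtain ⟨Y, y1, y2, y3, y4⟩ := houtR y hy1 hy2
    exact good4 hk (Or.inr ⟨rfl, rfl⟩) hT x2 x3 x4 y2 y3 y4 hE (by omega)
  rcases Nat.lt_or_ge m 59 with hm1 | hm1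
  · obtain ⟨T, hT⟩ := exTab m h3 (by omega)
    rcases cover_of hT he with ⟨a, l, h, hE⟩ | ⟨l, h, hE⟩ | ⟨l, h, hE⟩ | ⟨l, q, h, hE⟩ | ⟨l, q, h, hE⟩
    · exact goodCY hk h hE
    · obtain ⟨Y, y1, y2, y3, y4⟩ := houtR 2 (le_refl _) (by omega)
      have := h.len
      exact goodAB hk h y2 y3 y4 hE (by omega)
    · obtain ⟨X, x1, x2, x3, x4⟩ := hinR 8 (le_refl _) (by omega)
      have := h.len
      exact goodCD hk h x2 x3 x4 hE (by omega)
    · have := h.len
      exact caseT _ l q h hE 8 2 (le_refl _) (by omega) (le_refl _) (by omega) (by omega)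
    · have := h.len
      exact caseTX _ l q h hE 8 2 (le_refl _) (by omega) (le_refl _) (by omega) (by omega)
  · obtain ⟨x, y, hx1, hx2, hy1, hy2, hxy⟩ : ∃ x y, 8 ≤ x ∧ x ≤ 48 * (J - (k + 1)) + 9 ∧ 2 ≤ y ∧
        y ≤ 48 * k + 9 ∧ 48 + x + y = m := by
      unfold off at hm
      rcases Nat.lt_or_ge (m - 50) (48 * (J - (k + 1)) + 10) with h | h
      · exact ⟨m - 50, 2, by omega, by omega, by omega, by omega, by omega⟩
      · exact ⟨48 * (J - (k + 1)) + 9, m - 48 - (48 * (J - (k + 1)) + 9), by omega, by omega, by omega, by omega,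
          by omega⟩
    rcases ham_cover he with ⟨l, q, h, hE⟩ | ⟨l, q, h, hE⟩
    · exact caseT _ l q h hE x y hx1 hx2 hy1 hy2 hxy
    · exact caseTX _ l q h hE x y hx1 hx2 hy1 hy2 hxy

/-- through an edge of the outer cap -/
theorem main_capO {J m : ℕ} {e : ℕ × ℕ} (he : e ∈ capE) (h3 : 3 ≤ m) (hm : m ≤ off J + 10) :
    Good J (cO e.1) (cO e.2) m := by
  have hoJ : 8 ≤ off J := by unfold off; omega
  rcases Nat.lt_or_ge m 11 with hm1 | hm1
  · obtain ⟨a, l, h, hE⟩ := capCyc h3 (by omega) he
    refine ⟨cO a, l.map cO, mapO h.pth, ?_, ?_, by rw [List.length_map]; exact h.len, ?_⟩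
    · have : ((a :: l).map cO).Nodup := List.Nodup.map_on
        (fun x hx y hy hxy => cO_inj (h.rng x hx) (h.rng y hy) hxy) h.nd
      simpa using this
    · intro z hz
      have hz' : z ∈ (a :: l).map cO := by simpa using hz
      rw [List.mem_map] at hz'
      obtain ⟨w, hw, rfl⟩ := hz'
      have := cO_lt (h.rng w hw)
      omega
    · have := hE.map cO
      simpa using this
  · obtain ⟨t, x, ht1, ht2, hx1, hx2, htx⟩ : ∃ t x, 3 ≤ t ∧ t ≤ 9 ∧ 8 ≤ x ∧ x ≤ 48 * J + 9 ∧ t + x = m := by
      unfold off at hm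
      rcases Nat.lt_or_ge m 18 with h | h
      · exact ⟨m - 8, 8, by omega, by omega, by omega, by omega, by omega⟩
      · exact ⟨9, m - 9, by omega, by omega, by omega, by omega, by omega⟩
    obtain ⟨l, h, hE⟩ := capPath ht1 ht2 he
    obtain ⟨I, hI⟩ := inI J J 0 (by omega) x hx1 hx2
    have hp : Pth (GA J) (cO 0) (cO 1) (l.map cO) := mapO h.pth
    have hq : Pth (GA J) (cO 1) (cO 0) I.reverse := (hI.pth).symm GA_symm
    have hlr : ∀ z ∈ l.map cO, z < 8 := by
      intro z hz
      rw [List.mem_map] at hz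
      obtain ⟨w, hw, rfl⟩ := hz
      have := h.rng w hw
      unfold cO
      split_ifs <;> omega
    have hIr : ∀ z ∈ I.reverse, 10 ≤ z ∧ z < off J + 10 := by
      intro z hz
      have := hI.rng z (List.mem_reverse.1 hz)
      unfold off at this ⊢
      omega
    refine ⟨cO 0, l.map cO ++ (cO 1) :: I.reverse, hp.trans hq, ?_, ?_, ?_, ?_⟩
    · have s1 : ((cO 1) :: I.reverse).Nodup := List.nodup_cons.2 ⟨fun h => by
        have := hIr _ h; have e1 : cO 1 = 9 := rfl; omega, List.nodup_reverse.2 hI.nd⟩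
      have s2 : (l.map cO ++ (cO 1) :: I.reverse).Nodup := by
        refine nd_app (List.Nodup.map_on
          (fun x hx y hy hxy => cO_inj (h.rng x hx).2 (h.rng y hy).2 hxy) h.nd) s1 (fun x hx y hy => ?_)
        have := hlr x hx
        have e1 : cO 1 = 9 := rfl
        rcases List.mem_cons.1 hy with rfl | hy
        · omega
        · have := hIr y hy; omega
      refine List.nodup_cons.2 ⟨fun h => ?_, s2⟩
      have e0 : cO 0 = 8 := rfl
      have e1 : cO 1 = 9 := rfl
      rcases List.mem_append.1 h with h | h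
      · have := hlr _ h; omega
      rcases List.mem_cons.1 h with h | h
      · omega
      · have := hIr _ h; omega
    · intro z hz
      have e0 : cO 0 = 8 := rfl
      have e1 : cO 1 = 9 := rfl
      simp only [List.mem_append, List.mem_cons] at hz
      rcases hz with hz | hz | hz | hz
      · omega
      · have := hlr z hz; omega
      · omega
      · exact (hIr z hz).2
    · have e1 := h.len
      have e2 := hI.len
      simp only [List.length_append, List.length_cons, List.length_map, List.length_reverse]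
      omega
    · have := (hE.map cO).right (I.reverse ++ [cO 0])
      simpa using this

/-- through an edge of the inner cap -/
theorem main_capI {J m : ℕ} {e : ℕ × ℕ} (he : e ∈ capE) (h3 : 3 ≤ m) (hm : m ≤ off J + 10) :
    Good J (off J + e.1) (off J + e.2) m := by
  rcases Nat.lt_or_ge m 11 with hm1 | hm1
  · obtain ⟨a, l, h, hE⟩ := capCyc h3 (by omega) he
    refine ⟨off J + a, l.map (off J + ·), mapI h.pth, ?_, ?_, by rw [List.length_map]; exact h.len, ?_⟩
    · have := nodup_shift (o := off J) h.nd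
      simpa using this
    · intro z hz
      have hz' : z ∈ (a :: l).map (off J + ·) := by simpa using hz
      obtain ⟨w, hw, rfl⟩ := mem_shift hz'
      have := h.rng w hw
      omega
    · have := hE.map (off J + ·)
      simpa using this
  · obtain ⟨l, h, hE⟩ := capPath (m := 9) (by omega) (le_refl _) he
    obtain ⟨I, hI⟩ := outI J J (le_refl _) (m - 9) (by omega) (by unfold off at hm; omega)
    have hp : Pth (GA J) (off J) (off J + 1) (l.map (off J + ·)) := mapI h.pth
    have hq : Pth (GA J) (off J + 1) (off J) I.reverse := (hI.pth).symm GA_symm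
    have hlr : ∀ z ∈ l.map (off J + ·), off J + 2 ≤ z ∧ z < off J + 10 := by
      intro z hz
      obtain ⟨w, hw, rfl⟩ := mem_shift hz
      have := h.rng w hw
      omega
    have hIr : ∀ z ∈ I.reverse, z < off J := fun z hz => hI.rng z (List.mem_reverse.1 hz)
    refine ⟨off J, l.map (off J + ·) ++ (off J + 1) :: I.reverse, hp.trans hq, ?_, ?_, ?_, ?_⟩
    · have s1 : ((off J + 1) :: I.reverse).Nodup := List.nodup_cons.2 ⟨fun h => by
        have := hIr _ h; omega, List.nodup_reverse.2 hI.nd⟩
      have s2 : (l.map (off J + ·) ++ (off J + 1) :: I.reverse).Nodup := by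
        refine nd_app (nodup_shift h.nd) s1 (fun x hx y hy => ?_)
        have := hlr x hx
        rcases List.mem_cons.1 hy with rfl | hy
        · omega
        · have := hIr y hy; omega
      refine List.nodup_cons.2 ⟨fun h => ?_, s2⟩
      rcases List.mem_append.1 h with h | h
      · have := hlr _ h; omega
      rcases List.mem_cons.1 h with h | h
      · omega
      · have := hIr _ h; omega
    · intro z hz
      simp only [List.mem_append, List.mem_cons] at hz
      rcases hz with hz | hz | hz | hz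
      · omega
      · exact (hlr z hz).2
      · omega
      · have := hIr z hz; omega
    · have e1 := h.len
      have e2 := hI.len
      simp only [List.length_append, List.length_cons, List.length_map, List.length_reverse]
      omega
    · have := (hE.map (off J + ·)).right (I.reverse ++ [off J])
      simpa using this

theorem main_all {J m x y : ℕ} (h : GA J x y) (h3 : 3 ≤ m) (hm : m ≤ off J + 10) : Good J x y m := by
  have hsw : ∀ x y, Good J x y m → Good J y x m := by
    rintro x y ⟨a, I, h1, h2, h3, h4, h5⟩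
    exact ⟨a, I, h1, h2, h3, h4, h5.symm⟩
  rcases h with ⟨u, v, h, rfl, rfl⟩ | ⟨k, hk, u, v, h, rfl, rfl⟩ | ⟨u, v, h, rfl, rfl⟩
  · rcases h with h | h
    · exact main_capO h h3 hm
    · exact hsw _ _ (main_capO h h3 hm)
  · rcases h with h | h
    · exact main_mac hk h h3 hm
    · exact hsw _ _ (main_mac hk h h3 hm)
  · rcases h with h | h
    · exact main_capI h h3 hm
    · exact hsw _ _ (main_capI h h3 hm)

end Pool.Agent.V11124.Ep
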