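import Pool.Agent.V11124.EpTables
import Pool.Agent.V11124.EpChain

/-! The nested chain of macros and its cycles. -/

namespace Pool.Agent.V11124.Ep

open SimpleGraph

def MA (u v : ℕ) : Prop := (u, v) ∈ macE ∨ (v, u) ∈ macE

def CA (u v : ℕ) : Prop := (u, v) ∈ capE ∨ (v, u) ∈ capE

theorem MA_symm {u v : ℕ} (h : MA u v) : MA v u := Or.symm h

theorem CA_symm {u v : ℕ} (h : CA u v) : CA v u := Or.symm h

theorem adjM_MA0 : ∀ u v : Fin 50, adjM u v = true → ((u.1, v.1) ∈ macE ∨ (v.1, u.1) ∈ macE) := by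
  decide +kernel

theorem adjC_CA0 : ∀ u v : Fin 10, adjC u v = true → ((u.1, v.1) ∈ capE ∨ (v.1, u.1) ∈ capE) := by
  decide +kernel

theorem adjM_MA (u v : ℕ) (hu : u < 50) (hv : v < 50) (h : adjM u v = true) : MA u v :=
  adjM_MA0 ⟨u, hu⟩ ⟨v, hv⟩ h

theorem adjC_CA (u v : ℕ) (hu : u < 10) (hv : v < 10) (h : adjC u v = true) : CA u v :=
  adjC_CA0 ⟨u, hu⟩ ⟨v, hv⟩ h

theorem macE_lt : ∀ e ∈ macE, e.1 < e.2 ∧ e.2 < 50 := by decide +kernel

theorem capE_lt : ∀ e ∈ capE, e.1 < e.2 ∧ e.2 < 10 := by decide +kernel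

theorem pthM {x y : ℕ} {l : List ℕ} (hx : x < 50) (hy : y < 50) (hl : ∀ z ∈ l, z < 50)
    (h : chainB adjM (x :: (l ++ [y])) = true) : Pth MA x y l := by
  refine chain_of adjM_MA _ ?_ h
  intro z hz
  simp only [List.mem_cons, List.mem_append, List.not_mem_nil, or_false] at hz
  rcases hz with rfl | hz | rfl
  · exact hx
  · exact hl z hz
  · exact hy

theorem pthC {x y : ℕ} {l : List ℕ} (hx : x < 10) (hy : y < 10) (hl : ∀ z ∈ l, z < 10)
    (h : chainB adjC (x :: (l ++ [y])) = true) : Pth CA x y l := by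
  refine chain_of adjC_CA _ ?_ h
  intro z hz
  simp only [List.mem_cons, List.mem_append, List.not_mem_nil, or_false] at hz
  rcases hz with rfl | hz | rfl
  · exact hx
  · exact hl z hz
  · exact hy

theorem covers_iff {E : List (ℕ × ℕ)} {l : List ℕ} (h : covers E l = true) : ∀ e ∈ E, 64 * e.1 + e.2 ∈ l := by
  intro e he
  have h1 := List.all_eq_true.1 h e he
  rw [List.any_eq_true] at h1
  obtain ⟨c, hc, h2⟩ := h1
  have h3 : c = 64 * e.1 + e.2 := by simpa using h2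
  exact h3 ▸ hc

theorem E2_path {N x y : ℕ} (hN : N ≤ 64) {l : List ℕ} (hx : x < N) (hy : y < N) (hl : ∀ z ∈ l, z < N)
    {e : ℕ × ℕ} (he : e.1 < e.2) (he2 : e.2 < 64) (h : 64 * e.1 + e.2 ∈ codes (x :: (l ++ [y]))) :
    E2 e.1 e.2 (x :: (l ++ [y])) := by
  refine E2_of_code he he2 _ ?_ h
  intro z hz
  simp only [List.mem_cons, List.mem_append, List.not_mem_nil, or_false] at hz
  rcases hz with rfl | hz | rfl
  · omega
  · have := hl z hz; omega
  · omega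

structure ABs (m : ℕ) (l : List ℕ) : Prop where
  len : l.length + 1 = m
  rng : ∀ z ∈ l, 2 ≤ z ∧ z < 50
  nd : l.Nodup
  pth : Pth MA 0 1 l

structure CDs (m : ℕ) (l : List ℕ) : Prop where
  len : l.length + 1 = m
  rng : ∀ z ∈ l, z < 48
  nd : l.Nodup
  pth : Pth MA 48 49 l

structure Ts (c d m : ℕ) (l k : List ℕ) : Prop where
  len : l.length + k.length + 2 = m
  rng : ∀ z ∈ l ++ k, 2 ≤ z ∧ z < 48
  nd : (l ++ k).Nodup
  p1 : Pth MA 0 c l
  p2 : Pth MA d 1 k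

theorem okAB_spec {m : ℕ} {l : List ℕ} (h : okAB m l = true) : ABs m l := by
  simp only [okAB, Bool.and_eq_true] at h
  obtain ⟨h1, h2, h3, h4⟩ := h
  have h2' := inR_iff h2
  exact ⟨by simpa using h1, h2', nodup_of_nodupB _ h3, pthM (by omega) (by omega) (fun z hz => (h2' z hz).2) h4⟩

theorem okCD_spec {m : ℕ} {l : List ℕ} (h : okCD m l = true) : CDs m l := by
  simp only [okCD, Bool.and_eq_true] at h
  obtain ⟨h1, h2, h3, h4⟩ := h
  have h2' := inR_iff h2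
  exact ⟨by simpa using h1, fun z hz => (h2' z hz).2, nodup_of_nodupB _ h3,
    pthM (by omega) (by omega) (fun z hz => by have := h2' z hz; omega) h4⟩

theorem okT_spec {m : ℕ} {l k : List ℕ} (h : okT m l k = true) : Ts 48 49 m l k := by
  simp only [okT, Bool.and_eq_true] at h
  obtain ⟨h1, h2, h3, h4, h5⟩ := h
  have h2' := inR_iff h2
  exact ⟨by simpa using h1, h2', nodup_of_nodupB _ h3,
    pthM (by omega) (by omega) (fun z hz => by have := h2' z (List.mem_append_left _ hz); omega) h4,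
    pthM (by omega) (by omega) (fun z hz => by have := h2' z (List.mem_append_right _ hz); omega) h5⟩

theorem okTX_spec {m : ℕ} {l k : List ℕ} (h : okTX m l k = true) : Ts 49 48 m l k := by
  simp only [okTX, Bool.and_eq_true] at h
  obtain ⟨h1, h2, h3, h4, h5⟩ := h
  have h2' := inR_iff h2
  exact ⟨by simpa using h1, h2', nodup_of_nodupB _ h3,
    pthM (by omega) (by omega) (fun z hz => by have := h2' z (List.mem_append_left _ hz); omega) h4,
    pthM (by omega) (by omega) (fun z hz => by have := h2' z (List.mem_append_right _ hz); omega) h5⟩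

/-- closed walk in the macro -/
structure CYs (m a : ℕ) (l : List ℕ) : Prop where
  len : l.length + 1 = m
  rng : ∀ z ∈ a :: l, z < 50
  nd : (a :: l).Nodup
  pth : Pth MA a a l

structure CCs (m a : ℕ) (l : List ℕ) : Prop where
  len : l.length + 1 = m
  rng : ∀ z ∈ a :: l, z < 10
  nd : (a :: l).Nodup
  pth : Pth CA a a l

/-- path from `0` to `1` in the cap -/
structure CPs (m : ℕ) (l : List ℕ) : Prop where
  len : l.length + 1 = m
  rng : ∀ z ∈ l, 2 ≤ z ∧ z < 10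
  nd : l.Nodup
  pth : Pth CA 0 1 l

theorem mem_codesT {t : List (ℕ × ℕ)} {c : ℕ} (h : c ∈ codesT t) :
    ∃ p ∈ t, c ∈ codes (0 :: (dec p.1 ++ [48])) ∨ c ∈ codes (49 :: (dec p.2 ++ [1])) := by
  unfold codesT at h
  rw [List.mem_flatMap] at h
  obtain ⟨p, hp, h⟩ := h
  exact ⟨p, hp, List.mem_append.1 h⟩

theorem mem_codesTX {t : List (ℕ × ℕ)} {c : ℕ} (h : c ∈ codesTX t) :
    ∃ p ∈ t, c ∈ codes (0 :: (dec p.1 ++ [49])) ∨ c ∈ codes (48 :: (dec p.2 ++ [1])) := by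
  unfold codesTX at h
  rw [List.mem_flatMap] at h
  obtain ⟨p, hp, h⟩ := h
  exact ⟨p, hp, List.mem_append.1 h⟩

theorem Ts_cover {c d m : ℕ} {l k : List ℕ} (hc : c < 50) (hd : d < 50) (h : Ts c d m l k) {e : ℕ × ℕ} (he : e ∈ macE)
    (h1 : 64 * e.1 + e.2 ∈ codes (0 :: (l ++ [c])) ∨ 64 * e.1 + e.2 ∈ codes (d :: (k ++ [1]))) :
    E2 e.1 e.2 (0 :: (l ++ [c])) ∨ E2 e.1 e.2 (d :: (k ++ [1])) := by
  have h2 := macE_lt e he
  rcases h1 with h1 | h1
  · exact Or.inl (E2_path (N := 50) (by omega) (by omega) hc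
      (fun z hz => by have := h.rng z (List.mem_append_left _ hz); omega) h2.1 (by omega) h1)
  · exact Or.inr (E2_path (N := 50) (by omega) hd (by omega)
      (fun z hz => by have := h.rng z (List.mem_append_right _ hz); omega) h2.1 (by omega) h1)

theorem cover_of {m : ℕ} {t : T5} (h : okLen m t = true) {e : ℕ × ℕ} (he : e ∈ macE) :
    (∃ a l, CYs m a l ∧ E2 e.1 e.2 (a :: (l ++ [a]))) ∨
    (∃ l, ABs (m - 2) l ∧ E2 e.1 e.2 (0 :: (l ++ [1]))) ∨
    (∃ l, CDs (m - 8) l ∧ E2 e.1 e.2 (48 :: (l ++ [49]))) ∨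
    (∃ l k, Ts 48 49 (m - 10) l k ∧ (E2 e.1 e.2 (0 :: (l ++ [48])) ∨ E2 e.1 e.2 (49 :: (k ++ [1])))) ∨
    (∃ l k, Ts 49 48 (m - 10) l k ∧ (E2 e.1 e.2 (0 :: (l ++ [49])) ∨ E2 e.1 e.2 (48 :: (k ++ [1])))) := by
  have hlt := macE_lt e he
  simp only [okLen, Bool.and_eq_true] at h
  obtain ⟨h1, h2, h3, h4, h5, h6⟩ := h
  have hc := covers_iff h6 e he
  unfold codes5 at hc
  simp only [List.mem_append, List.mem_flatMap] at hc
  rcases hc with ⟨c, hc, hc2⟩ | ⟨c, hc, hc2⟩ | ⟨c, hc, hc2⟩ | hc | hc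
  · left
    have hk := List.all_eq_true.1 h1 c hc
    simp only [okCy, Bool.and_eq_true] at hk
    obtain ⟨k1, k2, k3, k4⟩ := hk
    generalize hL : dec c = L at *
    cases L with
    | nil => simp [closeL, codes] at hc2
    | cons a l =>
      have k2' := inR_iff k2
      have ha : a < 50 := (k2' a (by simp)).2
      have hl : ∀ z ∈ l, z < 50 := fun z hz => (k2' z (List.mem_cons_of_mem _ hz)).2
      exact ⟨a, l, ⟨by simpa using k1, fun z hz => (k2' z hz).2, nodup_of_nodupB _ k3, pthM ha ha hl k4⟩,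
        E2_path (N := 50) (by omega) ha ha hl hlt.1 (by omega) hc2⟩
  · right; left
    have hs := okAB_spec (List.all_eq_true.1 h2 c hc)
    exact ⟨_, hs, E2_path (N := 50) (by omega) (by omega) (by omega) (fun z hz => (hs.rng z hz).2) hlt.1 (by omega) hc2⟩
  · right; right; left
    have hs := okCD_spec (List.all_eq_true.1 h3 c hc)
    exact ⟨_, hs, E2_path (N := 50) (by omega) (by omega) (by omega)
      (fun z hz => by have := hs.rng z hz; omega) hlt.1 (by omega) hc2⟩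
  · right; right; right; left
    obtain ⟨p, hp, hp2⟩ := mem_codesT hc
    have hs := okT_spec (List.all_eq_true.1 h4 p hp)
    exact ⟨_, _, hs, Ts_cover (by omega) (by omega) hs he hp2⟩
  · right; right; right; right
    obtain ⟨p, hp, hp2⟩ := mem_codesTX hc
    have hs := okTX_spec (List.all_eq_true.1 h5 p hp)
    exact ⟨_, _, hs, Ts_cover (by omega) (by omega) hs he hp2⟩

theorem ham_cover {e : ℕ × ℕ} (he : e ∈ macE) :
    (∃ l k, Ts 48 49 48 l k ∧ (E2 e.1 e.2 (0 :: (l ++ [48])) ∨ E2 e.1 e.2 (49 :: (k ++ [1])))) ∨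
    (∃ l k, Ts 49 48 48 l k ∧ (E2 e.1 e.2 (0 :: (l ++ [49])) ∨ E2 e.1 e.2 (48 :: (k ++ [1])))) := by
  have h := ok_ham
  simp only [okHam, Bool.and_eq_true] at h
  obtain ⟨h4, h5, h6⟩ := h
  have hc := covers_iff h6 e he
  rw [List.mem_append] at hc
  rcases hc with hc | hc
  · left
    obtain ⟨p, hp, hp2⟩ := mem_codesT hc
    have hs := okT_spec (List.all_eq_true.1 h4 p hp)
    exact ⟨_, _, hs, Ts_cover (by omega) (by omega) hs he hp2⟩
  · right
    obtain ⟨p, hp, hp2⟩ := mem_codesTX hc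
    have hs := okTX_spec (List.all_eq_true.1 h5 p hp)
    exact ⟨_, _, hs, Ts_cover (by omega) (by omega) hs he hp2⟩

theorem exTab (m : ℕ) (h1 : 3 ≤ m) (h2 : m ≤ 58) : ∃ t, okLen m t = true := by
  interval_cases m
  · exact ⟨_, okl3⟩
  · exact ⟨_, okl4⟩
  · exact ⟨_, okl5⟩
  · exact ⟨_, okl6⟩
  · exact ⟨_, okl7⟩
  · exact ⟨_, okl8⟩
  · exact ⟨_, okl9⟩
  · exact ⟨_, okl10⟩
  · exact ⟨_, okl11⟩
  · exact ⟨_, okl12⟩
  · exact ⟨_, okl13⟩
  · exact ⟨_, okl14⟩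
  · exact ⟨_, okl15⟩
  · exact ⟨_, okl16⟩
  · exact ⟨_, okl17⟩
  · exact ⟨_, okl18⟩
  · exact ⟨_, okl19⟩
  · exact ⟨_, okl20⟩
  · exact ⟨_, okl21⟩
  · exact ⟨_, okl22⟩
  · exact ⟨_, okl23⟩
  · exact ⟨_, okl24⟩
  · exact ⟨_, okl25⟩
  · exact ⟨_, okl26⟩
  · exact ⟨_, okl27⟩
  · exact ⟨_, okl28⟩
  · exact ⟨_, okl29⟩
  · exact ⟨_, okl30⟩
  · exact ⟨_, okl31⟩
  · exact ⟨_, okl32⟩
  · exact ⟨_, okl33⟩
  · exact ⟨_, okl34⟩
  · exact ⟨_, okl35⟩
  · exact ⟨_, okl36⟩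
  · exact ⟨_, okl37⟩
  · exact ⟨_, okl38⟩
  · exact ⟨_, okl39⟩
  · exact ⟨_, okl40⟩
  · exact ⟨_, okl41⟩
  · exact ⟨_, okl42⟩
  · exact ⟨_, okl43⟩
  · exact ⟨_, okl44⟩
  · exact ⟨_, okl45⟩
  · exact ⟨_, okl46⟩
  · exact ⟨_, okl47⟩
  · exact ⟨_, okl48⟩
  · exact ⟨_, okl49⟩
  · exact ⟨_, okl50⟩
  · exact ⟨_, okl51⟩
  · exact ⟨_, okl52⟩
  · exact ⟨_, okl53⟩
  · exact ⟨_, okl54⟩
  · exact ⟨_, okl55⟩
  · exact ⟨_, okl56⟩
  · exact ⟨_, okl57⟩
  · exact ⟨_, okl58⟩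

theorem capCyc {m : ℕ} (h1 : 3 ≤ m) (h2 : m ≤ 10) {e : ℕ × ℕ} (he : e ∈ capE) :
    ∃ a l, CCs m a l ∧ E2 e.1 e.2 (a :: (l ++ [a])) := by
  have hex : ∃ t, okCapC m t = true := by
    interval_cases m
    · exact ⟨_, okc3⟩
    · exact ⟨_, okc4⟩
    · exact ⟨_, okc5⟩
    · exact ⟨_, okc6⟩
    · exact ⟨_, okc7⟩
    · exact ⟨_, okc8⟩
    · exact ⟨_, okc9⟩
    · exact ⟨_, okc10⟩
  obtain ⟨t, h⟩ := hex
  have hlt := capE_lt e he
  simp only [okCapC, Bool.and_eq_true] at h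
  obtain ⟨h3, h4⟩ := h
  have hc := covers_iff h4 e he
  rw [List.mem_flatMap] at hc
  obtain ⟨c, hc, hc2⟩ := hc
  have hk := List.all_eq_true.1 h3 c hc
  simp only [Bool.and_eq_true] at hk
  obtain ⟨k1, k2, k3, k4⟩ := hk
  generalize hL : dec c = L at *
  cases L with
  | nil => simp [closeL, codes] at hc2
  | cons a l =>
    have k2' := inR_iff k2
    have ha : a < 10 := (k2' a (by simp)).2
    have hl : ∀ z ∈ l, z < 10 := fun z hz => (k2' z (List.mem_cons_of_mem _ hz)).2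
    exact ⟨a, l, ⟨by simpa using k1, fun z hz => (k2' z hz).2, nodup_of_nodupB _ k3, pthC ha ha hl k4⟩,
      E2_path (N := 10) (by omega) ha ha hl hlt.1 (by omega) hc2⟩

theorem capPath {m : ℕ} (h1 : 3 ≤ m) (h2 : m ≤ 9) {e : ℕ × ℕ} (he : e ∈ capE) :
    ∃ l, CPs m l ∧ E2 e.1 e.2 (0 :: (l ++ [1])) := by
  have hex : ∃ t, okCapP m t = true := by
    interval_cases m
    · exact ⟨_, okp3⟩
    · exact ⟨_, okp4⟩
    · exact ⟨_, okp5⟩
    · exact ⟨_, okp6⟩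
    · exact ⟨_, okp7⟩
    · exact ⟨_, okp8⟩
    · exact ⟨_, okp9⟩
  obtain ⟨t, h⟩ := hex
  have hlt := capE_lt e he
  simp only [okCapP, Bool.and_eq_true] at h
  obtain ⟨h3, h4⟩ := h
  have hc := covers_iff h4 e he
  rw [List.mem_flatMap] at hc
  obtain ⟨c, hc, hc2⟩ := hc
  have hk := List.all_eq_true.1 h3 c hc
  simp only [Bool.and_eq_true] at hk
  obtain ⟨k1, k2, k3, k4⟩ := hk
  have k2' := inR_iff k2
  exact ⟨_, ⟨by simpa using k1, k2', nodup_of_nodupB _ k3,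
      pthC (by omega) (by omega) (fun z hz => (k2' z hz).2) k4⟩,
    E2_path (N := 10) (by omega) (by omega) (by omega) (fun z hz => (k2' z hz).2) hlt.1 (by omega) hc2⟩

theorem capAny0 : ∀ x : Fin 10, 2 ≤ x.1 → ((List.range' 2 (x.1 - 1)).length + 1 = x.1 ∧
    inR 2 10 (List.range' 2 (x.1 - 1)) = true ∧ nodupB (List.range' 2 (x.1 - 1)) = true ∧
    chainB adjC (0 :: (List.range' 2 (x.1 - 1) ++ [1])) = true) := by decide +kernel

theorem capAny {m : ℕ} (h1 : 2 ≤ m) (h2 : m ≤ 9) : ∃ l, CPs m l := by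
  obtain ⟨k1, k2, k3, k4⟩ := capAny0 ⟨m, by omega⟩ h1
  have k2' := inR_iff k2
  exact ⟨_, k1, k2', nodup_of_nodupB _ k3, pthC (by omega) (by omega) (fun z hz => (k2' z hz).2) k4⟩

theorem abAny {m : ℕ} (h1 : 8 ≤ m) (h2 : m ≤ 49) : ∃ l, ABs m l := by
  have h := List.all_eq_true.1 ok_abE (m - 8) (List.mem_range.2 (by omega))
  rw [Nat.sub_add_cancel h1] at h
  exact ⟨_, okAB_spec h⟩

theorem cdAny {m : ℕ} (h1 : 2 ≤ m) (h2 : m ≤ 17) : ∃ l, CDs m l := by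
  have h := List.all_eq_true.1 ok_cdE (m - 2) (List.mem_range.2 (by omega))
  rw [Nat.sub_add_cancel h1] at h
  exact ⟨_, okCD_spec h⟩

theorem tAny {m : ℕ} (h1 : 16 ≤ m) (h2 : m ≤ 48) : ∃ l k, Ts 48 49 m l k := by
  have h := List.all_eq_true.1 ok_tE (m - 16) (List.mem_range.2 (by omega))
  rw [Nat.sub_add_cancel h1] at h
  exact ⟨_, _, okT_spec h⟩

end Pool.Agent.V11124.Ep
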