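import Mathlib

namespace Pool.Agent.V11124.SeqCycle

open SimpleGraph

variable {V : Type*}

/-- the walk along a sequence of vertices -/
def seqWalk (H : SimpleGraph V) (f : ℕ → V) : (k : ℕ) → (∀ i < k, H.Adj (f i) (f (i + 1))) → H.Walk (f 0) (f k)
  | 0, _ => Walk.nil
  | k + 1, h => (seqWalk H f k (fun i hi => h i (by omega))).concat (h k (by omega))

theorem seqWalk_length (H : SimpleGraph V) (f : ℕ → V) (k : ℕ) (h : ∀ i < k, H.Adj (f i) (f (i + 1))) :
    (seqWalk H f k h).length = k := by
  induction k with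
  | zero => rfl
  | succ k ih =>
    rw [seqWalk, Walk.length_concat, ih]

theorem mem_seqWalk_support (H : SimpleGraph V) (f : ℕ → V) (k : ℕ) (h : ∀ i < k, H.Adj (f i) (f (i + 1))) (x : V) :
    x ∈ (seqWalk H f k h).support ↔ ∃ i ≤ k, f i = x := by
  induction k with
  | zero =>
    simp [seqWalk, eq_comm]
  | succ k ih =>
    rw [seqWalk, Walk.support_concat, List.mem_append, List.mem_singleton, ih]
    constructor
    · rintro (⟨i, hi, rfl⟩ | rfl)
      · exact ⟨i, by omega, rfl⟩
      · exact ⟨k + 1, le_rfl, rfl⟩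
    · rintro ⟨i, hi, rfl⟩
      rcases Nat.lt_or_ge i (k + 1) with h1 | h1
      · exact Or.inl ⟨i, by omega, rfl⟩
      · right
        rw [show i = k + 1 by omega]

theorem seqWalk_isPath (H : SimpleGraph V) (f : ℕ → V) (k : ℕ) (h : ∀ i < k, H.Adj (f i) (f (i + 1)))
    (hinj : ∀ i ≤ k, ∀ j ≤ k, f i = f j → i = j) : (seqWalk H f k h).IsPath := by
  induction k with
  | zero => simp [seqWalk]
  | succ k ih =>
    rw [seqWalk]
    refine Walk.IsPath.concat (ih (fun i hi => h i (by omega)) (fun i hi j hj => hinj i (by omega) j (by omega))) ?_ _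
    intro hmem
    rw [mem_seqWalk_support] at hmem
    obtain ⟨i, hi, hi'⟩ := hmem
    have := hinj i (by omega) (k + 1) le_rfl hi'
    omega

theorem edge_mem_seqWalk (H : SimpleGraph V) (f : ℕ → V) (k : ℕ) (h : ∀ i < k, H.Adj (f i) (f (i + 1))) (e : Sym2 V)
    (he : e ∈ (seqWalk H f k h).edges) : ∃ i < k, e = s(f i, f (i + 1)) := by
  induction k with
  | zero => simp [seqWalk] at he
  | succ k ih =>
    rw [seqWalk, Walk.edges_concat, List.concat_eq_append, List.mem_append, List.mem_singleton] at he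
    rcases he with he | he
    · obtain ⟨i, hi, hi'⟩ := ih _ he
      exact ⟨i, by omega, hi'⟩
    · exact ⟨k, by omega, he⟩

/-- a cyclic sequence of distinct vertices gives a cycle -/
theorem exists_cycle_of_seq (H : SimpleGraph V) (f : ℕ → V) (k : ℕ) (hk : 2 ≤ k)
    (h : ∀ i < k, H.Adj (f i) (f (i + 1))) (hclose : H.Adj (f k) (f 0))
    (hinj : ∀ i ≤ k, ∀ j ≤ k, f i = f j → i = j) :
    ∃ (v : V) (w : H.Walk v v), w.IsCycle ∧ w.length = k + 1 := by
  refine ⟨f k, Walk.cons hclose (seqWalk H f k h), ?_, by rw [Walk.length_cons, seqWalk_length]⟩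
  rw [Walk.cons_isCycle_iff]
  refine ⟨seqWalk_isPath H f k h hinj, fun he => ?_⟩
  obtain ⟨i, hi, hi'⟩ := edge_mem_seqWalk _ _ _ _ _ he
  rw [Sym2.eq_iff] at hi'
  rcases hi' with ⟨h1, h2⟩ | ⟨h1, h2⟩
  · have := hinj k le_rfl i (by omega) h1
    omega
  · have h3 := hinj k le_rfl (i + 1) (by omega) h1
    have h4 := hinj 0 (by omega) i (by omega) h2
    omega

/-- the vertex set of a cycle -/
theorem cycle_set {G : SimpleGraph V} {v : V} (w : G.Walk v v) (hw : w.IsCycle) :
    ({x | x ∈ w.support} : Set V).ncard = w.length ∧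
      ∀ x ∈ w.support, ∃ y ∈ w.support, ∃ z ∈ w.support, y ≠ z ∧ G.Adj x y ∧ G.Adj x z := by
  classical
  constructor
  · have h1 : w.support.tail.toFinset.card = w.length := by
      rw [List.toFinset_card_of_nodup hw.support_nodup, List.length_tail, Walk.length_support]
      simp
    have h2 : ({x | x ∈ w.support} : Set V) = (w.support.tail.toFinset : Set V) := by
      ext x
      simp only [Set.mem_ofPred_eq, Finset.mem_coe, List.mem_toFinset]
      constructor
      · intro hx
        rw [Walk.mem_support_iff] at hx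
        rcases hx with rfl | hx
        · cases w with
          | nil => exact absurd rfl hw.ne_nil
          | cons h p => simp
        · exact hx
      · exact List.mem_of_mem_tail
    rw [h2, Set.ncard_coe_finset, h1]
  · intro x hx
    have h1 := hw.ncard_neighborSet_toSubgraph_eq_two hx
    rw [Set.ncard_eq_two] at h1
    obtain ⟨y, z, hyz, h2⟩ := h1
    have hy : y ∈ w.toSubgraph.neighborSet x := by rw [h2]; simp
    have hz : z ∈ w.toSubgraph.neighborSet x := by rw [h2]; simp
    have hy' : w.toSubgraph.Adj x y := hy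
    have hz' : w.toSubgraph.Adj x z := hz
    refine ⟨y, ?_, z, ?_, hyz, hy'.adj_sub, hz'.adj_sub⟩
    · rw [← Walk.mem_verts_toSubgraph]; exact w.toSubgraph.edge_vert hy'.symm
    · rw [← Walk.mem_verts_toSubgraph]; exact w.toSubgraph.edge_vert hz'.symm

end Pool.Agent.V11124.SeqCycle
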