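import Mathlib

open Finset Filter Topology

namespace Pool.Agent.V11124.TensorCore

/-- number of maps `V → W` sending edges of `F` to edges of `G` -/
noncomputable def homc {V W : Type} (F : SimpleGraph V) (G : SimpleGraph W) : ℕ :=
  Nat.card {φ : V → W // ∀ a b, F.Adj a b → G.Adj (φ a) (φ b)}

theorem homc_eq {V W : Type} [Fintype V] [DecidableEq V] [Fintype W] (F : SimpleGraph V) (G : SimpleGraph W)
    [DecidablePred fun φ : V → W => ∀ a b, F.Adj a b → G.Adj (φ a) (φ b)] :
    homc F G = #{φ : V → W | ∀ a b, F.Adj a b → G.Adj (φ a) (φ b)} := by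
  unfold homc
  rw [Nat.card_eq_fintype_card, Fintype.card_subtype]

/-- the tensor power graph -/
def tens (m N : ℕ) (hN : 0 < N) : SimpleGraph (Fin N → Fin m) where
  Adj x y := ∀ t, x t ≠ y t
  symm := ⟨fun _ _ h t => (h t).symm⟩
  loopless := ⟨fun _ h => h ⟨0, hN⟩ rfl⟩

theorem homc_tens {V : Type} [Fintype V] (F : SimpleGraph V) (m N : ℕ) (hN : 0 < N) :
    homc F (tens m N hN) = (homc F (⊤ : SimpleGraph (Fin m))) ^ N := by
  classical
  unfold homc
  have e : {φ : V → Fin N → Fin m // ∀ a b, F.Adj a b → (tens m N hN).Adj (φ a) (φ b)} ≃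
      (Fin N → {φ : V → Fin m // ∀ a b, F.Adj a b → (⊤ : SimpleGraph (Fin m)).Adj (φ a) (φ b)}) :=
    { toFun := fun φ t => ⟨fun v => φ.1 v t, fun a b h => (show ∀ t, φ.1 a t ≠ φ.1 b t from φ.2 a b h) t⟩
      invFun := fun ψ => ⟨fun v t => (ψ t).1 v, fun a b h => (show ∀ t, (ψ t).1 a ≠ (ψ t).1 b from fun t => (ψ t).2 a b h)⟩
      left_inv := fun φ => rfl
      right_inv := fun ψ => rfl }
  rw [Nat.card_congr e, Nat.card_fun, Nat.card_fin]

/-- counting homs into a pullback -/
theorem homc_comap {V W X : Type} [Fintype V] [DecidableEq V] [Fintype W] [DecidableEq W] [Fintype X]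
    (F : SimpleGraph V) (H : SimpleGraph W)
    [DecidablePred fun φ : V → W => ∀ a b, F.Adj a b → H.Adj (φ a) (φ b)]
    (c : X → W) : homc F (H.comap c) =
      ∑ ψ ∈ ({φ : V → W | ∀ a b, F.Adj a b → H.Adj (φ a) (φ b)} : Finset (V → W)), ∏ v, #{x : X | c x = ψ v} := by
  classical
  rw [homc_eq]
  rw [Finset.card_eq_sum_card_fiberwise (f := fun φ : V → X => c ∘ φ) (t := ({φ : V → W | ∀ a b, F.Adj a b → H.Adj (φ a) (φ b)} : Finset (V → W)))]
  · refine Finset.sum_congr rfl fun ψ hψ => ?_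
    rw [← Fintype.card_piFinset]
    congr 1
    ext φ
    simp only [Finset.mem_filter, Finset.mem_univ, true_and, Fintype.mem_piFinset]
    constructor
    · rintro ⟨_, h⟩ v
      exact congrFun h v
    · intro h
      refine ⟨fun a b hab => ?_, funext h⟩
      simp only [Finset.mem_filter, Finset.mem_univ, true_and] at hψ
      have := hψ a b hab
      rw [← h a, ← h b] at this
      exact this
  · intro φ hφ
    simp only [Finset.coe_filter, Finset.mem_univ, true_and, Set.mem_ofPred_eq] at hφ ⊢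
    exact fun a b hab => hφ a b hab

theorem homc_comap_le {V W X : Type} [Fintype V] [DecidableEq V] [Fintype W] [DecidableEq W] [Fintype X]
    (F : SimpleGraph V) (H : SimpleGraph W)
    (c : X → W) (B : ℕ) (hB : ∀ w, #{x : X | c x = w} ≤ B) : homc F (H.comap c) ≤ homc F H * B ^ Fintype.card V := by
  classical
  rw [homc_comap]
  refine (Finset.sum_le_card_nsmul _ _ (B ^ Fintype.card V) ?_).trans ?_
  · intro ψ _
    refine (Finset.prod_le_prod (fun _ _ => Nat.zero_le _) (fun v _ => hB (ψ v))).trans ?_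
    simp
  · rw [smul_eq_mul, homc_eq]

theorem le_homc_comap {V W X : Type} [Fintype V] [DecidableEq V] [Fintype W] [DecidableEq W] [Fintype X]
    (F : SimpleGraph V) (H : SimpleGraph W)
    (c : X → W) (B : ℕ) (hB : ∀ w, B ≤ #{x : X | c x = w}) : homc F H * B ^ Fintype.card V ≤ homc F (H.comap c) := by
  classical
  rw [homc_comap]
  refine le_trans ?_ (Finset.card_nsmul_le_sum _ _ (B ^ Fintype.card V) ?_)
  · rw [smul_eq_mul, homc_eq]
  · intro ψ _
    refine le_trans ?_ (Finset.prod_le_prod (fun _ _ => Nat.zero_le _) (fun v _ => hB (ψ v)))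
    simp

/-- labelled copies are injective homs -/
theorem labelledCopyCount_eq {V W : Type} [Fintype V] [DecidableEq V] [Fintype W] (F : SimpleGraph V) (G : SimpleGraph W)
    [DecidablePred fun φ : V → W => (∀ a b, F.Adj a b → G.Adj (φ a) (φ b)) ∧ Function.Injective φ] :
    G.labelledCopyCount F = #{φ : V → W | (∀ a b, F.Adj a b → G.Adj (φ a) (φ b)) ∧ Function.Injective φ} := by
  unfold SimpleGraph.labelledCopyCount
  rw [← Fintype.card_subtype]
  have e : SimpleGraph.Copy F G ≃ {φ : V → W // (∀ a b, F.Adj a b → G.Adj (φ a) (φ b)) ∧ Function.Injective φ} := {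
    toFun := fun f => ⟨fun v => f v, fun a b h => f.toHom.map_rel h, f.injective⟩
    invFun := fun φ => ⟨⟨φ.1, fun {a b} h => φ.2.1 a b h⟩, φ.2.2⟩
    left_inv := fun f => rfl
    right_inv := fun φ => rfl }
  exact @Fintype.card_congr _ _ (_) (_) e

theorem labelledCopyCount_le {V W : Type} [Fintype V] [DecidableEq V] [Fintype W] (F : SimpleGraph V) (G : SimpleGraph W) :
    G.labelledCopyCount F ≤ homc F G := by
  classical
  rw [labelledCopyCount_eq, homc_eq]
  refine Finset.card_le_card ?_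
  intro φ hφ
  simp only [Finset.mem_filter, Finset.mem_univ, true_and] at hφ ⊢
  exact hφ.1

theorem labelledCopyCount_top {W : Type} [Fintype W] (k : ℕ) (G : SimpleGraph W) :
    G.labelledCopyCount (⊤ : SimpleGraph (Fin k)) = homc (⊤ : SimpleGraph (Fin k)) G := by
  classical
  rw [labelledCopyCount_eq, homc_eq]
  congr 1
  ext φ
  simp only [Finset.mem_filter, Finset.mem_univ, true_and]
  constructor
  · exact fun h => h.1
  · intro h
    refine ⟨h, fun a b hab => ?_⟩
    by_contra hne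
    have := h a b hne
    rw [hab] at this
    exact G.loopless.irrefl _ this

/-- hom minus injective hom for the four cycle -/
theorem homc_C4_le {n : ℕ} (G : SimpleGraph (Fin n)) :
    homc (SimpleGraph.cycleGraph 4) G ≤ G.labelledCopyCount (SimpleGraph.cycleGraph 4) + 2 * n ^ 3 := by
  classical
  rw [labelledCopyCount_eq, homc_eq]
  have h1 : #{φ : Fin 4 → Fin n | φ 0 = φ 2} ≤ n ^ 3 := by
    have : n ^ 3 = Fintype.card (Fin 3 → Fin n) := by simp
    rw [this, ← Finset.card_univ]
    refine Finset.card_le_card_of_injOn (fun φ => ![φ 0, φ 1, φ 3]) (by simp) ?_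
    intro φ hφ ψ hψ h
    simp only [Finset.coe_filter, Finset.mem_univ, true_and, Set.mem_ofPred_eq] at hφ hψ
    have h0 := congrFun h 0
    have h1 := congrFun h 1
    have h2 := congrFun h 2
    simp at h0 h1 h2
    ext i
    fin_cases i <;> simp [h0, h1, h2, ← hφ, ← hψ]
  have h2 : #{φ : Fin 4 → Fin n | φ 1 = φ 3} ≤ n ^ 3 := by
    have : n ^ 3 = Fintype.card (Fin 3 → Fin n) := by simp
    rw [this, ← Finset.card_univ]
    refine Finset.card_le_card_of_injOn (fun φ => ![φ 0, φ 1, φ 2]) (by simp) ?_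
    intro φ hφ ψ hψ h
    simp only [Finset.coe_filter, Finset.mem_univ, true_and, Set.mem_ofPred_eq] at hφ hψ
    have h0 := congrFun h 0
    have h1 := congrFun h 1
    have h2 := congrFun h 2
    simp at h0 h1 h2
    ext i
    fin_cases i <;> simp [h0, h1, h2, ← hφ, ← hψ]
  have h3 : ({φ : Fin 4 → Fin n | ∀ a b, (SimpleGraph.cycleGraph 4).Adj a b → G.Adj (φ a) (φ b)} : Finset _) ⊆
      ({φ : Fin 4 → Fin n | (∀ a b, (SimpleGraph.cycleGraph 4).Adj a b → G.Adj (φ a) (φ b)) ∧ Function.Injective φ} : Finset _)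
      ∪ (({φ : Fin 4 → Fin n | φ 0 = φ 2} : Finset _) ∪ ({φ : Fin 4 → Fin n | φ 1 = φ 3} : Finset _)) := by
    intro φ hφ
    simp only [Finset.mem_union, Finset.mem_filter, Finset.mem_univ, true_and] at hφ ⊢
    by_cases h02 : φ 0 = φ 2
    · exact Or.inr (Or.inl h02)
    by_cases h13 : φ 1 = φ 3
    · exact Or.inr (Or.inr h13)
    refine Or.inl ⟨hφ, ?_⟩
    have key : ∀ a b : Fin 4, (SimpleGraph.cycleGraph 4).Adj a b → φ a ≠ φ b := fun a b h => (hφ a b h).ne
    have k01 := key 0 1 (by decide)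
    have k12 := key 1 2 (by decide)
    have k23 := key 2 3 (by decide)
    have k30 := key 3 0 (by decide)
    intro a b hab
    fin_cases a <;> fin_cases b <;> simp_all
  refine (Finset.card_le_card h3).trans ((Finset.card_union_le _ _).trans ?_)
  have := Finset.card_union_le (({φ : Fin 4 → Fin n | φ 0 = φ 2} : Finset _)) (({φ : Fin 4 → Fin n | φ 1 = φ 3} : Finset _))
  omega

section colouring

variable {k m : ℕ}

/-- resampling one coordinate -/
theorem sum_update (a : Fin k) (f : (Fin k → Fin m) → ℝ) :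
    ∑ x : Fin k → Fin m, ∑ y : Fin m, f (Function.update x a y) = m * ∑ x : Fin k → Fin m, f x := by
  let e : (Fin k → Fin m) × Fin m ≃ (Fin k → Fin m) × Fin m :=
    { toFun := fun p => (Function.update p.1 a p.2, p.1 a)
      invFun := fun p => (Function.update p.1 a p.2, p.1 a)
      left_inv := fun p => by simp
      right_inv := fun p => by simp }
  have h1 : ∑ x : Fin k → Fin m, ∑ y : Fin m, f (Function.update x a y)
      = ∑ p : (Fin k → Fin m) × Fin m, f (e p).1 := by
    rw [Fintype.sum_prod_type]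
    rfl
  rw [h1, Equiv.sum_comp e (fun p => f p.1), Fintype.sum_prod_type]
  simp [Finset.mul_sum]

/-- centred kernel -/
noncomputable def vv (m : ℕ) (s t : Fin m) : ℝ := if s = t then -1 else 1 / ((m : ℝ) - 1)

theorem vv_symm (s t : Fin m) : vv m s t = vv m t s := by
  unfold vv; simp only [eq_comm]

theorem sum_vv (hm : 2 ≤ m) (t : Fin m) : ∑ s, vv m s t = 0 := by
  have hm' : (m : ℝ) - 1 ≠ 0 := by
    have : (2 : ℝ) ≤ m := by exact_mod_cast hm
    linarith
  unfold vv
  rw [Finset.sum_ite]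
  simp only [Finset.sum_const, nsmul_eq_mul]
  have h1 : #{x : Fin m | x = t} = 1 := by
    rw [Finset.filter_eq' _ t, if_pos (Finset.mem_univ _), Finset.card_singleton]
  have h2 : #{x : Fin m | ¬ x = t} = m - 1 := by
    rw [Finset.filter_not, Finset.card_sdiff_of_subset (Finset.filter_subset _ _), h1, Finset.card_univ, Fintype.card_fin]
  rw [h1, h2, Nat.cast_sub (by omega)]
  field_simp
  simp

theorem sum_abs_vv (hm : 2 ≤ m) (t : Fin m) : ∑ s, |vv m s t| = 2 := by
  have hm2 : (2 : ℝ) ≤ m := by exact_mod_cast hm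
  have hm' : (m : ℝ) - 1 ≠ 0 := by linarith
  have hm3 : (0 : ℝ) < m - 1 := by linarith
  unfold vv
  have : ∀ s : Fin m, |(if s = t then (-1 : ℝ) else 1 / ((m : ℝ) - 1))| = if s = t then 1 else 1 / ((m : ℝ) - 1) := by
    intro s
    split_ifs
    · simp
    · rw [abs_of_pos (by positivity)]
  simp only [this]
  rw [Finset.sum_ite]
  simp only [Finset.sum_const, nsmul_eq_mul]
  have h1 : #{x : Fin m | x = t} = 1 := by
    rw [Finset.filter_eq' _ t, if_pos (Finset.mem_univ _), Finset.card_singleton]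
  have h2 : #{x : Fin m | ¬ x = t} = m - 1 := by
    rw [Finset.filter_not, Finset.card_sdiff_of_subset (Finset.filter_subset _ _), h1, Finset.card_univ, Fintype.card_fin]
  rw [h1, h2, Nat.cast_sub (by omega)]
  field_simp
  push_cast
  ring

theorem abs_vv_le (hm : 2 ≤ m) (s t : Fin m) : |vv m s t| ≤ 1 := by
  have hm2 : (2 : ℝ) ≤ m := by exact_mod_cast hm
  have hm3 : (0 : ℝ) < m - 1 := by linarith
  unfold vv
  split_ifs
  · simp
  · rw [abs_of_pos (by positivity), div_le_one hm3]; linarith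

/-- value on a pair of coordinates -/
noncomputable def vp (e : Fin k × Fin k) (x : Fin k → Fin m) : ℝ := vv m (x e.1) (x e.2)

theorem sum_vp_mul (e : Fin k × Fin k) (u : Fin k) (hu : u = e.1 ∨ u = e.2) (he : e.1 ≠ e.2)
    (φ : ℝ → ℝ) (c : ℝ) (hφ : ∀ t : Fin m, ∑ s, φ (vv m s t) = c)
    (g : (Fin k → Fin m) → ℝ) (hg : ∀ x y, g (Function.update x u y) = g x) :
    m * ∑ x : Fin k → Fin m, φ (vp e x) * g x = c * ∑ x : Fin k → Fin m, g x := by
  rw [← sum_update u, Finset.mul_sum]
  refine Finset.sum_congr rfl fun x _ => ?_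
  simp only [hg]
  rw [← Finset.sum_mul]
  congr 1
  unfold vp
  rcases hu with rfl | rfl
  · simp only [Function.update_self, Function.update_of_ne he.symm]
    exact hφ _
  · simp only [Function.update_self, Function.update_of_ne he]
    rw [← hφ (x e.1)]
    exact Finset.sum_congr rfl fun s _ => by rw [vv_symm]

theorem sum_prod_single (hm : 2 ≤ m) (e : Fin k × Fin k) (he : e.1 ≠ e.2) :
    ∑ x : Fin k → Fin m, vp e x = 0 := by
  have h := sum_vp_mul e e.1 (Or.inl rfl) he id 0 (fun t => sum_vv hm t) (fun _ => 1) (fun _ _ => rfl)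
  simp only [id, mul_one, zero_mul] at h
  have hm2 : (m : ℝ) ≠ 0 := by positivity
  exact (mul_eq_zero.mp h).resolve_left hm2

theorem sum_prod_pair (hm : 2 ≤ m) (e f : Fin k × Fin k) (he : e.1 < e.2) (hf : f.1 < f.2) (hef : e ≠ f) :
    ∑ x : Fin k → Fin m, |vp e x| * |vp f x| = 4 / (m : ℝ) ^ 2 * (m : ℝ) ^ k := by
  have hm2 : (m : ℝ) ≠ 0 := by positivity
  obtain ⟨u, hu, hu1, hu2⟩ : ∃ u, (u = e.1 ∨ u = e.2) ∧ f.1 ≠ u ∧ f.2 ≠ u := by
    by_contra hcon
    push Not at hcon
    have h1 := hcon e.1 (Or.inl rfl)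
    have h2 := hcon e.2 (Or.inr rfl)
    by_cases a1 : f.1 = e.1
    · by_cases a2 : f.1 = e.2
      · rw [← a1, ← a2] at he; exact absurd he (lt_irrefl _)
      · exact hef (Prod.ext a1.symm (h2 a2).symm)
    · have b1 := h1 a1
      by_cases a2 : f.1 = e.2
      · rw [a2, b1] at hf; exact absurd (he.trans hf) (lt_irrefl _)
      · have := h2 a2
        rw [this] at b1
        rw [b1] at he; exact absurd he (lt_irrefl _)
  have h := sum_vp_mul e u hu he.ne (fun t => |t|) 2 (fun t => sum_abs_vv hm t) (fun x => |vp f x|)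
    (fun x y => by unfold vp; rw [Function.update_of_ne hu1, Function.update_of_ne hu2])
  have h' := sum_vp_mul f f.1 (Or.inl rfl) hf.ne (fun t => |t|) 2 (fun t => sum_abs_vv hm t) (fun x => 1)
    (fun _ _ => rfl)
  simp only [mul_one, Finset.sum_const, Finset.card_univ, Fintype.card_fun, Fintype.card_fin, nsmul_eq_mul] at h'
  push_cast at h'
  field_simp
  calc (∑ x : Fin k → Fin m, |vp e x| * |vp f x|) * (m : ℝ) ^ 2 = m * (m * ∑ x : Fin k → Fin m, |vp e x| * |vp f x|) := by ring
    _ = m * (2 * ∑ x : Fin k → Fin m, |vp f x|) := by rw [h]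
    _ = 2 * (m * ∑ x : Fin k → Fin m, |vp f x|) := by ring
    _ = _ := by rw [h']; ring

/-- oriented edges of a graph on `Fin k` -/
noncomputable def oe (F : SimpleGraph (Fin k)) : Finset (Fin k × Fin k) := by
  classical exact {e | e.1 < e.2 ∧ F.Adj e.1 e.2}

theorem mem_oe (F : SimpleGraph (Fin k)) (e : Fin k × Fin k) : e ∈ oe F ↔ e.1 < e.2 ∧ F.Adj e.1 e.2 := by
  classical
  unfold oe; simp

theorem card_oe (F : SimpleGraph (Fin k)) : #(oe F) = F.edgeSet.ncard := by
  classical
  rw [← Set.ncard_coe_finset]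
  refine Set.ncard_congr (fun e _ => s(e.1, e.2)) ?_ ?_ ?_
  · intro e he
    rw [Finset.mem_coe, mem_oe] at he
    exact he.2
  · intro e f he hf h
    rw [Finset.mem_coe, mem_oe] at he hf
    rw [Sym2.eq_iff] at h
    rcases h with ⟨h1, h2⟩ | ⟨h1, h2⟩
    · exact Prod.ext h1 h2
    · have a := he.1
      have b := hf.1
      rw [h1, h2] at a
      exact absurd (a.trans b) (lt_irrefl _)
  · intro s
    refine Sym2.ind (fun a b => ?_) s
    intro hs
    rw [SimpleGraph.mem_edgeSet] at hs
    rcases lt_trichotomy a b with h | h | h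
    · exact ⟨(a, b), by rw [Finset.mem_coe, mem_oe]; exact ⟨h, hs⟩, rfl⟩
    · rw [h] at hs; exact absurd hs (F.loopless.irrefl _)
    · exact ⟨(b, a), by rw [Finset.mem_coe, mem_oe]; exact ⟨h, hs.symm⟩, Sym2.eq_swap⟩

theorem homc_top_mul (hm : 2 ≤ m) (F : SimpleGraph (Fin k)) :
    (homc F (⊤ : SimpleGraph (Fin m)) : ℝ) * ((m : ℝ) / (m - 1)) ^ #(oe F) =
      ∑ x : Fin k → Fin m, ∏ e ∈ oe F, (1 + vp e x) := by
  classical
  have hm2 : (2 : ℝ) ≤ m := by exact_mod_cast hm
  have hm' : (m : ℝ) - 1 ≠ 0 := by linarith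
  rw [homc_eq]
  have key : ∀ x : Fin k → Fin m, ∏ e ∈ oe F, (1 + vp e x) =
      if (∀ a b, F.Adj a b → (⊤ : SimpleGraph (Fin m)).Adj (x a) (x b)) then ((m : ℝ) / (m - 1)) ^ #(oe F) else 0 := by
    intro x
    split_ifs with h
    · rw [Finset.prod_congr rfl (g := fun _ => (m : ℝ) / (m - 1)), Finset.prod_const]
      intro e he
      rw [mem_oe] at he
      have := h e.1 e.2 he.2
      unfold vp vv
      rw [if_neg this]
      field_simp; ring
    · push Not at h
      obtain ⟨a, b, hab, h⟩ := h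
      have hxy : x a = x b := by simpa using h
      rcases lt_trichotomy a b with h1 | h1 | h1
      · refine Finset.prod_eq_zero (i := (a, b)) ((mem_oe _ _).2 ⟨h1, hab⟩) ?_
        simp [vp, vv, hxy]
      · rw [h1] at hab; exact absurd hab (F.loopless.irrefl _)
      · refine Finset.prod_eq_zero (i := (b, a)) ((mem_oe _ _).2 ⟨h1, hab.symm⟩) ?_
        simp [vp, vv, hxy]
  simp only [key]
  rw [Finset.sum_ite]
  simp

theorem homc_top_upper (hm : 2 ≤ m) (F : SimpleGraph (Fin k)) :
    (homc F (⊤ : SimpleGraph (Fin m)) : ℝ) * ((m : ℝ) / (m - 1)) ^ #(oe F) ≤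
      (m : ℝ) ^ k * (1 + 2 ^ #(oe F) * (4 / (m : ℝ) ^ 2)) := by
  classical
  rw [homc_top_mul hm]
  simp only [Finset.prod_one_add]
  rw [Finset.sum_comm]
  have hb : ∀ S ∈ (oe F).powerset, ∑ x : Fin k → Fin m, ∏ e ∈ S, vp e x ≤
      (if S = ∅ then (m : ℝ) ^ k else 0) + 4 / (m : ℝ) ^ 2 * (m : ℝ) ^ k := by
    intro S hS
    rw [Finset.mem_powerset] at hS
    rcases Finset.eq_empty_or_nonempty S with rfl | hne
    · simp only [Finset.prod_empty, Finset.sum_const, Finset.card_univ, Fintype.card_fun, Fintype.card_fin,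
        nsmul_eq_mul, mul_one, if_true]
      push_cast
      have : (0 : ℝ) ≤ 4 / (m : ℝ) ^ 2 * (m : ℝ) ^ k := by positivity
      linarith
    · rw [if_neg hne.ne_empty, zero_add]
      obtain ⟨e, he⟩ := hne
      by_cases hS1 : S = {e}
      · subst hS1
        simp only [Finset.prod_singleton]
        rw [sum_prod_single hm e ((mem_oe _ _).1 (hS he)).1.ne]
        positivity
      · obtain ⟨f, hf, hfe⟩ : ∃ f ∈ S, f ≠ e := by
          by_contra hcon
          push Not at hcon
          exact hS1 (Finset.eq_singleton_iff_unique_mem.2 ⟨he, hcon⟩)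
        rw [← sum_prod_pair hm e f ((mem_oe _ _).1 (hS he)).1 ((mem_oe _ _).1 (hS hf)).1 hfe.symm]
        refine Finset.sum_le_sum fun x _ => ?_
        refine (le_abs_self _).trans ?_
        rw [Finset.abs_prod, ← Finset.mul_prod_erase S _ he, ← Finset.mul_prod_erase (S.erase e) _ (Finset.mem_erase.2 ⟨hfe, hf⟩), ← mul_assoc]
        refine mul_le_of_le_one_right (by positivity) ?_
        exact Finset.prod_le_one (fun _ _ => abs_nonneg _) (fun i _ => abs_vv_le hm _ _)
  refine (Finset.sum_le_sum hb).trans ?_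
  rw [Finset.sum_add_distrib]
  rw [Finset.sum_ite_eq' (oe F).powerset ∅ (fun _ => (m : ℝ) ^ k)]
  simp only [Finset.empty_mem_powerset, if_true, Finset.sum_const, Finset.card_powerset, nsmul_eq_mul]
  push_cast
  nlinarith

end colouring


theorem homc_top_top (k m : ℕ) : homc (⊤ : SimpleGraph (Fin k)) (⊤ : SimpleGraph (Fin m)) = m.descFactorial k := by
  have e : {φ : Fin k → Fin m // ∀ a b, (⊤ : SimpleGraph (Fin k)).Adj a b → (⊤ : SimpleGraph (Fin m)).Adj (φ a) (φ b)} ≃
      (Fin k ↪ Fin m) :=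
    { toFun := fun φ => ⟨φ.1, fun a b h => by
        by_contra hne
        exact φ.2 a b hne h⟩
      invFun := fun φ => ⟨φ, fun a b h h' => h (φ.injective h')⟩
      left_inv := fun φ => rfl
      right_inv := fun φ => rfl }
  unfold homc
  rw [Nat.card_congr e, Nat.card_eq_fintype_card, Fintype.card_embedding_eq]
  simp

theorem homc_two {n : ℕ} (G : SimpleGraph (Fin n)) :
    homc (⊤ : SimpleGraph (Fin 2)) G = 2 * G.edgeSet.ncard := by
  classical
  have h1 : G.edgeSet.ncard = #G.edgeFinset := by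
    rw [← SimpleGraph.coe_edgeFinset, Set.ncard_coe_finset]
  rw [h1, ← SimpleGraph.dart_card_eq_twice_card_edges]
  unfold homc
  rw [← Nat.card_eq_fintype_card]
  refine Nat.card_congr
    { toFun := fun φ => ⟨(φ.1 0, φ.1 1), φ.2 0 1 (by simp)⟩
      invFun := fun d => ⟨![d.fst, d.snd], ?_⟩
      left_inv := fun φ => ?_
      right_inv := fun d => ?_ }
  · intro a b hab
    fin_cases a <;> fin_cases b <;> simp_all [d.adj, d.adj.symm]
  · ext i
    fin_cases i <;> simp
  · ext <;> simp

theorem homc_C4_top (m : ℕ) (hm : 2 ≤ m) : (homc (SimpleGraph.cycleGraph 4) (⊤ : SimpleGraph (Fin m)) : ℝ)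
    = m * (m - 1) ^ 2 + m * (m - 1) * (m - 2) ^ 2 := by
  classical
  have e : {φ : Fin 4 → Fin m // ∀ a b, (SimpleGraph.cycleGraph 4).Adj a b → (⊤ : SimpleGraph (Fin m)).Adj (φ a) (φ b)} ≃
      Σ p : Fin m × Fin m, {y : Fin m // y ≠ p.1 ∧ y ≠ p.2} × {y : Fin m // y ≠ p.1 ∧ y ≠ p.2} :=
    { toFun := fun φ => ⟨(φ.1 0, φ.1 2), ⟨φ.1 1, φ.2 1 0 (by decide), φ.2 1 2 (by decide)⟩,
        ⟨φ.1 3, φ.2 3 0 (by decide), φ.2 3 2 (by decide)⟩⟩
      invFun := fun q => ⟨![q.1.1, q.2.1.1, q.1.2, q.2.2.1], by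
        obtain ⟨⟨a, c⟩, ⟨y, hy1, hy2⟩, ⟨z, hz1, hz2⟩⟩ := q
        intro i j hij
        simp only [SimpleGraph.top_adj]
        revert hij
        fin_cases i <;> fin_cases j <;> intro hij <;>
          first
          | exact absurd hij (by decide)
          | exact hy1.symm
          | exact hy1
          | exact hy2.symm
          | exact hy2
          | exact hz1.symm
          | exact hz1
          | exact hz2.symm
          | exact hz2⟩
      left_inv := fun φ => by
        ext i
        fin_cases i <;> simp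
      right_inv := fun q => rfl }
  unfold homc
  rw [Nat.card_congr e, Nat.card_eq_fintype_card, Fintype.card_sigma]
  simp only [Fintype.card_prod]
  have hc : ∀ p : Fin m × Fin m, Fintype.card {y : Fin m // y ≠ p.1 ∧ y ≠ p.2} = if p.1 = p.2 then m - 1 else m - 2 := by
    intro p
    rw [Fintype.card_subtype]
    have : ({x : Fin m | x ≠ p.1 ∧ x ≠ p.2} : Finset (Fin m)) = univ \ {p.1, p.2} := by
      ext x; simp
    rw [this, Finset.card_sdiff_of_subset (Finset.subset_univ _), Finset.card_univ, Fintype.card_fin]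
    split_ifs with h
    · rw [h]; simp
    · rw [Finset.card_pair h]
  simp only [hc]
  rw [Fintype.sum_prod_type]
  have h2 : ∀ x : Fin m, ∑ y : Fin m, ((if x = y then m - 1 else m - 2) * (if x = y then m - 1 else m - 2)) =
      (m - 1) ^ 2 + (m - 1) * (m - 2) ^ 2 := by
    intro x
    rw [← Finset.add_sum_erase _ _ (Finset.mem_univ x)]
    rw [Finset.sum_congr rfl (g := fun _ => (m - 2) ^ 2)]
    · simp
      ring
    · intro y hy
      rw [Finset.mem_erase] at hy
      rw [if_neg (fun h => hy.1 h.symm)]; ring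
  simp only [h2]
  simp only [Finset.sum_const, Finset.card_univ, Fintype.card_fin, smul_eq_mul]
  push_cast [Nat.cast_sub (show 1 ≤ m by omega), Nat.cast_sub hm]
  ring

/-- fibres of the residue map -/
theorem count_mod_bounds (n M : ℕ) (hM : 0 < M) (w : Fin M) :
    n / M ≤ #{x : Fin n | (⟨x.1 % M, Nat.mod_lt _ hM⟩ : Fin M) = w} ∧
      #{x : Fin n | (⟨x.1 % M, Nat.mod_lt _ hM⟩ : Fin M) = w} ≤ n / M + 1 := by
  have h1 : #{x : Fin n | (⟨x.1 % M, Nat.mod_lt _ hM⟩ : Fin M) = w} = n.count (· ≡ w.1 [MOD M]) := by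
    rw [Nat.count_eq_card_filter_range]
    refine Finset.card_bij (fun x _ => x.1) ?_ ?_ ?_
    · intro a ha
      rw [Finset.mem_filter] at ha
      rw [Finset.mem_filter]
      refine ⟨Finset.mem_range.2 a.2, ?_⟩
      rw [← ha.2]
      exact (Nat.mod_modEq _ _).symm
    · intro a _ b _ h
      exact Fin.ext h
    · intro b hb
      rw [Finset.mem_filter] at hb
      refine ⟨⟨b, Finset.mem_range.1 hb.1⟩, ?_, rfl⟩
      rw [Finset.mem_filter]
      refine ⟨Finset.mem_univ _, Fin.ext ?_⟩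
      have h2 : b % M = w.1 % M := hb.2
      simp only [h2]
      exact Nat.mod_eq_of_lt w.2
  rw [h1, Nat.count_modEq_card n hM]
  constructor
  · omega
  · split_ifs <;> omega


end Pool.Agent.V11124.TensorCore
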